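import Pool.Agent.TH992.K.Gam2

/-!
Sum of the third differences over all triples of edges of a box, assembly.
-/

set_option autoImplicit false

namespace Pool.Agent.TH992

open H974 H12S H973N Finset

theorem T3_swap {q : ℝ} {R : ℕ} {a b c : Edg} (hab : a ≠ b) (hac : a ≠ c) (hbc : b ≠ c) :
    PQ q (boxE R) (SD (Ae a) b c) = PQ q (boxE R) (SD (Ae b) a c) :=
  Pr_congr (fun _ _ => SD_swap hab hac hbc)

theorem T3_comm {q : ℝ} {R : ℕ} {a b c : Edg} :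
    PQ q (boxE R) (SD (Ae a) b c) = PQ q (boxE R) (SD (Ae a) c b) :=
  Pr_congr (fun _ _ => SD_comm)

theorem triple_sum (κ : ℝ) (hκ : 0 < κ) : ∃ C : ℝ, 0 < C ∧ ∀ (q : ℝ) (n : ℕ), Win q κ n →
    ∀ (J R : ℕ), 12 * 2 ^ J ≤ n → 21 * 2 ^ J ≤ R → ∀ G : Finset Edg,
    (∀ a ∈ G, |a.1| + 20 * 2 ^ J ≤ R ∧ |a.2.1| + 20 * 2 ^ J ≤ R) → 
    (∀ a ∈ G, ∀ b ∈ G, dst a b ≤ 4 * 2 ^ J) →
    ∑ a ∈ G, ∑ b ∈ G, ∑ c ∈ G, ind (a ≠ b ∧ a ≠ c ∧ b ≠ c) *
      PQ q (boxE R) (SD (Ae a) b c) ≤ C * (G.card * V3 q J) := by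
  classical
  obtain ⟨C, hC, hS⟩ := one_sum κ hκ
  refine ⟨3 * C, by positivity, ?_⟩
  intro q n hW J R hn hRJ G hG hGd
  have h0 : 0 ≤ q := by linarith [hW.lo]
  have h1 : q ≤ 1 := by linarith [hW.hi]
  have hok := okQ h0 h1
  set T : Edg → Edg → Edg → ℝ := fun a b c => PQ q (boxE R) (SD (Ae a) b c) with hT
  have hT0 : ∀ a b c, 0 ≤ T a b c := fun a b c => Pr_nonneg hok _ _
  set Z : Edg → Edg → Edg → ℝ := fun c a b => ind (Cl c a b) * T c a b with hZ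
  have hZ0 : ∀ a b c, 0 ≤ Z a b c := fun a b c => mul_nonneg (ind_nonneg _) (hT0 a b c)
  have hY : ∀ c ∈ G, ∑ a ∈ G, ∑ b ∈ G, Z c a b ≤ C * V3 q J := fun c hc =>
    hS q n hW J R hn hRJ G hG hGd c hc
  have point : ∀ a b c, ind (a ≠ b ∧ a ≠ c ∧ b ≠ c) * T a b c ≤ Z a b c + Z b a c + Z c a b := by
    intro a b c
    by_cases hd : a ≠ b ∧ a ≠ c ∧ b ≠ c
    · rw [ind_of hd, one_mul]
      obtain ⟨hab, hac, hbc⟩ := hd
      have e1 : T a b c = T b a c := T3_swap hab hac hbc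
      have e2 : T a b c = T c a b := by
        have k1 : T a b c = T a c b := T3_comm
        rw [k1]
        exact T3_swap hac hab hbc.symm
      have s1 := FPX.dst_comm a b
      have s2 := FPX.dst_comm a c
      have s3 := FPX.dst_comm b c
      have hcase : Cl a b c ∨ Cl b a c ∨ Cl c a b := by
        unfold Cl
        rcases le_total (dst b c) (dst a b) with h1 | h1 <;>
        rcases le_total (dst b c) (dst a c) with h2 | h2 <;>
        rcases le_total (dst a b) (dst a c) with h3 | h3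
        · exact Or.inl ⟨hbc, hab, hac, h1, h2⟩
        · exact Or.inl ⟨hbc, hab, hac, h1, h2⟩
        · exact Or.inr (Or.inl ⟨hac, hab.symm, hbc, by linarith, by linarith⟩)
        · exact Or.inr (Or.inl ⟨hac, hab.symm, hbc, by linarith, by linarith⟩)
        · exact Or.inr (Or.inr ⟨hab, hac.symm, hbc.symm, by linarith, by linarith⟩)
        · exact Or.inl ⟨hbc, hab, hac, by linarith, h2⟩
        · exact Or.inr (Or.inr ⟨hab, hac.symm, hbc.symm, by linarith, by linarith⟩)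
        · exact Or.inr (Or.inl ⟨hac, hab.symm, hbc, by linarith, by linarith⟩)
      have z1 := hZ0 a b c
      have z2 := hZ0 b a c
      have z3 := hZ0 c a b
      rcases hcase with h | h | h
      · have : Z a b c = T a b c := by
          rw [hZ]; simp only; rw [ind_of h, one_mul]
        linarith
      · have : Z b a c = T b a c := by
          rw [hZ]; simp only; rw [ind_of h, one_mul]
        linarith
      · have : Z c a b = T c a b := by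
          rw [hZ]; simp only; rw [ind_of h, one_mul]
        linarith
    · rw [ind_not_of hd, zero_mul]
      linarith [hZ0 a b c, hZ0 b a c, hZ0 c a b]
  have e2 : ∑ a ∈ G, ∑ b ∈ G, ∑ c ∈ G, Z b a c = ∑ b ∈ G, ∑ a ∈ G, ∑ c ∈ G, Z b a c :=
    Finset.sum_comm
  have e3 : ∑ a ∈ G, ∑ b ∈ G, ∑ c ∈ G, Z c a b = ∑ c ∈ G, ∑ a ∈ G, ∑ b ∈ G, Z c a b := by
    have k1 : ∀ a, ∑ b ∈ G, ∑ c ∈ G, Z c a b = ∑ c ∈ G, ∑ b ∈ G, Z c a b := fun a =>
      Finset.sum_comm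
    rw [Finset.sum_congr rfl (fun a _ => k1 a), Finset.sum_comm]
  calc ∑ a ∈ G, ∑ b ∈ G, ∑ c ∈ G, ind (a ≠ b ∧ a ≠ c ∧ b ≠ c) * T a b c
      ≤ ∑ a ∈ G, ∑ b ∈ G, ∑ c ∈ G, (Z a b c + Z b a c + Z c a b) :=
        Finset.sum_le_sum fun a _ => Finset.sum_le_sum fun b _ => Finset.sum_le_sum fun c _ =>
          point a b c
    _ = ∑ a ∈ G, ∑ b ∈ G, ∑ c ∈ G, Z a b c + ∑ a ∈ G, ∑ b ∈ G, ∑ c ∈ G, Z b a c +
        ∑ a ∈ G, ∑ b ∈ G, ∑ c ∈ G, Z c a b := by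
        simp only [Finset.sum_add_distrib]
    _ = ∑ a ∈ G, ∑ b ∈ G, ∑ c ∈ G, Z a b c + ∑ b ∈ G, ∑ a ∈ G, ∑ c ∈ G, Z b a c +
        ∑ c ∈ G, ∑ a ∈ G, ∑ b ∈ G, Z c a b := by rw [e2, e3]
    _ ≤ ∑ _a ∈ G, C * V3 q J + ∑ _b ∈ G, C * V3 q J + ∑ _c ∈ G, C * V3 q J :=
        add_le_add (add_le_add (Finset.sum_le_sum hY) (Finset.sum_le_sum hY))
          (Finset.sum_le_sum hY)
    _ = 3 * C * (G.card * V3 q J) := by
        rw [Finset.sum_const, nsmul_eq_mul]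
        ring

end Pool.Agent.TH992
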