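import Pool.Agent.TH992.K.Vev
import Pool.Agent.TH992.K.Gam3

/-!
Sum of the third differences, one edge far from the two others.
-/

set_option autoImplicit false

namespace Pool.Agent.TH992

open H974 H12S H973N Finset

theorem Pf_union {e f : Edg} {w F : Finset Edg} (hf : f ∉ w) (he : e ∉ F) (hef : e ≠ f) :
    Pf (Ae e) f (w ∪ F) ↔ Pf (CO {src e} {tgt e} (↑(w.erase e) : Set Edg)) f F := by
  have s1 : insert f (w ∪ F) = w ∪ insert f F := by rw [Finset.union_insert]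
  have s2 : (w ∪ F).erase f = w ∪ F.erase f := by
    rw [Finset.erase_union_distrib, Finset.erase_eq_of_notMem hf]
  have c1 : e ∉ insert f F := by
    rw [Finset.mem_insert]; push Not; exact ⟨hef, he⟩
  have c2 : e ∉ F.erase f := fun h => he (Finset.erase_subset _ _ h)
  unfold Pf
  rw [s1, s2, Ae_union c1, Ae_union c2]

/-- The consequence of a third difference with one edge far away. -/
theorem SD_far {e g f : Edg} {N : ℕ} {t : ℤ × ℤ} {r : ℕ} {w F : Finset Edg}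
    (hef : e ≠ f) (he : e ∈ blk t r) (hg : g ∈ blk t r) (ht : blk t r ⊆ boxE N)
    (hf : f ∉ boxE N) (hw : w ⊆ boxE N) (hF : ∀ x ∈ F, x ∉ boxE N)
    (h : SD (Ae e) g f (w ∪ F)) :
    Ve t r N (↑w : Set Edg) ∧
      (Pf (CO {src e} {tgt e} (↑((w.erase g).erase e) : Set Edg)) f F ∨
        Pf (CO {src e} {tgt e} (↑((insert g w).erase e) : Set Edg)) f F) := by
  have heN := ht he
  have hgN := ht hg
  have heF : e ∉ F := fun h' => hF e h' heN
  have hgF : g ∉ F := fun h' => hF g h' hgN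
  have e1 : (w ∪ F).erase g = w.erase g ∪ F := by
    rw [Finset.erase_union_distrib, Finset.erase_eq_of_notMem hgF]
  have e2 : insert g (w ∪ F) = insert g w ∪ F := by rw [Finset.insert_union]
  have hgf : g ≠ f := fun h' => hf (h' ▸ hgN)
  have hw0 : f ∉ w.erase g := fun h' => hf (hw (Finset.erase_subset _ _ h'))
  have hw1 : f ∉ insert g w := by
    rw [Finset.mem_insert]
    push Not
    exact ⟨hgf.symm, fun h' => hf (hw h')⟩
  have h2 : ∃ w' : Finset Edg, (w' = w.erase g ∨ w' = insert g w) ∧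
      Pf (CO {src e} {tgt e} (↑(w'.erase e) : Set Edg)) f F := by
    rcases h.2.1 with h' | h'
    · rw [e1, Pf_union hw0 heF hef] at h'
      exact ⟨_, Or.inl rfl, h'⟩
    · rw [e2, Pf_union hw1 heF hef] at h'
      exact ⟨_, Or.inr rfl, h'⟩
  obtain ⟨w', hw', hP⟩ := h2
  refine ⟨?_, ?_⟩
  swap
  · rcases hw' with rfl | rfl
    · exact Or.inl hP
    · exact Or.inr hP
  -- the event `Ve`
  have hw'N : w' ⊆ boxE N := by
    rcases hw' with rfl | rfl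
    · exact (Finset.erase_subset _ _).trans hw
    · exact Finset.insert_subset hgN hw
  have hwb : (↑(w'.erase e) : Set Edg) \ ↑(blk t r) = (↑w : Set Edg) \ ↑(blk t r) := by
    ext x
    rcases hw' with rfl | rfl
    · simp only [Set.mem_sdiff, Finset.mem_coe, Finset.mem_erase]
      constructor
      · rintro ⟨⟨_, _, h3⟩, h4⟩
        exact ⟨h3, h4⟩
      · rintro ⟨h3, h4⟩
        exact ⟨⟨fun h' => h4 (h' ▸ he), fun h' => h4 (h' ▸ hg), h3⟩, h4⟩
    · simp only [Set.mem_sdiff, Finset.mem_coe, Finset.mem_erase, Finset.mem_insert]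
      constructor
      · rintro ⟨⟨_, h3 | h3⟩, h4⟩
        · exact absurd (h3 ▸ hg) h4
        · exact ⟨h3, h4⟩
      · rintro ⟨h3, h4⟩
        exact ⟨⟨fun h' => h4 (h' ▸ he), Or.inr h3⟩, h4⟩
  obtain ⟨⟨u0, hu0, v0, hv0, hr1⟩, hr0⟩ := hP
  rw [Set.mem_singleton_iff] at hu0 hv0
  subst hu0 hv0
  have hno : ¬ Reach (↑(w'.erase e) : Set Edg) (src e) (tgt e) := by
    intro h'
    apply hr0
    exact ⟨src e, rfl, tgt e, rfl, h'.mono Set.subset_union_right⟩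
  have hsrc : inR (-(N:ℤ)) N (-(N:ℤ)) N (src e) ∧ inR (-(N:ℤ)) N (-(N:ℤ)) N (tgt e) :=
    boxE_ends (Finset.mem_coe.2 heN)
  have hsub : ((↑(insert f F) : Set Edg) ∪ ↑(w'.erase e)) ∩ ↑(RE (-(N:ℤ)) N (-(N:ℤ)) N) ⊆
      (↑(w'.erase e) : Set Edg) := by
    rintro x ⟨hx | hx, hx'⟩
    · rw [Finset.mem_coe, Finset.mem_insert] at hx
      rcases hx with rfl | hx
      · exact absurd (Finset.mem_coe.1 hx') hf
      · exact absurd (Finset.mem_coe.1 hx') (hF x hx)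
    · exact hx
  have arm : ∀ x y : Vtx, inR (-(N:ℤ)) N (-(N:ℤ)) N x →
      inR (t.1 - r) (t.1 + r) (t.2 - r) (t.2 + r) x →
      ¬ Reach (↑(w'.erase e) : Set Edg) x y →
      Reach ((↑(insert f F) : Set Edg) ∪ ↑(w'.erase e)) x y →
      ∃ u, inR (t.1 - r) (t.1 + r) (t.2 - r) (t.2 + r) u ∧ Reach (↑(w'.erase e) : Set Edg) x u ∧
        ∃ z ∈ bdR (-(N:ℤ)) N (-(N:ℤ)) N, Reach ((↑w : Set Edg) \ ↑(blk t r)) u z := by
    intro x y hxN hx hxy h1
    rcases exit_or hxN h1 with ⟨z, hz, hz'⟩ | ⟨_, h'⟩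
    · obtain ⟨u, k1, k2, k3⟩ := last_exit (b := (↑(blk t r) : Set Edg))
        (Q := inR (t.1 - r) (t.1 + r) (t.2 - r) (t.2 + r)) (fun x hx => BS_adj_box
          (Finset.mem_coe.1 hx)) hx (hz'.mono hsub)
      rw [hwb] at k3
      exact ⟨u, k1, k2, z, hz, k3⟩
    · exact absurd (h'.mono hsub) hxy
  obtain ⟨u, a1, a2, a3⟩ := arm (src e) (tgt e) hsrc.1 (BS_adj_box he).1 hno hr1
  obtain ⟨v, b1, b2, b3⟩ := arm (tgt e) (src e) hsrc.2 (BS_adj_box he).2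
    (fun h' => hno h'.symm) hr1.symm
  refine ⟨u, v, a1, b1, a3, b3, ?_⟩
  intro huv
  apply hno
  have hm : (↑w : Set Edg) \ ↑(blk t r) ⊆ (↑(w'.erase e) : Set Edg) := by
    rw [← hwb]
    exact Set.sdiff_subset
  exact (a2.trans (huv.mono hm)).trans b2.symm

/-- Sum over the far edges. -/
theorem far_edge {κ C : ℝ} (hC : ∀ (q : ℝ) (n : ℕ), Win q κ n →
    ∀ (K Λ R : ℕ), 1 ≤ Λ → 4 * 2^K ≤ n → 2 * R ≤ Λ * 2^K → ∀ (a b c d : ℤ), -(R:ℤ) ≤ a →
    a ≤ b → b ≤ R → -(R:ℤ) ≤ c → c ≤ d → d ≤ R →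
    ∀ (I J : Set Vtx) (O : Set Edg), Disjoint O ↑(boxE R \ RE a b c d) →
    (∀ v ∈ I ∪ J, inR a b c d v) →
    ∑ g ∈ boxE R \ RE a b c d, PQ q (boxE R \ RE a b c d) (Pf (CO I J O) g) ≤
      C * Λ * W1s q K)
    {q : ℝ} {n : ℕ} (h : Win q κ n) {K Λ R N : ℕ} (hΛ : 1 ≤ Λ) (hn : 4 * 2^K ≤ n)
    (hR : 2 * R ≤ Λ * 2^K) (hNR : N ≤ R) {e g : Edg} {t : ℤ × ℤ} {r : ℕ}
    (he : e ∈ blk t r) (hg : g ∈ blk t r) (ht : blk t r ⊆ boxE N) (Q : Finset Edg → Prop)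
    (hQ : ∀ f, f ∉ boxE N → ∀ w, w ⊆ boxE N → ∀ F : Finset Edg, (∀ x ∈ F, x ∉ boxE N) →
      SD (Ae e) g f (w ∪ F) → Q w) :
    ∑ f ∈ boxE R \ boxE N, PQ q (boxE R) (SD (Ae e) g f) ≤
      PQ q (boxE N) (fun w => Q w ∧ Ve t r N (↑w : Set Edg)) * (2 * (C * Λ * W1s q K)) := by
  have h0 : 0 ≤ q := by linarith [h.lo]
  have h1 : q ≤ 1 := by linarith [h.hi]
  have hok := okQ h0 h1
  have heN := ht he
  have hgN := ht hg
  have hw0 := FPX.W1s_nonneg h0 h1 K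
  have hsub : boxE N ⊆ boxE R := by
    unfold boxE
    apply RE_subset <;> omega
  have hU : boxE R = boxE N ∪ (boxE R \ boxE N) := by
    rw [Finset.union_sdiff_of_subset hsub]
  have hd : Disjoint (boxE N) (boxE R \ boxE N) := Finset.disjoint_sdiff
  set S' := boxE R \ boxE N with hS'
  set Y : Finset Edg → Edg → ℝ := fun w' f =>
    PQ q S' (Pf (CO {src e} {tgt e} (↑(w'.erase e) : Set Edg)) f) with hY
  have hterm : ∀ f ∈ S', PQ q (boxE R) (SD (Ae e) g f) ≤ Ex (fun _ => q) (boxE N)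
      (fun w => ind (Q w ∧ Ve t r N (↑w : Set Edg)) * (Y (w.erase g) f + Y (insert g w) f)) := by
    intro f hf
    have hfN := (Finset.mem_sdiff.1 hf).2
    have hef : e ≠ f := fun h' => hfN (h' ▸ heN)
    unfold PQ Pr
    conv_lhs => rw [hU, Ex_union hd]
    apply Ex_mono hok
    intro w hw
    rw [hY]
    simp only
    unfold PQ Pr
    rw [← Ex_add, ← Ex_mul_left]
    apply Ex_mono hok
    intro F hF
    have hFN : ∀ x ∈ F, x ∉ boxE N := fun x hx => (Finset.mem_sdiff.1 (hF hx)).2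
    by_cases hSD : SD (Ae e) g f (w ∪ F)
    · obtain ⟨k1, k2⟩ := SD_far hef he hg ht hfN hw hFN hSD
      rw [ind_of hSD, ind_of ⟨hQ f hfN w hw F hFN hSD, k1⟩, one_mul]
      have n1 := ind_nonneg (Pf (CO {src e} {tgt e} (↑((w.erase g).erase e) : Set Edg)) f F)
      have n2 := ind_nonneg (Pf (CO {src e} {tgt e} (↑((insert g w).erase e) : Set Edg)) f F)
      rcases k2 with k2 | k2
      · rw [ind_of k2] at n1 ⊢; linarith
      · rw [ind_of k2] at n2 ⊢; linarith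
    · rw [ind_not_of hSD]
      exact mul_nonneg (ind_nonneg _) (add_nonneg (ind_nonneg _) (ind_nonneg _))
  have hin : ∀ w', w' ⊆ boxE N → ∑ f ∈ S', Y w' f ≤ C * Λ * W1s q K := by
    intro w' hw'
    have := hC q n h K Λ R hΛ hn hR (-N) N (-N) N (by omega) (by omega) (by omega) (by omega)
      (by omega) (by omega) {src e} {tgt e} (↑(w'.erase e)) ?_ ?_
    · exact this
    · rw [Finset.disjoint_coe, Finset.disjoint_left]
      intro x hx hx'
      exact (Finset.mem_sdiff.mp hx').2 (hw' (Finset.erase_subset _ _ hx))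
    · obtain ⟨s1, s2⟩ := boxE_ends (Finset.mem_coe.2 heN)
      rintro v (hv | hv)
      · rw [Set.mem_singleton_iff] at hv
        rw [hv]; exact s1
      · rw [Set.mem_singleton_iff] at hv
        rw [hv]; exact s2
  calc ∑ f ∈ S', PQ q (boxE R) (SD (Ae e) g f)
      ≤ ∑ f ∈ S', Ex (fun _ => q) (boxE N) (fun w => ind (Q w ∧ Ve t r N (↑w : Set Edg)) *
        (Y (w.erase g) f + Y (insert g w) f)) := Finset.sum_le_sum hterm
    _ = Ex (fun _ => q) (boxE N) (fun w => ind (Q w ∧ Ve t r N (↑w : Set Edg)) *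
        (∑ f ∈ S', Y (w.erase g) f + ∑ f ∈ S', Y (insert g w) f)) := by
        rw [← Ex_sum]
        apply Ex_congr
        intro w _
        rw [← Finset.mul_sum, Finset.sum_add_distrib]
    _ ≤ Ex (fun _ => q) (boxE N) (fun w => ind (Q w ∧ Ve t r N (↑w : Set Edg)) *
        (2 * (C * Λ * W1s q K))) := by
        apply Ex_mono hok
        intro w hw
        apply mul_le_mul_of_nonneg_left _ (ind_nonneg _)
        have k1 := hin (w.erase g) ((Finset.erase_subset _ _).trans hw)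
        have k2 := hin (insert g w) (Finset.insert_subset hgN hw)
        linarith
    _ = PQ q (boxE N) (fun w => Q w ∧ Ve t r N (↑w : Set Edg)) * (2 * (C * Λ * W1s q K)) :=
        Ex_mul_right _ _ _ _

theorem Ve_local {t : ℤ × ℤ} {r N : ℕ} {ball S : Finset Edg} (hb : ball ⊆ blk t r)
    (F : Finset Edg) (hF : F ⊆ S) :
    Ve t r N (↑F : Set Edg) ↔ Ve t r N (↑(F ∩ (S \ ball)) : Set Edg) := by
  have e1 : (↑F : Set Edg) \ ↑(blk t r) = (↑(F ∩ (S \ ball)) : Set Edg) \ ↑(blk t r) := by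
    ext x
    simp only [Set.mem_sdiff, Finset.mem_coe, Finset.mem_inter, Finset.mem_sdiff]
    constructor
    · rintro ⟨h, h'⟩
      exact ⟨⟨h, hF h, fun hx => h' (hb hx)⟩, h'⟩
    · rintro ⟨h, h'⟩
      exact ⟨h.1, h'⟩
  unfold Ve
  rw [e1]

/-- two local events and the block event -/
theorem two_L4_Ve {q : ℝ} (h0 : 0 ≤ q) (h1 : q ≤ 1) {ρ N : ℕ} (hρ : 1 ≤ ρ) {e g : Edg}
    (hd : 2 * (ρ:ℤ) < dst e g) (hd4 : dst e g ≤ 4 * ρ)
    (ht : NP.tb ρ (NP.tl ρ e) ⊆ boxE N) :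
    PQ q (boxE N) (fun w => (L4 ρ e (↑w : Set Edg) ∧ L4 ρ g (↑w : Set Edg)) ∧
      Ve (((2 * ρ : ℕ) : ℤ) * (NP.tl ρ e).1, ((2 * ρ : ℕ) : ℤ) * (NP.tl ρ e).2) (6 * ρ) N
        (↑w : Set Edg)) ≤ (a4 q ρ) ^ 2 * PQ q (boxE N) (fun w =>
      Ve (((2 * ρ : ℕ) : ℤ) * (NP.tl ρ e).1, ((2 * ρ : ℕ) : ℤ) * (NP.tl ρ e).2) (6 * ρ) N
        (↑w : Set Edg)) := by
  have hok := okQ h0 h1
  have hee : dst e e ≤ 4 * ρ := by rw [FPX.dst_self]; positivity
  have hn := FPX.a4_nonneg h0 h1 ρ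
  have hbe : blk (bp e) ρ ⊆ boxE N := (NP.ball_sub_tb hρ hee).trans ht
  have hbg : blk (bp g) ρ ⊆ boxE N := (NP.ball_sub_tb hρ hd4).trans ht
  have hge : dst g e = dst e g := FPX.dst_comm g e
  have step : PQ q (boxE N) (fun w => (L4 ρ e (↑w : Set Edg) ∧ L4 ρ g (↑w : Set Edg)) ∧
      Ve (((2 * ρ : ℕ) : ℤ) * (NP.tl ρ e).1, ((2 * ρ : ℕ) : ℤ) * (NP.tl ρ e).2) (6 * ρ) N
        (↑w : Set Edg)) = PQ q (boxE N) (fun w => L4 ρ e (↑w : Set Edg) ∧
      (L4 ρ g (↑w : Set Edg) ∧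
      Ve (((2 * ρ : ℕ) : ℤ) * (NP.tl ρ e).1, ((2 * ρ : ℕ) : ℤ) * (NP.tl ρ e).2) (6 * ρ) N
        (↑w : Set Edg))) := Pr_congr (fun F _ => and_assoc)
  rw [step]
  refine (NP.indep_L4 h0 h1 hbe ?_).trans ?_
  · intro F hF
    rw [← Ve_local (NP.ball_sub_tb hρ hee) F hF,
      L4_inter (a := g) (F := F) (T := boxE N \ blk (bp e) ρ) (fun x hx =>
        Finset.mem_sdiff.2 ⟨hbg hx, ball_disj (by linarith) x hx⟩)]
  · rw [sq, mul_assoc]
    apply mul_le_mul_of_nonneg_left _ hn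
    refine NP.indep_L4 h0 h1 hbg ?_
    intro F hF
    exact Ve_local (NP.ball_sub_tb hρ hd4) F hF

end Pool.Agent.TH992
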