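import Pool.Agent.TH992.K.Bet

/-!
Sum of the third differences, one edge far from the two others: assembly.
-/

set_option autoImplicit false

namespace Pool.Agent.TH992

open H974 H12S H973N Finset

/-- One class of pairs near the core. -/
theorem bet_class {q : ℝ} (h0 : 0 ≤ q) (h1 : q ≤ 1) {N ρ : ℕ} (hρ : 1 ≤ ρ) (G H : Finset Edg)
    (P : Edg → Edg → Prop) (hP : ∀ a b, P a b → dst a b ≤ 4 * ρ) (X : Edg → Edg → ℝ)
    {A : ℝ} (hA : 0 ≤ A)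
    (hb : ∀ e ∈ G, ∀ g ∈ H, P e g → X e g ≤ A * PQ q (boxE N) (fun w =>
      Ve (((2 * ρ : ℕ) : ℤ) * (NP.tl ρ e).1, ((2 * ρ : ℕ) : ℤ) * (NP.tl ρ e).2) (6 * ρ) N
        (↑w : Set Edg))) :
    ∑ e ∈ G, ∑ g ∈ H, ind (P e g) * X e g ≤
      162 * 18 * ((ρ:ℝ) ^ 4 * A * ∑ t ∈ G.image (NP.tl ρ), PQ q (boxE N) (fun w =>
      Ve (((2 * ρ : ℕ) : ℤ) * t.1, ((2 * ρ : ℕ) : ℤ) * t.2) (6 * ρ) N (↑w : Set Edg))) := by
  classical
  have hok := okQ h0 h1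
  set Y : ℤ × ℤ → ℝ := fun t => PQ q (boxE N) (fun w =>
      Ve (((2 * ρ : ℕ) : ℤ) * t.1, ((2 * ρ : ℕ) : ℤ) * t.2) (6 * ρ) N (↑w : Set Edg)) with hY
  have hY0 : ∀ t, 0 ≤ Y t := fun t => Pr_nonneg hok _ _
  have inner : ∀ a ∈ G, ∑ b ∈ H, ind (P a b) * X a b ≤
      162 * (ρ : ℝ) ^ 2 * (A * Y (NP.tl ρ a)) := by
    intro a ha
    have hAB : 0 ≤ A * Y (NP.tl ρ a) := mul_nonneg hA (hY0 _)
    calc ∑ b ∈ H, ind (P a b) * X a b
        ≤ ∑ b ∈ H, if dst a b ≤ 4 * ρ then A * Y (NP.tl ρ a) else 0 := by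
          refine Finset.sum_le_sum fun g hg => ?_
          by_cases hp : P a g
          · rw [ind_of hp, one_mul, if_pos (hP a g hp)]
            exact hb a ha g hg hp
          · rw [ind_not_of hp, zero_mul]
            split_ifs
            · exact hAB
            · exact le_rfl
      _ = (H.filter (fun g => dst a g ≤ 4 * ρ)).card * (A * Y (NP.tl ρ a)) := by
          rw [← Finset.sum_filter, Finset.sum_const, nsmul_eq_mul]
      _ ≤ 162 * (ρ : ℝ) ^ 2 * (A * Y (NP.tl ρ a)) :=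
          mul_le_mul_of_nonneg_right (NP.card_near a ρ hρ _) hAB
  set T : Finset (ℤ × ℤ) := G.image (NP.tl ρ) with hT
  have hfib : ∑ a ∈ G, 162 * (ρ : ℝ) ^ 2 * (A * Y (NP.tl ρ a)) ≤
      162 * (ρ : ℝ) ^ 2 * A * (18 * (ρ : ℝ) ^ 2 * ∑ t ∈ T, Y t) := by
    have h2 : ∑ a ∈ G, 162 * (ρ : ℝ) ^ 2 * (A * Y (NP.tl ρ a)) =
        162 * (ρ : ℝ) ^ 2 * A * ∑ a ∈ G, Y (NP.tl ρ a) := by
      rw [Finset.mul_sum]
      refine Finset.sum_congr rfl fun e _ => ?_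
      ring
    rw [h2]
    apply mul_le_mul_of_nonneg_left _ (by positivity)
    have h3 : ∑ a ∈ G, Y (NP.tl ρ a) =
        ∑ t ∈ T, ∑ a ∈ G.filter (fun a => NP.tl ρ a = t), Y (NP.tl ρ a) :=
      (Finset.sum_fiberwise_of_maps_to (fun e he => Finset.mem_image_of_mem _ he) _).symm
    rw [h3, Finset.mul_sum]
    refine Finset.sum_le_sum fun t _ => ?_
    have h4 : ∑ a ∈ G.filter (fun a => NP.tl ρ a = t), Y (NP.tl ρ a) =
        (G.filter (fun a => NP.tl ρ a = t)).card * Y t := by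
      rw [← nsmul_eq_mul, ← Finset.sum_const]
      refine Finset.sum_congr rfl fun e he => ?_
      rw [(Finset.mem_filter.mp he).2]
    rw [h4]
    exact mul_le_mul_of_nonneg_right (NP.card_tile ρ hρ G t) (hY0 t)
  calc ∑ a ∈ G, ∑ b ∈ H, ind (P a b) * X a b
      ≤ ∑ a ∈ G, 162 * (ρ : ℝ) ^ 2 * (A * Y (NP.tl ρ a)) := Finset.sum_le_sum inner
    _ ≤ 162 * (ρ : ℝ) ^ 2 * A * (18 * (ρ : ℝ) ^ 2 * ∑ t ∈ T, Y t) := hfib
    _ = _ := by ring

/-- The sum over the triples with one far edge. -/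
theorem bet_sum (κ : ℝ) (hκ : 0 < κ) : ∃ C : ℝ, 0 < C ∧ ∀ (q : ℝ) (n : ℕ), Win q κ n →
    ∀ K : ℕ, 2 ^ (K + 6) ≤ n → ∀ H : Finset Edg,
    ∑ e ∈ cor (2^K), ∑ g ∈ H, ind (e ≠ g ∧ dst e g ≤ 4 * 2 ^ K) *
      ∑ f ∈ boxE (2^(K+11)) \ boxE (3 * 2^(K+5)), PQ q (boxE (2^(K+11))) (SD (Ae e) g f) ≤
      C * (W1s q K * W2s q K) := by
  classical
  obtain ⟨C1, hC1, hout⟩ := outer_sum κ hκ
  obtain ⟨C2, hC2, hVe⟩ := Ve_sum κ hκ
  refine ⟨(2 * (C1 * 4096)) * (162 * 18 * (C2 * 5)) * 2, by positivity, ?_⟩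
  intro q n hW K hn H
  have h0 : 0 ≤ q := by linarith [hW.lo]
  have h1 : q ≤ 1 := by linarith [hW.hi]
  have hok := okQ h0 h1
  have hw0 := FPX.W1s_nonneg h0 h1 K
  have hpK : (1:ℤ) ≤ 2 ^ K := by exact_mod_cast (Nat.one_le_two_pow : 1 ≤ 2 ^ K)
  have hpK' : 1 ≤ 2 ^ K := Nat.one_le_two_pow
  have hp5 : (2:ℤ) ^ (K + 5) = 32 * 2 ^ K := by rw [pow_add]; ring
  have hp5' : 2 ^ (K + 5) = 32 * 2 ^ K := by rw [pow_add]; ring
  have hp6' : 2 ^ (K + 6) = 64 * 2 ^ K := by rw [pow_add]; ring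
  have hp11' : 2 ^ (K + 11) = 2048 * 2 ^ K := by rw [pow_add]; ring
  set N : ℕ := 3 * 2 ^ (K + 5) with hN
  set R : ℕ := 2 ^ (K + 11) with hR
  set W : ℝ := 2 * (C1 * 4096 * W1s q K) with hWd
  have hWd0 : 0 ≤ W := by positivity
  set X : Edg → Edg → ℝ := fun e g =>
    ∑ f ∈ boxE R \ boxE N, PQ q (boxE R) (SD (Ae e) g f) with hX
  have hX0 : ∀ e g, 0 ≤ X e g := fun e g => Finset.sum_nonneg fun f _ => Pr_nonneg hok _ _
  -- tile blocks of the core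
  have htile : ∀ k ≤ K, ∀ e ∈ cor (2^K), NP.tb (2^k) (NP.tl (2^k) e) ⊆ boxE N ∧
      (2 * ((2^k : ℕ):ℤ) * |(NP.tl (2^k) e).1| + 18 * (2^k : ℕ) ≤ (2^(K+5) : ℕ) ∧
       2 * ((2^k : ℕ):ℤ) * |(NP.tl (2^k) e).2| + 18 * (2^k : ℕ) ≤ (2^(K+5) : ℕ)) := by
    intro k hk e he
    have hkK : (2:ℤ) ^ k ≤ 2 ^ K := pow_le_pow_right₀ (by norm_num) hk
    have hk0 : (0:ℤ) < 2 ^ k := by positivity
    obtain ⟨⟨k1, k2⟩, k3, k4⟩ := tl_spec (ρ := 2^k) Nat.one_le_two_pow e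
    rw [mem_cor, abs_le, abs_le] at he
    obtain ⟨⟨m1, m2⟩, m3, m4⟩ := he
    push_cast at k1 k2 k3 k4 m1 m2 m3 m4 ⊢
    rw [hp5]
    have a1 : 2 * (2:ℤ)^k * |(NP.tl (2^k) e).1| = |2 * (2:ℤ)^k * (NP.tl (2^k) e).1| := by
      rw [abs_mul, abs_of_pos (by positivity : (0:ℤ) < 2 * 2 ^ k)]
    have a2 : 2 * (2:ℤ)^k * |(NP.tl (2^k) e).2| = |2 * (2:ℤ)^k * (NP.tl (2^k) e).2| := by
      rw [abs_mul, abs_of_pos (by positivity : (0:ℤ) < 2 * 2 ^ k)]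
    have b1 : |2 * (2:ℤ)^k * (NP.tl (2^k) e).1| ≤ 2 * 2 ^ K := by
      rw [abs_le]; constructor <;> linarith
    have b2 : |2 * (2:ℤ)^k * (NP.tl (2^k) e).2| ≤ 2 * 2 ^ K := by
      rw [abs_le]; constructor <;> linarith
    refine ⟨?_, ?_, ?_⟩
    · unfold NP.tb blk boxE
      rw [hN]
      push_cast
      rw [hp5]
      apply RE_subset <;> linarith
    · rw [a1]; linarith
    · rw [a2]; linarith
  -- the block sums
  have hVsum : ∀ k ≤ K, ∑ t ∈ (cor (2^K)).image (NP.tl (2^k)), PQ q (boxE N) (fun w =>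
      Ve (((2 * 2^k : ℕ) : ℤ) * t.1, ((2 * 2^k : ℕ) : ℤ) * t.2) (6 * 2^k) N (↑w : Set Edg)) ≤
      C2 * (5 * 2 ^ (K - k)) := by
    intro k hk
    have hkK : 2 ^ k ≤ 2 ^ K := Nat.pow_le_pow_right (by norm_num) hk
    refine (hVe q n hW (2^(K+5)) (2^k) Nat.one_le_two_pow Nat.one_le_two_pow (by omega) (by omega)
      _ ?_).trans ?_
    · intro t ht
      rw [Finset.mem_image] at ht
      obtain ⟨e, he, rfl⟩ := ht
      exact (htile k hk e he).2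
    · apply mul_le_mul_of_nonneg_left _ hC2.le
      apply card_tl (c := ((0, 0, true) : Edg)) hk
      intro a ha
      rw [mem_cor] at ha
      push_cast at ha
      unfold dst
      simp only [zero_sub, abs_neg]
      apply max_le <;> linarith [ha.1, ha.2]
  -- one pair
  have hpair : ∀ e ∈ cor (2^K), ∀ g, ∀ k ≤ K, e ≠ g → 2 * 2 ^ k < dst e g → dst e g ≤ 4 * 2 ^ k →
      X e g ≤ (a4 q (2^k)) ^ 2 * W * PQ q (boxE N) (fun w =>
      Ve (((2 * 2^k : ℕ) : ℤ) * (NP.tl (2^k) e).1, ((2 * 2^k : ℕ) : ℤ) * (NP.tl (2^k) e).2)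
        (6 * 2^k) N (↑w : Set Edg)) := by
    intro e he g k hk hne hd1 hd2
    have hρ : 1 ≤ 2 ^ k := Nat.one_le_two_pow
    have htb := (htile k hk e he).1
    have hee : dst e e ≤ 4 * ((2 ^ k : ℕ) : ℤ) := by rw [FPX.dst_self]; positivity
    have hd2' : dst e g ≤ 4 * ((2 ^ k : ℕ) : ℤ) := by push_cast; exact hd2
    have hd1' : 2 * ((2 ^ k : ℕ) : ℤ) < dst e g := by push_cast; exact hd1
    have heb := NP.mem_tb hρ hee
    have hgb := NP.mem_tb hρ hd2'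
    have hbe : blk (bp e) (2^k) ⊆ boxE N := (NP.ball_sub_tb hρ hee).trans htb
    have hbg : blk (bp g) (2^k) ⊆ boxE N := (NP.ball_sub_tb hρ hd2').trans htb
    have hk0 : (0:ℤ) < ((2 ^ k : ℕ) : ℤ) := by positivity
    have hfe := far_edge hout hW (K := K) (Λ := 4096) (R := R) (N := N) (by norm_num) (by omega)
      (by omega) (by omega) (e := e) (g := g) heb hgb htb
      (fun w => L4 (2^k) e (↑w : Set Edg) ∧ L4 (2^k) g (↑w : Set Edg)) ?_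
    · refine hfe.trans ?_
      have h2 := two_L4_Ve (N := N) h0 h1 hρ hd1' hd2' htb
      calc _ ≤ ((a4 q (2^k)) ^ 2 * PQ q (boxE N) (fun w =>
            Ve (((2 * 2^k : ℕ) : ℤ) * (NP.tl (2^k) e).1, ((2 * 2^k : ℕ) : ℤ) * (NP.tl (2^k) e).2)
            (6 * 2^k) N (↑w : Set Edg))) * (2 * (C1 * (4096 : ℕ) * W1s q K)) :=
            mul_le_mul_of_nonneg_right h2 (by positivity)
        _ = _ := by rw [hWd]; push_cast; ring
    · intro f hf w hw F hF hSD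
      have hfe' : f ∉ blk (bp e) (2^k) := fun h' => hf (hbe h')
      have hfg' : f ∉ blk (bp g) (2^k) := fun h' => hf (hbg h')
      have hef : e ≠ f := fun h' => hf (h' ▸ htb heb)
      have hgf : g ≠ f := fun h' => hf (h' ▸ htb hgb)
      have hge' : g ∉ blk (bp e) (2^k) := notMem_ball (by linarith)
      have heg' : e ∉ blk (bp g) (2^k) := notMem_ball (by rw [FPX.dst_comm]; linarith)
      have l1 := SD_L4 hρ hge' hfe' hSD
      have l2 := SD_L4 hρ heg' hfg' ((SD_swap hne hef hgf).1 hSD)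
      constructor
      · refine (NP.L4_congr' ?_).1 l1
        intro x hx _
        rw [Finset.mem_union]
        exact ⟨fun h' => h'.resolve_right fun h'' => hF x h'' (hbe hx), fun h' => Or.inl h'⟩
      · refine (NP.L4_congr' ?_).1 l2
        intro x hx _
        rw [Finset.mem_union]
        exact ⟨fun h' => h'.resolve_right fun h'' => hF x h'' (hbg hx), fun h' => Or.inl h'⟩
  have hpair1 : ∀ e ∈ cor (2^K), ∀ g, dst e g ≤ 2 →
      X e g ≤ W * PQ q (boxE N) (fun w =>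
      Ve (((2 * 1 : ℕ) : ℤ) * (NP.tl 1 e).1, ((2 * 1 : ℕ) : ℤ) * (NP.tl 1 e).2)
        (6 * 1) N (↑w : Set Edg)) := by
    intro e he g hd
    have htb := (htile 0 (Nat.zero_le _) e he).1
    rw [pow_zero] at htb
    have hee : dst e e ≤ 4 * ((1 : ℕ) : ℤ) := by rw [FPX.dst_self]; norm_num
    have hd2' : dst e g ≤ 4 * ((1 : ℕ) : ℤ) := by push_cast; linarith
    have heb := NP.mem_tb le_rfl hee
    have hgb := NP.mem_tb le_rfl hd2'
    have hfe := far_edge hout hW (K := K) (Λ := 4096) (R := R) (N := N) (by norm_num) (by omega)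
      (by omega) (by omega) (e := e) (g := g) heb hgb htb (fun _ => True)
      (fun _ _ _ _ _ _ _ => trivial)
    refine hfe.trans (le_of_eq ?_)
    have e1 : PQ q (boxE N) (fun w => True ∧ Ve (((2 * 1 : ℕ) : ℤ) * (NP.tl 1 e).1,
        ((2 * 1 : ℕ) : ℤ) * (NP.tl 1 e).2) (6 * 1) N (↑w : Set Edg)) =
        PQ q (boxE N) (fun w => Ve (((2 * 1 : ℕ) : ℤ) * (NP.tl 1 e).1,
        ((2 * 1 : ℕ) : ℤ) * (NP.tl 1 e).2) (6 * 1) N (↑w : Set Edg)) :=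
      Pr_congr (fun F _ => ⟨fun h => h.2, fun h => ⟨trivial, h⟩⟩)
    rw [e1, hWd]
    push_cast
    ring
  -- classes
  have hc0 : ∑ e ∈ cor (2^K), ∑ g ∈ H, ind (e ≠ g ∧ dst e g ≤ 2) * X e g ≤
      162 * 18 * (W * (C2 * (5 * 2 ^ K))) := by
    have := bet_class h0 h1 (N := N) (ρ := 1) le_rfl (cor (2^K)) H
      (fun e g => e ≠ g ∧ dst e g ≤ 2) (fun a b h => by push_cast; linarith [h.2]) X
      (A := W) hWd0 (fun e he g _ hp => hpair1 e he g hp.2)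
    refine this.trans ?_
    have h3 := hVsum 0 (Nat.zero_le _)
    rw [pow_zero, Nat.sub_zero] at h3
    have h4 : ((1:ℕ):ℝ) ^ 4 * W * ∑ t ∈ (cor (2^K)).image (NP.tl 1), PQ q (boxE N) (fun w =>
        Ve (((2 * 1 : ℕ) : ℤ) * t.1, ((2 * 1 : ℕ) : ℤ) * t.2) (6 * 1) N (↑w : Set Edg)) ≤
        W * (C2 * (5 * 2 ^ K)) := by
      rw [Nat.cast_one, one_pow, one_mul]
      exact mul_le_mul_of_nonneg_left h3 hWd0
    exact mul_le_mul_of_nonneg_left h4 (by norm_num)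
  have hck : ∀ k ∈ Finset.range (K + 1), ∑ e ∈ cor (2^K), ∑ g ∈ H,
      ind (e ≠ g ∧ 2 * 2 ^ k < dst e g ∧ dst e g ≤ 4 * 2 ^ k) * X e g ≤
      162 * 18 * (W * (C2 * (5 * ((16:ℝ) ^ k * (a4 q (2^k)) ^ 2 * 2 ^ (K - k))))) := by
    intro k hk
    have hkK : k ≤ K := by rw [Finset.mem_range] at hk; omega
    have := bet_class h0 h1 (N := N) (ρ := 2^k) Nat.one_le_two_pow (cor (2^K)) H
      (fun e g => e ≠ g ∧ 2 * 2 ^ k < dst e g ∧ dst e g ≤ 4 * 2 ^ k)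
      (fun a b h => by push_cast; exact h.2.2) X
      (A := (a4 q (2^k)) ^ 2 * W) (by positivity)
      (fun e he g _ hp => hpair e he g k hkK hp.1 hp.2.1 hp.2.2)
    refine this.trans ?_
    have h3 := hVsum k hkK
    have h16 : (16:ℝ) ^ k = ((2:ℝ) ^ k) ^ 4 := by
      rw [← pow_mul, mul_comm, pow_mul]; norm_num
    have h4 : ((2^k:ℕ):ℝ) ^ 4 * ((a4 q (2^k)) ^ 2 * W) *
        ∑ t ∈ (cor (2^K)).image (NP.tl (2^k)), PQ q (boxE N) (fun w =>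
        Ve (((2 * 2^k : ℕ) : ℤ) * t.1, ((2 * 2^k : ℕ) : ℤ) * t.2) (6 * 2^k) N (↑w : Set Edg)) ≤
        W * (C2 * (5 * ((16:ℝ) ^ k * (a4 q (2^k)) ^ 2 * 2 ^ (K - k)))) := by
      calc _ ≤ ((2^k:ℕ):ℝ) ^ 4 * ((a4 q (2^k)) ^ 2 * W) * (C2 * (5 * 2 ^ (K - k))) :=
            mul_le_mul_of_nonneg_left h3 (by positivity)
        _ = _ := by rw [h16]; push_cast; ring
    exact mul_le_mul_of_nonneg_left h4 (by norm_num)
  -- splitting
  have hsplit : ∀ e g : Edg, ind (e ≠ g ∧ dst e g ≤ 4 * 2 ^ K) * X e g ≤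
      ind (e ≠ g ∧ dst e g ≤ 2) * X e g + ∑ k ∈ Finset.range (K + 1),
        ind (e ≠ g ∧ 2 * 2 ^ k < dst e g ∧ dst e g ≤ 4 * 2 ^ k) * X e g := by
    intro e g
    have m0 : 0 ≤ ind (e ≠ g ∧ dst e g ≤ 2) * X e g := mul_nonneg (ind_nonneg _) (hX0 e g)
    have mk : ∀ k, 0 ≤ ind (e ≠ g ∧ 2 * 2 ^ k < dst e g ∧ dst e g ≤ 4 * 2 ^ k) * X e g :=
      fun k => mul_nonneg (ind_nonneg _) (hX0 e g)
    have ms : 0 ≤ ∑ k ∈ Finset.range (K + 1),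
        ind (e ≠ g ∧ 2 * 2 ^ k < dst e g ∧ dst e g ≤ 4 * 2 ^ k) * X e g :=
      Finset.sum_nonneg fun k _ => mk k
    by_cases hc : e ≠ g ∧ dst e g ≤ 4 * 2 ^ K
    · rw [ind_of hc, one_mul]
      rcases dyad_class hc.2 with h2 | ⟨k, hk, h2⟩
      · rw [ind_of ⟨hc.1, h2⟩, one_mul]
        linarith
      · have := Finset.single_le_sum (f := fun k =>
          ind (e ≠ g ∧ 2 * 2 ^ k < dst e g ∧ dst e g ≤ 4 * 2 ^ k) * X e g) (fun k _ => mk k) hk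
        rw [ind_of (P := e ≠ g ∧ 2 * 2 ^ k < dst e g ∧ dst e g ≤ 4 * 2 ^ k) ⟨hc.1, h2⟩,
          one_mul] at this
        linarith
    · rw [ind_not_of hc, zero_mul]
      linarith
  calc ∑ e ∈ cor (2^K), ∑ g ∈ H, ind (e ≠ g ∧ dst e g ≤ 4 * 2 ^ K) * X e g
      ≤ ∑ e ∈ cor (2^K), ∑ g ∈ H, (ind (e ≠ g ∧ dst e g ≤ 2) * X e g +
        ∑ k ∈ Finset.range (K + 1),
          ind (e ≠ g ∧ 2 * 2 ^ k < dst e g ∧ dst e g ≤ 4 * 2 ^ k) * X e g) :=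
        Finset.sum_le_sum fun e _ => Finset.sum_le_sum fun g _ => hsplit e g
    _ = ∑ e ∈ cor (2^K), ∑ g ∈ H, ind (e ≠ g ∧ dst e g ≤ 2) * X e g +
        ∑ k ∈ Finset.range (K + 1), ∑ e ∈ cor (2^K), ∑ g ∈ H,
          ind (e ≠ g ∧ 2 * 2 ^ k < dst e g ∧ dst e g ≤ 4 * 2 ^ k) * X e g := by
        simp only [Finset.sum_add_distrib]
        congr 1
        have e1 : ∀ e, ∑ g ∈ H, ∑ k ∈ Finset.range (K + 1),
            ind (e ≠ g ∧ 2 * 2 ^ k < dst e g ∧ dst e g ≤ 4 * 2 ^ k) * X e g =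
            ∑ k ∈ Finset.range (K + 1), ∑ g ∈ H,
            ind (e ≠ g ∧ 2 * 2 ^ k < dst e g ∧ dst e g ≤ 4 * 2 ^ k) * X e g := fun e =>
          Finset.sum_comm
        rw [Finset.sum_congr rfl (fun e _ => e1 e), Finset.sum_comm]
    _ ≤ 162 * 18 * (W * (C2 * (5 * 2 ^ K))) + ∑ k ∈ Finset.range (K + 1),
        162 * 18 * (W * (C2 * (5 * ((16:ℝ) ^ k * (a4 q (2^k)) ^ 2 * 2 ^ (K - k))))) :=
        add_le_add hc0 (Finset.sum_le_sum hck)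
    _ = 162 * 18 * (W * (C2 * (5 * W2s q K))) := by
        unfold W2s
        rw [← Finset.mul_sum, ← Finset.mul_sum, ← Finset.mul_sum, ← Finset.mul_sum]
        ring
    _ ≤ (2 * (C1 * 4096)) * (162 * 18 * (C2 * 5)) * 2 * (W1s q K * W2s q K) := by
        rw [hWd]
        have hw2 := W2s_nonneg (q := q) K
        have hp : 0 ≤ (2 * (C1 * 4096)) * (162 * 18 * (C2 * 5)) * (W1s q K * W2s q K) := by
          positivity
        nlinarith [hp]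

end Pool.Agent.TH992
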