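import Pool.Agent.TH992.K.Gam
import Pool.Agent.H974R2.BK

/-!
The number of the clusters which cross an annulus.
-/

set_option autoImplicit false

namespace Pool.Agent.TH992

open H974 H12S H973N Finset

/-- `k` disjoint occurrences of `A`. -/
def Dk (A : Finset Edg → Prop) : ℕ → Finset Edg → Prop
  | 0 => fun _ => True
  | (k+1) => DisjOcc (Dk A k) A

theorem Dk_mono (A : Finset Edg → Prop) (k : ℕ) {F G : Finset Edg} (h : F ⊆ G)
    (hF : Dk A k F) : Dk A k G := by
  cases k with
  | zero => trivial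
  | succ k =>
    obtain ⟨K, L, h1, h2, h3, h4, h5⟩ := hF
    exact ⟨K, L, h1.trans h, h2.trans h, h3, h4, h5⟩

theorem Dk_pr {p : Edg → ℝ} (hp : Ok p) {S : Finset Edg} {A : Finset Edg → Prop}
    (hA : IncrE S A) (k : ℕ) : Pr p S (Dk A k) ≤ (Pr p S A) ^ k := by
  induction k with
  | zero =>
    rw [pow_zero]
    exact Pr_le_one hp _ _
  | succ k ih =>
    have h1 : Pr p S (Dk A (k + 1)) ≤ Pr p S (Dk A k) * Pr p S A :=
      bk hp (fun F G h1 _ => Dk_mono A k h1) hA
    rw [pow_succ]
    exact h1.trans (mul_le_mul_of_nonneg_right ih (Pr_nonneg hp _ _))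

/-- Edges of the cluster of `r`. -/
noncomputable def clE (w : Finset Edg) (r : Vtx) : Finset Edg := by
  classical exact w.filter (fun e => Reach (↑w : Set Edg) r (src e))

theorem mem_clE {w : Finset Edg} {r : Vtx} {e : Edg} :
    e ∈ clE w r ↔ e ∈ w ∧ Reach (↑w : Set Edg) r (src e) := by
  unfold clE
  classical exact Finset.mem_filter

theorem reach_clE {w : Finset Edg} {r y : Vtx} (h : Reach (↑w : Set Edg) r y) :
    Reach (↑(clE w r) : Set Edg) r y := by
  induction h with
  | refl => exact Reach.refl _ _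
  | @tail y z hy hs ih =>
    obtain ⟨e, he, hc⟩ := hs
    refine ih.trans (Adj.reach ⟨e, ?_, hc⟩)
    rw [Finset.mem_coe, mem_clE]
    refine ⟨he, ?_⟩
    rcases hc with ⟨k1, k2⟩ | ⟨k1, k2⟩
    · rw [k1]; exact hy
    · rw [k1]; exact Reach.trans hy (Adj.reach ⟨e, he, Or.inr ⟨k1, k2⟩⟩)

/-- Distinct clusters which satisfy `A` give disjoint occurrences. -/
theorem Dk_of {A : Finset Edg → Prop} {w : Finset Edg} (R : Finset Vtx)
    (hR : ∀ r ∈ R, A (clE w r)) (hd : ∀ r ∈ R, ∀ r' ∈ R, r ≠ r' → ¬ Reach (↑w : Set Edg) r r') :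
    Dk A R.card w := by
  classical
  have key : ∀ R' : Finset Vtx, R' ⊆ R → Dk A R'.card (R'.biUnion (clE w)) := by
    intro R'
    induction R' using Finset.induction_on with
    | empty => intro _; simp [Dk]
    | insert r R' hr ih =>
      intro hsub
      rw [Finset.card_insert_of_notMem hr]
      refine ⟨R'.biUnion (clE w), clE w r, ?_, ?_, ?_, ih ((Finset.subset_insert _ _).trans hsub),
        hR r (hsub (Finset.mem_insert_self _ _))⟩
      · rw [Finset.biUnion_insert]
        exact Finset.subset_union_right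
      · rw [Finset.biUnion_insert]
        exact Finset.subset_union_left
      · rw [Finset.disjoint_left]
        intro e he he'
        rw [Finset.mem_biUnion] at he
        obtain ⟨r', hr', he⟩ := he
        rw [mem_clE] at he he'
        have hne : r' ≠ r := fun h => hr (h ▸ hr')
        exact hd r' (hsub (Finset.mem_insert_of_mem hr')) r (hsub (Finset.mem_insert_self _ _)) hne
          (he.2.trans he'.2.symm)
  refine Dk_mono A _ ?_ (key R (Finset.Subset.refl _))
  intro e he
  rw [Finset.mem_biUnion] at he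
  obtain ⟨r, _, he⟩ := he
  exact (mem_clE.1 he).1

/-- A maximal set of pairwise disconnected elements. -/
theorem exists_rep (w : Set Edg) (V : Finset Vtx) (X : Vtx → Prop) :
    ∃ R : Finset Vtx, R ⊆ V ∧ (∀ r ∈ R, X r) ∧
      (∀ r ∈ R, ∀ r' ∈ R, r ≠ r' → ¬ Reach w r r') ∧
      (∀ x ∈ V, X x → ∃ r ∈ R, Reach w x r) := by
  classical
  set P : Finset Vtx → Prop := fun R => (∀ r ∈ R, X r) ∧
    (∀ r ∈ R, ∀ r' ∈ R, r ≠ r' → ¬ Reach w r r') with hP
  have hne : (V.powerset.filter P).Nonempty := by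
    refine ⟨∅, ?_⟩
    rw [Finset.mem_filter, Finset.mem_powerset]
    exact ⟨Finset.empty_subset _, by simp, by simp⟩
  obtain ⟨R, hR, hmax⟩ := Finset.exists_max_image _ Finset.card hne
  rw [Finset.mem_filter, Finset.mem_powerset] at hR
  obtain ⟨hRV, hR1, hR2⟩ := hR
  refine ⟨R, hRV, hR1, hR2, ?_⟩
  intro x hx hXx
  by_contra hcon
  push Not at hcon
  have hxR : x ∉ R := fun h => hcon x h (Reach.refl _ _)
  have hmem : insert x R ∈ V.powerset.filter P := by
    rw [Finset.mem_filter, Finset.mem_powerset]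
    refine ⟨Finset.insert_subset hx hRV, ?_, ?_⟩
    · intro r hr
      rw [Finset.mem_insert] at hr
      rcases hr with rfl | hr
      · exact hXx
      · exact hR1 r hr
    · intro r hr r' hr' hne
      rw [Finset.mem_insert] at hr hr'
      rcases hr with rfl | hr
      · rcases hr' with rfl | hr'
        · exact absurd rfl hne
        · exact hcon r' hr'
      · rcases hr' with rfl | hr'
        · exact fun h => hcon r hr h.symm
        · exact hR2 r hr r' hr' hne
  have := hmax _ hmem
  rw [Finset.card_insert_of_notMem hxR] at this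
  omega

/-- Second moment from a geometric tail. -/
theorem sq_moment {lam : ℝ} (h0 : 0 ≤ lam) (h1 : lam < 1) : ∃ C : ℝ, 0 < C ∧
    ∀ (p : Edg → ℝ), Ok p → ∀ (S : Finset Edg) (N : Finset Edg → ℕ),
    (∀ k : ℕ, Pr p S (fun F => k ≤ N F) ≤ lam ^ k) →
    Ex p S (fun F => ((N F : ℕ) : ℝ) ^ 2) ≤ C := by
  have hsum : Summable (fun k : ℕ => (2 * (k:ℝ) + 1) * lam ^ (k + 1)) := by
    have s1 : Summable (fun k : ℕ => (k:ℝ) ^ 1 * lam ^ k) :=
      summable_pow_mul_geometric_of_norm_lt_one 1 (by rw [Real.norm_of_nonneg h0]; exact h1)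
    have s2 : Summable (fun k : ℕ => lam ^ k) := summable_geometric_of_lt_one h0 h1
    have s3 := (s1.mul_left (2 * lam)).add (s2.mul_left lam)
    refine s3.congr ?_
    intro k
    rw [pow_succ]
    ring
  refine ⟨(∑' k : ℕ, (2 * (k:ℝ) + 1) * lam ^ (k + 1)) + 1, ?_, ?_⟩
  · have : 0 ≤ ∑' k : ℕ, (2 * (k:ℝ) + 1) * lam ^ (k + 1) := tsum_nonneg (fun k => by positivity)
    linarith
  · intro p hp S N hN
    -- a bound for `N`
    obtain ⟨M, hM⟩ : ∃ M : ℕ, ∀ F, F ⊆ S → N F ≤ M := by
      refine ⟨S.powerset.sup N, fun F hF => Finset.le_sup (f := N) (Finset.mem_powerset.2 hF)⟩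
    have hsq : ∀ F, F ⊆ S → ((N F : ℕ) : ℝ) ^ 2 =
        ∑ k ∈ Finset.range M, (2 * (k:ℝ) + 1) * ind (k + 1 ≤ N F) := by
      intro F hF
      have h2 : ∀ m : ℕ, ((m:ℕ):ℝ) ^ 2 = ∑ k ∈ Finset.range m, (2 * (k:ℝ) + 1) := by
        intro m
        induction m with
        | zero => simp
        | succ m ih => rw [Finset.sum_range_succ, ← ih]; push_cast; ring
      rw [h2]
      have h3 : Finset.range (N F) = (Finset.range M).filter (fun k => k + 1 ≤ N F) := by
        ext k
        rw [Finset.mem_filter, Finset.mem_range, Finset.mem_range]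
        have := hM F hF
        omega
      rw [h3, Finset.sum_filter]
      apply Finset.sum_congr rfl
      intro k _
      by_cases h : k + 1 ≤ N F
      · rw [if_pos h, ind_of h, mul_one]
      · rw [if_neg h, ind_not_of h, mul_zero]
    calc Ex p S (fun F => ((N F : ℕ) : ℝ) ^ 2)
        = ∑ k ∈ Finset.range M, (2 * (k:ℝ) + 1) * Pr p S (fun F => k + 1 ≤ N F) := by
          rw [Ex_congr hsq, Ex_sum]
          apply Finset.sum_congr rfl
          intro k _
          rw [Ex_mul_left]
          rfl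
      _ ≤ ∑ k ∈ Finset.range M, (2 * (k:ℝ) + 1) * lam ^ (k + 1) := by
          apply Finset.sum_le_sum
          intro k _
          exact mul_le_mul_of_nonneg_left (hN (k + 1)) (by positivity)
      _ ≤ ∑' k : ℕ, (2 * (k:ℝ) + 1) * lam ^ (k + 1) :=
          hsum.sum_le_tsum _ (fun k _ => by positivity)
      _ ≤ _ := by linarith

end Pool.Agent.TH992
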