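import Pool.Agent.TH992.K.Scl

/-!
The number of clusters of a finite configuration.
-/

set_option autoImplicit false

namespace Pool.Agent.TH992

open H974 H12S H973N Finset

/-- The cluster of a vertex. -/
def cl (F : Set Edg) (v : Vtx) : Set Vtx := {w | Reach F v w}

/-- The number of clusters which meet `V`. -/
noncomputable def ncl (V : Finset Vtx) (F : Set Edg) : ℕ :=
  {A : Set Vtx | ∃ v ∈ V, A = {w | Reach F v w}}.ncard

theorem mem_cl {F : Set Edg} {v w : Vtx} : w ∈ cl F v ↔ Reach F v w := Iff.rfl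

theorem cl_self (F : Set Edg) (v : Vtx) : v ∈ cl F v := Reach.refl _ _

theorem cl_eq_of {F : Set Edg} {v w : Vtx} (h : Reach F v w) : cl F v = cl F w := by
  ext x
  rw [mem_cl, mem_cl]
  exact ⟨fun k => h.symm.trans k, fun k => h.trans k⟩

theorem cl_eq_iff {F : Set Edg} {v w : Vtx} : cl F v = cl F w ↔ Reach F v w := by
  constructor
  · intro h
    have := cl_self F w
    rw [← h] at this
    exact this
  · exact cl_eq_of

open Classical in
theorem ncl_eq (V : Finset Vtx) (F : Set Edg) : ncl V F = (V.image (cl F)).card := by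
  unfold ncl
  rw [← Set.ncard_coe_finset]
  congr 1
  ext A
  simp only [Finset.coe_image, Set.mem_image, Finset.mem_coe, Set.mem_ofPred_eq]
  constructor
  · rintro ⟨v, hv, h⟩
    exact ⟨v, hv, h.symm⟩
  · rintro ⟨v, hv, h⟩
    exact ⟨v, hv, h.symm⟩

/-- Adding an edge between connected vertices. -/
theorem cl_insert_of {F : Set Edg} {e : Edg} (h : Reach F (src e) (tgt e)) (v : Vtx) :
    cl (insert e F) v = cl F v := by
  ext w
  rw [mem_cl, mem_cl, reach_insert]
  constructor
  · rintro (k | ⟨k1, k2⟩ | ⟨k1, k2⟩)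
    · exact k
    · exact (k1.trans h).trans k2
    · exact (k1.trans h.symm).trans k2
  · exact Or.inl

theorem ncl_insert_of (V : Finset Vtx) {F : Set Edg} {e : Edg} (h : Reach F (src e) (tgt e)) :
    ncl V (insert e F) = ncl V F := by
  rw [ncl_eq, ncl_eq]
  congr 1
  exact Finset.image_congr fun v _ => cl_insert_of h v

theorem cl_insert_far {F : Set Edg} {e : Edg} {v : Vtx} (h1 : ¬ Reach F v (src e))
    (h2 : ¬ Reach F v (tgt e)) : cl (insert e F) v = cl F v := by
  ext w
  rw [mem_cl, mem_cl, reach_insert]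
  constructor
  · rintro (k | ⟨k1, k2⟩ | ⟨k1, k2⟩)
    · exact k
    · exact absurd k1 h1
    · exact absurd k1 h2
  · exact Or.inl

theorem cl_insert_near {F : Set Edg} {e : Edg} {v : Vtx}
    (h : Reach F v (src e) ∨ Reach F v (tgt e)) :
    cl (insert e F) v = cl F (src e) ∪ cl F (tgt e) := by
  ext w
  rw [mem_cl, Set.mem_union, mem_cl, mem_cl, reach_insert]
  constructor
  · rintro (k | ⟨k1, k2⟩ | ⟨k1, k2⟩)
    · rcases h with h | h
      · exact Or.inl (h.symm.trans k)
      · exact Or.inr (h.symm.trans k)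
    · exact Or.inr k2
    · exact Or.inl k2
  · rintro (k | k)
    · rcases h with h | h
      · exact Or.inl (h.trans k)
      · exact Or.inr (Or.inr ⟨h, k⟩)
    · rcases h with h | h
      · exact Or.inr (Or.inl ⟨h, k⟩)
      · exact Or.inl (h.trans k)

/-- Adding an edge between two clusters. -/
theorem ncl_insert_not {V : Finset Vtx} {F : Set Edg} {e : Edg} (hs : src e ∈ V) (ht : tgt e ∈ V)
    (h : ¬ Reach F (src e) (tgt e)) : ncl V (insert e F) + 1 = ncl V F := by
  classical
  rw [ncl_eq, ncl_eq]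
  set I := V.image (cl F) with hI
  set U := cl F (src e) ∪ cl F (tgt e) with hU
  have hsI : cl F (src e) ∈ I := Finset.mem_image_of_mem _ hs
  have htI : cl F (tgt e) ∈ I := Finset.mem_image_of_mem _ ht
  have hne : cl F (src e) ≠ cl F (tgt e) := fun h' => h (cl_eq_iff.1 h')
  have e1 : V.image (cl (insert e F)) = insert U ((I.erase (cl F (src e))).erase (cl F (tgt e))) := by
    ext A
    rw [Finset.mem_image, Finset.mem_insert, Finset.mem_erase, Finset.mem_erase, hI,
      Finset.mem_image]
    constructor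
    · rintro ⟨v, hv, rfl⟩
      by_cases hn : Reach F v (src e) ∨ Reach F v (tgt e)
      · exact Or.inl (cl_insert_near hn)
      · push Not at hn
        right
        rw [cl_insert_far hn.1 hn.2]
        refine ⟨fun h' => hn.2 (cl_eq_iff.1 h'), fun h' => hn.1 (cl_eq_iff.1 h'), v, hv, rfl⟩
    · rintro (rfl | ⟨h1, h2, v, hv, rfl⟩)
      · exact ⟨src e, hs, cl_insert_near (Or.inl (Reach.refl _ _))⟩
      · exact ⟨v, hv, cl_insert_far (fun h' => h2 (cl_eq_of h')) (fun h' => h1 (cl_eq_of h'))⟩
  have hUn : U ∉ (I.erase (cl F (src e))).erase (cl F (tgt e)) := by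
    rw [Finset.mem_erase, Finset.mem_erase, hI, Finset.mem_image]
    rintro ⟨_, h2, v, _, h3⟩
    apply h2
    have : src e ∈ cl F v := by
      rw [h3, hU]
      exact Or.inl (cl_self _ _)
    rw [← h3]
    exact cl_eq_of this
  rw [e1, Finset.card_insert_of_notMem hUn,
    Finset.card_erase_of_mem (Finset.mem_erase.2 ⟨hne.symm, htI⟩), Finset.card_erase_of_mem hsI]
  have h2 : 2 ≤ I.card := by
    rw [← Finset.card_pair hne]
    apply Finset.card_le_card
    intro A hA
    rw [Finset.mem_insert, Finset.mem_singleton] at hA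
    rcases hA with rfl | rfl
    · exact hsI
    · exact htI
  omega

theorem reach_empty {v w : Vtx} (h : Reach (∅ : Set Edg) v w) : v = w := by
  induction h with
  | refl => rfl
  | tail _ hs _ =>
    obtain ⟨e, he, _⟩ := hs
    exact absurd he (Set.notMem_empty _)

theorem ncl_empty (V : Finset Vtx) : ncl V ∅ = V.card := by
  classical
  rw [ncl_eq]
  apply Finset.card_image_of_injective
  intro v w h
  exact reach_empty (cl_eq_iff.1 h)

theorem ncl_le (V : Finset Vtx) (F : Set Edg) : ncl V F ≤ V.card := by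
  classical
  rw [ncl_eq]
  exact Finset.card_image_le

/-- The vertices of the `n × n` box. -/
noncomputable def vx (n : ℕ) : Finset Vtx := Finset.Ico (0:ℤ) n ×ˢ Finset.Ico (0:ℤ) n

/-- The edges of the `n × n` box. -/
noncomputable def ed (n : ℕ) : Finset Edg := RE 0 (n - 1) 0 (n - 1)

theorem card_vx (n : ℕ) : (vx n).card = n ^ 2 := by
  unfold vx
  rw [Finset.card_product, Int.card_Ico]
  simp only [sub_zero, Int.toNat_natCast]
  ring

theorem ed_vx {n : ℕ} {e : Edg} (h : e ∈ ed n) : src e ∈ vx n ∧ tgt e ∈ vx n := by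
  unfold ed at h
  unfold vx
  obtain ⟨x, y, _ | _⟩ := e
  · rw [mem_RE_false] at h
    simp only [src_mk, tgt_false, Finset.mem_product, Finset.mem_Ico]
    omega
  · rw [mem_RE_true] at h
    simp only [src_mk, tgt_true, Finset.mem_product, Finset.mem_Ico]
    omega

/-- The expected number of clusters. -/
noncomputable def eK (n : ℕ) (p : ℝ) : ℝ := Ex (fun _ => p) (ed n) (fun F => (ncl (vx n) ↑F : ℝ))

theorem Ex_zero (S : Finset Edg) (f : Finset Edg → ℝ) : Ex (fun _ => (0:ℝ)) S f = f ∅ := by
  induction S using Finset.induction_on generalizing f with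
  | empty => exact Ex_empty _ _
  | insert a S ha ih =>
    rw [Ex_insert _ ha, ih, ih]
    ring

theorem eK_zero (n : ℕ) : eK n 0 = (n:ℝ) ^ 2 := by
  unfold eK
  rw [Ex_zero, Finset.coe_empty, ncl_empty, card_vx]
  push_cast
  rfl

theorem eK_deriv (n : ℕ) (p : ℝ) :
    HasDerivAt (eK n) (-∑ e ∈ ed n, (1 - PQ p (ed n) (Ae e))) p := by
  have h := Ex_hasDerivAt (E := Edg) (fun q _ => q) (fun _ => (1:ℝ)) p
    (fun _ => hasDerivAt_id p) (ed n) (fun F => (ncl (vx n) ↑F : ℝ))
  have hs : (∑ e ∈ ed n, (1:ℝ) * Ex (fun _ => p) ((ed n).erase e)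
      (fun F => (ncl (vx n) (↑(insert e F) : Set Edg) : ℝ) - (ncl (vx n) (↑F : Set Edg) : ℝ))) =
      -∑ e ∈ ed n, (1 - PQ p (ed n) (Ae e)) := by
    rw [← Finset.sum_neg_distrib]
    apply Finset.sum_congr rfl
    intro e he
    have e1 : PQ p (ed n) (Ae e) = Pr (fun _ => p) ((ed n).erase e) (Ae e) := by
      apply Pr_local (Finset.erase_subset _ _)
      intro F hF
      unfold Ae
      have : (F ∩ (ed n).erase e).erase e = F.erase e := by
        ext x
        simp only [Finset.mem_erase, Finset.mem_inter]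
        constructor
        · rintro ⟨h1, h2, _⟩
          exact ⟨h1, h2⟩
        · rintro ⟨h1, h2⟩
          exact ⟨h1, h2, h1, hF h2⟩
      rw [this]
    rw [e1, one_mul, ← Pr_not]
    unfold Pr
    rw [← neg_one_mul, ← Ex_mul_left]
    apply Ex_congr
    intro F hF
    have heF : e ∉ F := fun h' => (Finset.mem_erase.1 (hF h')).1 rfl
    have hAe : Ae e F ↔ Reach (↑F : Set Edg) (src e) (tgt e) := by
      unfold Ae
      rw [Finset.erase_eq_of_notMem heF]
    obtain ⟨h1, h2⟩ := ed_vx he
    rw [Finset.coe_insert]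
    by_cases hr : Reach (↑F : Set Edg) (src e) (tgt e)
    · rw [ncl_insert_of _ hr, ind_not_of (fun h' => h' (hAe.2 hr))]
      ring
    · rw [ind_of (fun h' => hr (hAe.1 h')), ← ncl_insert_not h1 h2 hr]
      push_cast
      ring
  rw [hs] at h
  exact h

end Pool.Agent.TH992
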