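import Pool.Agent.TH992.K.Inf
import Pool.Agent.H12R2.Sep.Win2
import Pool.Agent.H973R3.NC.WN

/-!
Uniform decay of the four-arm probability and continuity of the connection probability.
-/

set_option autoImplicit false

namespace Pool.Agent.TH992

open H974 H12S H973N Finset

theorem A4_Crs {m : ℕ} {o : Bool} {F : Finset Edg} (h : A4 (-m) m (-m) m (e0 o) (↑F : Set Edg)) :
    Crs 0 0 1 m (↑F : Set Edg) := by
  obtain ⟨⟨w, hw, hr⟩, _, _⟩ := h
  refine ⟨src (e0 o), w, ?_, ?_, hr.mono fun x hx => hx.1.1⟩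
  · unfold e0 inR
    simp
  · unfold bdR at hw
    obtain ⟨_, h⟩ := hw
    simp only [zero_sub, zero_add]
    omega

theorem e0_mem {m : ℕ} (hm : 1 ≤ m) (o : Bool) : e0 o ∈ RE (-m : ℤ) m (-m) m := by
  unfold e0
  cases o
  · rw [mem_RE_false]; omega
  · rw [mem_RE_true]; omega

theorem A4_DCrs {m : ℕ} (hm : 1 ≤ m) {o : Bool} {F : Finset Edg}
    (h : A4 (-m) m (-m) m (e0 o) (↑F : Set Edg)) :
    DCrs 0 0 1 m (↑(boxE m \ F) : Set Edg) := by
  obtain ⟨h1, h2, h3⟩ := h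
  have hsub : ((↑F : Set Edg) ∩ ↑(RE (-m : ℤ) m (-m) m)) \ {e0 o} ⊆ ↑(RE (-m : ℤ) m (-m) m) :=
    fun x hx => hx.1.2
  obtain ⟨g, hg, hd⟩ := dual_arm hsub (e0_mem hm o) (fun h => h.2 rfl) h1 h2 h3
    (f0 := dsrc (e0 o)) (f1 := dtgt (e0 o)) (Or.inl ⟨rfl, rfl⟩)
  refine ⟨dsrc (e0 o), g, ?_, ?_, hd.mono ?_⟩
  · unfold e0 inR
    cases o <;> simp
  · unfold outF at hg
    simp only [Set.mem_ofPred_eq] at hg
    simp only [zero_sub, zero_add]
    omega
  · rintro x ⟨⟨k1, k2⟩, k3⟩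
    unfold boxE
    rw [Finset.mem_coe, Finset.mem_sdiff]
    refine ⟨Finset.mem_coe.1 k1, fun hx => k2 ⟨⟨?_, k1⟩, k3⟩⟩
    exact Finset.mem_coe.2 hx

theorem Crs_incr (c1 c2 : ℤ) (ρ R : ℕ) (S : Finset Edg) :
    IncrE S (fun F => Crs c1 c2 ρ R (↑F : Set Edg)) := by
  intro A B h _ hA
  exact BS_crs_mono (Finset.coe_subset.2 h) hA

theorem DCrs_incr (c1 c2 : ℤ) (ρ R : ℕ) (S : Finset Edg) :
    IncrE S (fun F => DCrs c1 c2 ρ R (↑F : Set Edg)) := by
  intro A B h _ hA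
  obtain ⟨x, y, h1, h2, h3⟩ := hA
  exact ⟨x, y, h1, h2, h3.mono (Finset.coe_subset.2 h)⟩

/-- The four-arm probability decays uniformly in the parameter. -/
theorem a4_unif : ∃ C c : ℝ, 0 < C ∧ 0 < c ∧ ∀ u : ℝ, 0 ≤ u → u ≤ 1 → ∀ m : ℕ, 1 ≤ m →
    a4 u m ≤ C * (1 / (m:ℝ)) ^ c := by
  obtain ⟨κ, hκ, hwin⟩ := H973N.win_half
  obtain ⟨C, c, hC, hc, h⟩ :=
    win_arm_of (fun {q κ n} h {m} hm hmn c1 c2 S => win_blk h hm hmn c1 c2 S) κ hκ
  refine ⟨2 * C, c, by positivity, hc, ?_⟩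
  intro u h0 h1 m hm
  have hok := okQ h0 h1
  have hok2 := okQ (q := 1/2) (by norm_num) (by norm_num)
  obtain ⟨b1, b2⟩ := h (1/2) m (hwin m) 1 m le_rfl hm le_rfl 0 0 (boxE m)
  rw [Nat.cast_one] at b1 b2
  have hall : ∀ o : Bool, PQ u (boxE m) (fun F => A4 (-m) m (-m) m (e0 o) (↑F : Set Edg)) ≤
      C * (1 / (m:ℝ)) ^ c := by
    intro o
    rcases le_total u (1/2) with hu | hu
    · refine le_trans ?_ b1
      refine (Pr_mono hok fun F _ hF => A4_Crs hF).trans ?_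
      exact Pr_mono_param hok hok2 (fun _ => hu) (Crs_incr _ _ _ _ _)
    · refine le_trans ?_ b2
      refine (Pr_mono hok fun F _ hF => A4_DCrs hm hF).trans ?_
      have e1 : ∀ q : ℝ, Pr (fun _ => q) (boxE m) (fun F => DCrs 0 0 1 m (↑(boxE m \ F) : Set Edg)) =
          Pr (fun _ => 1 - q) (boxE m) (fun F => DCrs 0 0 1 m (↑F : Set Edg)) := by
        intro q
        exact (Pr_compl (fun _ => q) (boxE m) (fun F => DCrs 0 0 1 m (↑F : Set Edg))).symm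
      unfold PQ
      rw [e1 u, e1 (1/2)]
      exact Pr_mono_param (okQ (by linarith) (by linarith)) (okQ (by norm_num) (by norm_num))
        (fun _ => by linarith) (DCrs_incr _ _ _ _ _)
  unfold a4
  have := hall true
  have := hall false
  linarith

theorem a4_lim {ε : ℝ} (hε : 0 < ε) : ∃ m0 : ℕ, 1 ≤ m0 ∧ ∀ m : ℕ, m0 ≤ m →
    ∀ u : ℝ, 0 ≤ u → u ≤ 1 → a4 u m ≤ ε := by
  obtain ⟨C, c, hC, hc, h⟩ := a4_unif
  have ht : Filter.Tendsto (fun m : ℕ => C * (1 / (m:ℝ)) ^ c) Filter.atTop (nhds 0) := by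
    have h1 : Filter.Tendsto (fun m : ℕ => (1 / (m:ℝ))) Filter.atTop (nhds 0) :=
      tendsto_one_div_atTop_nhds_zero_nat
    have h2 := (h1.rpow_const (p := c) (Or.inr hc.le)).const_mul C
    rwa [Real.zero_rpow hc.ne', mul_zero] at h2
  have h3 := (ht.eventually (gt_mem_nhds hε)).exists_forall_of_atTop
  obtain ⟨m0, hm0⟩ := h3
  refine ⟨max m0 1, le_max_right _ _, ?_⟩
  intro m hm u h0 h1
  exact (h u h0 h1 m ((le_max_right _ _).trans hm)).trans
    (hm0 m ((le_max_left _ _).trans hm)).le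

theorem Fn_cont (o : Bool) (m : ℕ) : Continuous (Fn o m) := cont_Pr _ _

theorem Pio_cont (o : Bool) : ContinuousOn (Pio o) (Set.Icc 0 1) := by
  have hu : TendstoUniformlyOn (fun m u => Fn o m u) (Pio o) Filter.atTop (Set.Icc 0 1) := by
    rw [Metric.tendstoUniformlyOn_iff]
    intro ε hε
    obtain ⟨m0, hm1, hm0⟩ := a4_lim (half_pos hε)
    filter_upwards [Filter.eventually_ge_atTop m0] with m hm u hu
    have a := Fn_le_Pio (o := o) hu.1 hu.2 m
    have b := Pio_le (o := o) hu.1 hu.2 (hm1.trans hm)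
    have c := hm0 m hm u hu.1 hu.2
    rw [Real.dist_eq, abs_lt]
    constructor <;> linarith
  exact hu.continuousOn (Filter.Frequently.of_forall fun m => (Fn_cont o m).continuousOn)

end Pool.Agent.TH992
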