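import Pool.Agent.TH992.K.Key
import Pool.Agent.W424.NC.NearC

/-!
The second order expansion of the sum over the core, in the window: sharp version.
-/

set_option autoImplicit false

namespace Pool.Agent.TH992

open H974 H12S H973N Finset

theorem V3_bound0 {ε : ℝ} (h0 : 0 ≤ ε) (h1 : ε < 1 / 4) : ∃ C : ℝ, 0 < C ∧
    ∀ (q A : ℝ) (J : ℕ), 0 ≤ q → q ≤ 1 → 1 ≤ A →
    (∀ k ≤ J, a4 q (2^k) ≤ A * ((2:ℝ)^k) ^ (-(5/4 : ℝ) + ε)) →
    V3 q J ≤ C * A^3 * ((2:ℝ)^J) ^ ((1/4 : ℝ) + 3 * ε) := by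
  obtain ⟨C, hC, hW⟩ := Pool.Agent.W424.NC.W_bounds0 h0 h1
  refine ⟨8 + 7 * C, by positivity, ?_⟩
  intro q A J hq0 hq1 hA hk
  obtain ⟨p, hpdef⟩ : ∃ p : ℝ, p = (2:ℝ) ^ (-(5/4 : ℝ) + ε) := ⟨_, rfl⟩
  have hp : 0 < p := by rw [hpdef]; positivity
  have hA0 : 0 < A := by linarith
  have e1 : (2:ℝ) ^ ((1/4 : ℝ) + 3 * ε) = 16 * p ^ 3 := by
    have : (1/4 : ℝ) + 3 * ε = 4 + ((-(5/4 : ℝ) + ε) + (-(5/4 : ℝ) + ε) + (-(5/4 : ℝ) + ε)) := by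
      ring
    rw [this, Real.rpow_add (by norm_num), Real.rpow_add (by norm_num),
      Real.rpow_add (by norm_num), hpdef]
    norm_num
    ring
  have e2 : (2:ℝ) ^ ((3/2 : ℝ) + 2 * ε) = 16 * p ^ 2 := by
    have : (3/2 : ℝ) + 2 * ε = 4 + ((-(5/4 : ℝ) + ε) + (-(5/4 : ℝ) + ε)) := by ring
    rw [this, Real.rpow_add (by norm_num), Real.rpow_add (by norm_num), hpdef]
    norm_num
    ring
  have hρ : 7 / 6 ≤ 16 * p ^ 3 := by
    rw [← e1]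
    have h3 : (2:ℝ) ^ (1/4 : ℝ) ≤ (2:ℝ) ^ ((1/4 : ℝ) + 3 * ε) :=
      Real.rpow_le_rpow_of_exponent_le (by norm_num) (by linarith)
    have h4 : ((2:ℝ) ^ (1/4 : ℝ)) ^ 4 = 2 := by
      rw [← Real.rpow_natCast, ← Real.rpow_mul (by norm_num)]
      norm_num
    refine le_trans ?_ h3
    refine le_of_pow_le_pow_left₀ (n := 4) (by norm_num) (by positivity) ?_
    rw [h4]
    norm_num
  have ha : ∀ k ≤ J, a4 q (2^k) ≤ A * p ^ k := by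
    intro k hkJ
    have := hk k hkJ
    rwa [two_rpow_comm, ← hpdef] at this
  have hn : ∀ k, 0 ≤ a4 q (2^k) := fun k => a4_nn hq0 hq1 _
  rw [two_rpow_comm, e1]
  set r : ℝ := 16 * p ^ 3 with hr
  have hr0 : 0 < r := by positivity
  have hr1 : 1 ≤ r := by linarith
  have hrJ : 1 ≤ r ^ J := one_le_pow₀ hr1
  have hA3 : 1 ≤ A ^ 3 := one_le_pow₀ hA
  have s1 : ∑ k ∈ Finset.range (J + 1), (16:ℝ) ^ k * (a4 q (2^k)) ^ 3 ≤ A ^ 3 * (7 * r ^ J) := by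
    calc ∑ k ∈ Finset.range (J + 1), (16:ℝ) ^ k * (a4 q (2^k)) ^ 3
        ≤ ∑ k ∈ Finset.range (J + 1), A ^ 3 * r ^ k := by
          apply Finset.sum_le_sum
          intro k hk'
          have hkJ : k ≤ J := by rw [Finset.mem_range] at hk'; omega
          have h5 : (a4 q (2^k)) ^ 3 ≤ (A * p ^ k) ^ 3 := pow_le_pow_left₀ (hn k) (ha k hkJ) 3
          calc (16:ℝ) ^ k * (a4 q (2^k)) ^ 3 ≤ (16:ℝ) ^ k * (A * p ^ k) ^ 3 :=
                mul_le_mul_of_nonneg_left h5 (by positivity)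
            _ = A ^ 3 * r ^ k := by
                rw [hr, mul_pow, mul_pow, ← pow_mul, ← pow_mul, mul_comm 3 k]
                ring
      _ = A ^ 3 * ∑ k ∈ Finset.range (J + 1), r ^ k := by rw [Finset.mul_sum]
      _ ≤ A ^ 3 * (7 * r ^ J) := mul_le_mul_of_nonneg_left (geo_le r hρ J) (by positivity)
  have s2 : ∑ j ∈ Finset.range (J + 1), a4 q (2^j) * W2s q j ≤ C * A ^ 3 * (7 * r ^ J) := by
    calc ∑ j ∈ Finset.range (J + 1), a4 q (2^j) * W2s q j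
        ≤ ∑ j ∈ Finset.range (J + 1), C * A ^ 3 * r ^ j := by
          apply Finset.sum_le_sum
          intro j hj'
          have hjJ : j ≤ J := by rw [Finset.mem_range] at hj'; omega
          have h5 := (hW q A j hq0 hq1 hA (fun k hkj => hk k (hkj.trans hjJ))).2.1
          rw [two_rpow_comm, e2] at h5
          calc a4 q (2^j) * W2s q j ≤ (A * p ^ j) * (C * A ^ 2 * (16 * p ^ 2) ^ j) :=
                mul_le_mul (ha j hjJ) h5 (W2s_nonneg j) (by positivity)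
            _ = C * A ^ 3 * r ^ j := by
                rw [hr, mul_pow, mul_pow, ← pow_mul, ← pow_mul]
                ring
      _ = C * A ^ 3 * ∑ k ∈ Finset.range (J + 1), r ^ k := by rw [Finset.mul_sum]
      _ ≤ C * A ^ 3 * (7 * r ^ J) := mul_le_mul_of_nonneg_left (geo_le r hρ J) (by positivity)
  have s0 : (1:ℝ) ≤ A ^ 3 * r ^ J := by nlinarith
  unfold V3
  nlinarith [s0, s1, s2]

/-- The expansion of the sum over the core. -/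
theorem key_est0 {ε : ℝ} (hε0 : 0 ≤ ε) (hε : ε < 1 / 4)
    (hN : ∃ κ b B : ℝ, 0 < κ ∧ 0 < b ∧ 0 < B ∧ ∀ n : ℕ, 1 ≤ n → ∀ q : ℝ,
      |q - 1/2| ≤ b * (n:ℝ) ^ (-(3/4 : ℝ) - ε) → Win q κ n ∧
        ∀ k : ℕ, 1 ≤ k → k ≤ n → a4 q k ≤ B * (k:ℝ) ^ (-(5/4 : ℝ) + ε)) : ∃ c C : ℝ, 0 < c ∧ 0 < C ∧
    ∀ (K : ℕ) (u : ℝ), |u - 1/2| ≤ c * ((2:ℝ)^K) ^ (-(3/4 : ℝ) - ε) →
      a4 u (2^K) ≤ C * ((2:ℝ)^K) ^ (-(5/4 : ℝ) + ε) ∧ (0 ≤ u ∧ u ≤ 1) ∧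
      |Mf K u - Mf K (1/2) - Mi K (1/2) * (u - 1/2)| ≤ C * ((2:ℝ)^K) ^ ((3/4 : ℝ) + ε) := by
  obtain ⟨κ, b, B, hκ, hb, hB, hnear⟩ := hN
  obtain ⟨C1, hC1, hMo⟩ := Mo_le κ hκ
  obtain ⟨C2, hC2, hMi⟩ := Mi_deriv κ hκ
  obtain ⟨C3, hC3, hW⟩ := Pool.Agent.W424.NC.W_bounds0 hε0 hε
  obtain ⟨C4, hC4, hV⟩ := V3_bound0 hε0 hε
  set A : ℝ := max B 1 with hA
  have hA1 : 1 ≤ A := le_max_right _ _
  have hAB : B ≤ A := le_max_left _ _
  have hA0 : 0 < A := by linarith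
  set c : ℝ := b / 1024 with hc
  have hc0 : 0 < c := by positivity
  set D2 : ℝ := C2 * (C4 * A^3 * 64 + C3 * A * (C3 * A^2)) with hD2
  set D1 : ℝ := C1 * (C3 * A^2) with hD1
  have hD20 : 0 < D2 := by positivity
  have hD10 : 0 < D1 := by positivity
  refine ⟨c, A + (D2 * c * c + D1 * c), hc0, by positivity, ?_⟩
  intro K u hu
  set x : ℝ := (2:ℝ)^K with hx
  have hx1 : 1 ≤ x := one_le_pow₀ (by norm_num)
  have hx0 : 0 < x := by linarith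
  -- window
  have hwin : ∀ t : ℝ, |t - 1/2| ≤ |u - 1/2| → Win t κ (2^(K+10)) ∧
      (∀ k ≤ K + 6, a4 t (2^k) ≤ A * ((2:ℝ)^k) ^ (-(5/4 : ℝ) + ε)) := by
    intro t ht
    have h2 : |t - 1/2| ≤ b * (((2^(K+10) : ℕ)) : ℝ)^(-(3/4:ℝ) - ε) := by
      refine (ht.trans hu).trans ?_
      have e1 : (((2^(K+10) : ℕ)) : ℝ) = x * 1024 := by
        push_cast
        rw [pow_add, hx]
        norm_num
      rw [e1, Real.mul_rpow hx0.le (by norm_num), hc]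
      have e2 : (1024:ℝ)⁻¹ ≤ (1024:ℝ) ^ (-(3/4:ℝ) - ε) := by
        rw [← Real.rpow_neg_one]
        exact Real.rpow_le_rpow_of_exponent_le (by norm_num) (by linarith)
      have e3 : 0 ≤ x ^ (-(3/4:ℝ) - ε) := by positivity
      calc b / 1024 * x ^ (-(3/4:ℝ) - ε) = b * (x ^ (-(3/4:ℝ) - ε) * (1024:ℝ)⁻¹) := by ring
        _ ≤ b * (x ^ (-(3/4:ℝ) - ε) * (1024:ℝ) ^ (-(3/4:ℝ) - ε)) := by
            apply mul_le_mul_of_nonneg_left _ hb.le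
            exact mul_le_mul_of_nonneg_left e2 e3
    obtain ⟨k1, k2⟩ := hnear (2^(K+10)) Nat.one_le_two_pow t h2
    refine ⟨k1, ?_⟩
    intro k hk
    have h3 := k2 (2^k) Nat.one_le_two_pow (Nat.pow_le_pow_right (by norm_num) (by omega))
    push_cast at h3
    refine h3.trans ?_
    exact mul_le_mul_of_nonneg_right hAB (by positivity)
  have hself := hwin u le_rfl
  have hu0 : 0 ≤ u ∧ u ≤ 1 := ⟨by linarith [hself.1.lo], by linarith [hself.1.hi]⟩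
  -- bounds for the derivatives
  have hmem : ∀ t ∈ Set.uIcc (1/2) u, |t - 1/2| ≤ |u - 1/2| := by
    intro t ht
    exact Set.abs_sub_left_of_mem_uIcc ht
  have h4K : (4:ℝ)^K = x ^ (2:ℝ) := by
    rw [hx, Real.rpow_two, ← pow_mul, mul_comm, pow_mul]
    norm_num
  have hDi : ∀ t : ℝ, |t - 1/2| ≤ |u - 1/2| → ∃ D, HasDerivAt (Mi K) D t ∧
      |D| ≤ D2 * x ^ ((9/4:ℝ) + 3 * ε) := by
    intro t ht
    obtain ⟨hWt, hat⟩ := hwin t ht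
    have ht0 : 0 ≤ t := by linarith [hWt.lo]
    have ht1 : t ≤ 1 := by linarith [hWt.hi]
    obtain ⟨D, hD, hDb⟩ := hMi t _ hWt K le_rfl
    refine ⟨D, hD, hDb.trans ?_⟩
    have w := hW t A K ht0 ht1 hA1 (fun k hk => hat k (by omega))
    have v := hV t A (K + 6) ht0 ht1 hA1 hat
    have e1 : ((2:ℝ)^(K+6)) ^ ((1/4 : ℝ) + 3 * ε) ≤ x ^ ((1/4 : ℝ) + 3 * ε) * 64 := by
      rw [pow_add, Real.mul_rpow (by positivity) (by positivity), ← hx]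
      apply mul_le_mul_of_nonneg_left _ (by positivity)
      have : ((2:ℝ)^6) ^ ((1/4 : ℝ) + 3 * ε) ≤ ((2:ℝ)^6) ^ (1:ℝ) :=
        Real.rpow_le_rpow_of_exponent_le (by norm_num) (by linarith)
      refine this.trans ?_
      rw [Real.rpow_one]
      norm_num
    have e2 : V3 t (K + 6) ≤ C4 * A^3 * 64 * x ^ ((1/4 : ℝ) + 3 * ε) := by
      refine v.trans ?_
      calc C4 * A^3 * ((2:ℝ)^(K+6)) ^ ((1/4 : ℝ) + 3 * ε)
          ≤ C4 * A^3 * (x ^ ((1/4 : ℝ) + 3 * ε) * 64) :=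
            mul_le_mul_of_nonneg_left e1 (by positivity)
        _ = _ := by ring
    have e3 : W1s t K * W2s t K ≤ (C3 * A * x ^ ((3/4 : ℝ) + ε)) *
        (C3 * A^2 * x ^ ((3/2 : ℝ) + 2 * ε)) :=
      mul_le_mul w.1 w.2.1 (W2s_nonneg K) (by positivity)
    have e4 : x ^ ((3/4 : ℝ) + ε) * x ^ ((3/2 : ℝ) + 2 * ε) = x ^ ((9/4:ℝ) + 3 * ε) := by
      rw [← Real.rpow_add hx0]
      congr 1
      ring
    have e5 : x ^ (2:ℝ) * x ^ ((1/4 : ℝ) + 3 * ε) = x ^ ((9/4:ℝ) + 3 * ε) := by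
      rw [← Real.rpow_add hx0]
      congr 1
      ring
    have e6 : (4:ℝ)^K * V3 t (K + 6) ≤ C4 * A^3 * 64 * x ^ ((9/4:ℝ) + 3 * ε) := by
      rw [h4K, ← e5]
      calc x ^ (2:ℝ) * V3 t (K + 6) ≤ x ^ (2:ℝ) * (C4 * A^3 * 64 * x ^ ((1/4 : ℝ) + 3 * ε)) :=
            mul_le_mul_of_nonneg_left e2 (by positivity)
        _ = _ := by ring
    have e7 : (C3 * A * x ^ ((3/4 : ℝ) + ε)) * (C3 * A^2 * x ^ ((3/2 : ℝ) + 2 * ε)) =
        C3 * A * (C3 * A^2) * x ^ ((9/4:ℝ) + 3 * ε) := by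
      rw [← e4]; ring
    rw [e7] at e3
    rw [hD2]
    calc C2 * ((4:ℝ)^K * V3 t (K + 6) + W1s t K * W2s t K)
        ≤ C2 * (C4 * A^3 * 64 * x ^ ((9/4:ℝ) + 3 * ε) +
          C3 * A * (C3 * A^2) * x ^ ((9/4:ℝ) + 3 * ε)) :=
          mul_le_mul_of_nonneg_left (add_le_add e6 e3) hC2.le
      _ = _ := by ring
  have hDo : ∀ t : ℝ, |t - 1/2| ≤ |u - 1/2| → 0 ≤ Mo K t ∧
      Mo K t ≤ D1 * x ^ ((3/2:ℝ) + 2 * ε) := by
    intro t ht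
    obtain ⟨hWt, hat⟩ := hwin t ht
    have ht0 : 0 ≤ t := by linarith [hWt.lo]
    have ht1 : t ≤ 1 := by linarith [hWt.hi]
    refine ⟨Mo_nonneg ht0 ht1, ?_⟩
    have w := hW t A K ht0 ht1 hA1 (fun k hk => hat k (by omega))
    refine (hMo t _ hWt K (Nat.pow_le_pow_right (by norm_num) (by omega))).trans ?_
    rw [hD1]
    calc C1 * ((4:ℝ)^K * a4 t (2^K) * W1s t K) ≤ C1 * (C3 * A^2 * x ^ ((3/2:ℝ) + 2 * ε)) :=
          mul_le_mul_of_nonneg_left w.2.2 hC1.le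
      _ = _ := by ring
  refine ⟨?_, hu0, ?_⟩
  · have := hself.2 K (by omega)
    refine this.trans ?_
    apply mul_le_mul_of_nonneg_right _ (by positivity)
    have : 0 ≤ D2 * c * c + D1 * c := by positivity
    linarith
  -- the inner part is Lipschitz
  have hlip : ∀ t : ℝ, |t - 1/2| ≤ |u - 1/2| → |Mi K t - Mi K (1/2)| ≤
      D2 * x ^ ((9/4:ℝ) + 3 * ε) * |u - 1/2| := by
    intro t ht
    have h2 := lip (f := Mi K) (a := 1/2) (b := t) (B := D2 * x ^ ((9/4:ℝ) + 3 * ε))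
      (fun s hs => hDi s ((Set.abs_sub_left_of_mem_uIcc hs).trans ht))
    exact h2.trans (mul_le_mul_of_nonneg_left ht (by positivity))
  -- the function
  have hmain := lip (f := fun t => Mf K t - Mi K (1/2) * t) (a := 1/2) (b := u)
    (B := D2 * x ^ ((9/4:ℝ) + 3 * ε) * |u - 1/2| + D1 * x ^ ((3/2:ℝ) + 2 * ε))
    (fun t ht => by
      have ht' := hmem t ht
      refine ⟨(Mi K t + Mo K t) - Mi K (1/2) * 1, ?_, ?_⟩
      · exact (Mf_deriv K t).sub ((hasDerivAt_id t).const_mul _)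
      · obtain ⟨o1, o2⟩ := hDo t ht'
        have l := hlip t ht'
        have e1 : Mi K t + Mo K t - Mi K (1/2) * 1 = (Mi K t - Mi K (1/2)) + Mo K t := by ring
        rw [e1]
        refine (abs_add_le _ _).trans ?_
        rw [abs_of_nonneg o1]
        exact add_le_add l o2)
  have e0 : Mf K u - Mf K (1/2) - Mi K (1/2) * (u - 1/2) =
      (fun t => Mf K t - Mi K (1/2) * t) u - (fun t => Mf K t - Mi K (1/2) * t) (1/2) := by
    simp only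
    ring
  rw [e0]
  refine hmain.trans ?_
  have hd0 : 0 ≤ |u - 1/2| := abs_nonneg _
  have f1 : |u - 1/2| * |u - 1/2| ≤ c * c * x ^ (-(3/2:ℝ) - 2 * ε) := by
    have : x ^ (-(3/2:ℝ) - 2 * ε) = x ^ (-(3/4 : ℝ) - ε) * x ^ (-(3/4 : ℝ) - ε) := by
      rw [← Real.rpow_add hx0]; congr 1; ring
    rw [this]
    calc |u - 1/2| * |u - 1/2| ≤ (c * x ^ (-(3/4 : ℝ) - ε)) * (c * x ^ (-(3/4 : ℝ) - ε)) :=
          mul_le_mul hu hu hd0 (by positivity)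
      _ = _ := by ring
  have f2 : x ^ ((9/4:ℝ) + 3 * ε) * x ^ (-(3/2:ℝ) - 2 * ε) = x ^ ((3/4:ℝ) + ε) := by
    rw [← Real.rpow_add hx0]; congr 1; ring
  have f3 : x ^ ((3/2:ℝ) + 2 * ε) * x ^ (-(3/4:ℝ) - ε) = x ^ ((3/4:ℝ) + ε) := by
    rw [← Real.rpow_add hx0]; congr 1; ring
  calc (D2 * x ^ ((9/4:ℝ) + 3 * ε) * |u - 1/2| + D1 * x ^ ((3/2:ℝ) + 2 * ε)) * |u - 1/2|
      = D2 * x ^ ((9/4:ℝ) + 3 * ε) * (|u - 1/2| * |u - 1/2|) +
        D1 * x ^ ((3/2:ℝ) + 2 * ε) * |u - 1/2| := by ring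
    _ ≤ D2 * x ^ ((9/4:ℝ) + 3 * ε) * (c * c * x ^ (-(3/2:ℝ) - 2 * ε)) +
        D1 * x ^ ((3/2:ℝ) + 2 * ε) * (c * x ^ (-(3/4:ℝ) - ε)) :=
        add_le_add (mul_le_mul_of_nonneg_left f1 (by positivity))
          (mul_le_mul_of_nonneg_left hu (by positivity))
    _ = (D2 * c * c + D1 * c) * x ^ ((3/4:ℝ) + ε) := by
        have g1 : D2 * x ^ ((9/4:ℝ) + 3 * ε) * (c * c * x ^ (-(3/2:ℝ) - 2 * ε)) =
          D2 * c * c * (x ^ ((9/4:ℝ) + 3 * ε) * x ^ (-(3/2:ℝ) - 2 * ε)) := by ring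
        have g2 : D1 * x ^ ((3/2:ℝ) + 2 * ε) * (c * x ^ (-(3/4:ℝ) - ε)) =
          D1 * c * (x ^ ((3/2:ℝ) + 2 * ε) * x ^ (-(3/4:ℝ) - ε)) := by ring
        rw [g1, g2, f2, f3]
        ring
    _ ≤ (A + (D2 * c * c + D1 * c)) * x ^ ((3/4:ℝ) + ε) := by
        apply mul_le_mul_of_nonneg_right _ (by positivity)
        linarith

/-- The sharp expansion of the sum over the core. -/
theorem key_sharp : ∃ c C : ℝ, 0 < c ∧ 0 < C ∧
    ∀ (K : ℕ) (u : ℝ), |u - 1/2| ≤ c * ((2:ℝ)^K) ^ (-(3/4 : ℝ) - 0) →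
      a4 u (2^K) ≤ C * ((2:ℝ)^K) ^ (-(5/4 : ℝ) + 0) ∧ (0 ≤ u ∧ u ≤ 1) ∧
      |Mf K u - Mf K (1/2) - Mi K (1/2) * (u - 1/2)| ≤ C * ((2:ℝ)^K) ^ ((3/4 : ℝ) + 0) := by
  apply key_est0 le_rfl (by norm_num)
  obtain ⟨κ, b, c, C, hκ, hb, _, hC, h⟩ := Pool.Agent.W424.NC.nearS
  refine ⟨κ, b, C, hκ, hb, hC, ?_⟩
  intro n hn q hq
  rw [sub_zero] at hq
  obtain ⟨h1, h2⟩ := h n hn q hq
  refine ⟨h1, fun k hk1 hk2 => ?_⟩
  rw [add_zero]
  exact (h2 k hk1 hk2).2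

end Pool.Agent.TH992
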