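import Pool.Agent.TH992.K.Van

/-!
Sums of the third differences over the pairs of edges which are closer to each other than to a
given edge.
-/

set_option autoImplicit false

namespace Pool.Agent.TH992

open H974 H12S H973N Finset

theorem dst_nonneg (a b : Edg) : 0 ≤ dst a b := by
  unfold dst
  exact le_max_of_le_left (abs_nonneg _)

/-- Two balls are disjoint if the edges are far apart. -/
theorem ball_disj {a b : Edg} {r s : ℕ} (h : (r:ℤ) + s < dst a b) :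
    ∀ x ∈ blk (bp a) r, x ∉ blk (bp b) s := by
  intro x hx hx'
  have k1 := FPX.mem_blk_dst hx
  have k2 := FPX.mem_blk_dst hx'
  have k3 := FPX.dst_tri a x b
  rw [FPX.dst_comm x b] at k3
  linarith

theorem notMem_ball {a b : Edg} {r : ℕ} (h : (r:ℤ) < dst a b) : b ∉ blk (bp a) r := fun hx =>
  absurd (FPX.mem_blk_dst hx) (by linarith)

theorem ne_of_dst {a b : Edg} (h : 0 < dst a b) : a ≠ b := by
  rintro rfl
  rw [FPX.dst_self] at h
  exact lt_irrefl _ h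

theorem ball_sub_box {a : Edg} {r R : ℕ} (h1 : |a.1| + r ≤ R) (h2 : |a.2.1| + r ≤ R) :
    blk (bp a) r ⊆ boxE R := by
  have k1 := abs_le.1 (show |a.1| ≤ (R:ℤ) - r by linarith)
  have k2 := abs_le.1 (show |a.2.1| ≤ (R:ℤ) - r by linarith)
  unfold blk bp boxE
  apply RE_subset <;> simp only <;> linarith [k1.1, k1.2, k2.1, k2.2]

theorem L4_inter {ρ : ℕ} {a : Edg} {F T : Finset Edg} (hT : ∀ x ∈ blk (bp a) ρ, x ∈ T) :
    L4 ρ a (↑F : Set Edg) ↔ L4 ρ a (↑(F ∩ T) : Set Edg) := by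
  apply NP.L4_congr'
  intro x hx _
  rw [Finset.mem_inter]
  exact ⟨fun h => ⟨h, hT x hx⟩, fun h => h.1⟩

/-- Three comparable distances: three local four-arm events. -/
theorem three_L4 {q : ℝ} (h0 : 0 ≤ q) (h1 : q ≤ 1) {R ρ : ℕ} (hρ : 1 ≤ ρ) {a b c : Edg}
    (hab : 2 * (ρ:ℤ) < dst a b) (hca : 2 * (ρ:ℤ) < dst c a) (hcb : 2 * (ρ:ℤ) < dst c b)
    (ha : blk (bp a) ρ ⊆ boxE R) (hb : blk (bp b) ρ ⊆ boxE R) (hc : blk (bp c) ρ ⊆ boxE R) :
    PQ q (boxE R) (SD (Ae c) a b) ≤ (a4 q ρ) ^ 3 := by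
  have hok := okQ h0 h1
  have hρz : (1:ℤ) ≤ ρ := by exact_mod_cast hρ
  have nab : a ≠ b := ne_of_dst (by linarith)
  have nca : c ≠ a := ne_of_dst (by linarith)
  have ncb : c ≠ b := ne_of_dst (by linarith)
  have hba : 2 * (ρ:ℤ) < dst b a := by rw [FPX.dst_comm]; exact hab
  have hac : 2 * (ρ:ℤ) < dst a c := by rw [FPX.dst_comm]; exact hca
  have hbc : 2 * (ρ:ℤ) < dst b c := by rw [FPX.dst_comm]; exact hcb
  have hn := FPX.a4_nonneg h0 h1 ρ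
  have step : PQ q (boxE R) (SD (Ae c) a b) ≤ PQ q (boxE R) (fun F => L4 ρ c (↑F : Set Edg) ∧
      (L4 ρ a (↑F : Set Edg) ∧ L4 ρ b (↑F : Set Edg))) := by
    apply Pr_mono hok
    intro F _ h
    refine ⟨SD_L4 hρ (notMem_ball (by linarith)) (notMem_ball (by linarith)) h, ?_, ?_⟩
    · have h2 := (SD_swap nca ncb nab).1 h
      exact SD_L4 hρ (notMem_ball (by linarith)) (notMem_ball (by linarith)) h2
    · have h2 := (SD_swap ncb nca nab.symm).1 (SD_comm.1 h)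
      exact SD_L4 hρ (notMem_ball (by linarith)) (notMem_ball (by linarith)) h2
  refine step.trans ?_
  refine (NP.indep_L4 h0 h1 hc ?_).trans ?_
  · intro F hF
    rw [L4_inter (a := a) (F := F) (T := boxE R \ blk (bp c) ρ) (fun x hx =>
        Finset.mem_sdiff.2 ⟨ha hx, ball_disj (by linarith) x hx⟩),
      L4_inter (a := b) (F := F) (T := boxE R \ blk (bp c) ρ) (fun x hx =>
        Finset.mem_sdiff.2 ⟨hb hx, ball_disj (by linarith) x hx⟩)]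
  · have s2 : PQ q (boxE R) (fun F => L4 ρ a (↑F : Set Edg) ∧ L4 ρ b (↑F : Set Edg)) ≤
        a4 q ρ * a4 q ρ := by
      refine (NP.indep_L4 h0 h1 ha ?_).trans ?_
      · intro F hF
        exact L4_inter (a := b) (F := F) (T := boxE R \ blk (bp a) ρ) (fun x hx =>
          Finset.mem_sdiff.2 ⟨hb hx, ball_disj (by linarith) x hx⟩)
      · exact mul_le_mul_of_nonneg_left (pr_L4 h0 h1 hb) hn
    calc a4 q ρ * PQ q (boxE R) (fun F => L4 ρ a (↑F : Set Edg) ∧ L4 ρ b (↑F : Set Edg))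
        ≤ a4 q ρ * (a4 q ρ * a4 q ρ) := mul_le_mul_of_nonneg_left s2 hn
      _ = (a4 q ρ) ^ 3 := by ring

theorem SD_Bf' {f : Finset Edg → Prop} (hf : ∀ F G : Finset Edg, F ⊆ G → f F → f G) {a b : Edg}
    {t F : Finset Edg} (ha : a ∈ t) (hb : b ∈ t) (h : SD f a b F) : Bf f t F := by
  obtain ⟨_, _, h3, h4⟩ := h
  refine ⟨hf _ _ ?_ h3, fun h5 => h4 (hf _ _ ?_ h5)⟩
  · intro x hx
    rw [Finset.mem_insert, Finset.mem_insert] at hx
    rw [Finset.mem_union]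
    rcases hx with rfl | rfl | hx
    · exact Or.inr ha
    · exact Or.inr hb
    · exact Or.inl hx
  · intro x hx
    rw [Finset.mem_sdiff] at hx
    rw [Finset.mem_erase, Finset.mem_erase]
    exact ⟨fun h => hx.2 (h ▸ hb), fun h => hx.2 (h ▸ ha), hx.1⟩

/-- position of the centre of the tile -/
theorem tl_spec {ρ : ℕ} (hρ : 1 ≤ ρ) (e : Edg) :
    (2 * (ρ:ℤ) * (NP.tl ρ e).1 ≤ e.1 + ρ ∧ e.1 < 2 * (ρ:ℤ) * (NP.tl ρ e).1 + ρ) ∧
    (2 * (ρ:ℤ) * (NP.tl ρ e).2 ≤ e.2.1 + ρ ∧ e.2.1 < 2 * (ρ:ℤ) * (NP.tl ρ e).2 + ρ) := by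
  have h1 := NP.div_spec hρ e.1
  have h2 := NP.div_spec hρ e.2.1
  unfold NP.tl
  push_cast at h1 h2 ⊢
  exact ⟨h1, h2⟩

/-- The big block of the tile of `a` stays near `a`. -/
theorem bigblk_dst {ρ : ℕ} (hρ : 1 ≤ ρ) {a x : Edg}
    (hx : x ∈ blk (((2 * ρ : ℕ) : ℤ) * (NP.tl ρ a).1, ((2 * ρ : ℕ) : ℤ) * (NP.tl ρ a).2)
      (3 * (6 * ρ))) : dst a x ≤ 19 * ρ := by
  obtain ⟨⟨h1, h2⟩, h3, h4⟩ := tl_spec hρ a
  unfold blk at hx
  obtain ⟨⟨k1, k2⟩, k3, k4⟩ := NP.RE_weak hx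
  push_cast at k1 k2 k3 k4
  unfold dst
  apply max_le <;> rw [abs_le] <;> constructor <;> linarith

theorem bigblk_sep {ρ ρc : ℕ} (hρ : 1 ≤ ρ) {a c : Edg} (h : (ρc:ℤ) + 20 * ρ < dst c a) {x : Edg}
    (hx : x ∈ blk (((2 * ρ : ℕ) : ℤ) * (NP.tl ρ a).1, ((2 * ρ : ℕ) : ℤ) * (NP.tl ρ a).2)
      (3 * (6 * ρ))) : x ∉ blk (bp c) ρc := by
  intro hxc
  have k1 := bigblk_dst hρ hx
  have k2 := FPX.mem_blk_dst hxc
  have k3 := FPX.dst_tri c x a
  rw [FPX.dst_comm x a] at k3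
  have : (0:ℤ) ≤ ρ := Int.natCast_nonneg _
  linarith

theorem bigblk_box {ρ R : ℕ} (hρ : 1 ≤ ρ) {a : Edg} (h1 : |a.1| + 20 * (ρ:ℤ) ≤ R)
    (h2 : |a.2.1| + 20 * (ρ:ℤ) ≤ R) :
    blk (((2 * ρ : ℕ) : ℤ) * (NP.tl ρ a).1, ((2 * ρ : ℕ) : ℤ) * (NP.tl ρ a).2) (3 * (6 * ρ)) ⊆
      boxE R := by
  obtain ⟨⟨k1, k2⟩, k3, k4⟩ := tl_spec hρ a
  have m1 := abs_le.1 (show |a.1| ≤ (R:ℤ) - 20 * ρ by linarith)
  have m2 := abs_le.1 (show |a.2.1| ≤ (R:ℤ) - 20 * ρ by linarith)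
  have : (0:ℤ) ≤ ρ := Int.natCast_nonneg _
  unfold blk boxE
  push_cast
  apply RE_subset <;> linarith [m1.1, m1.2, m2.1, m2.2]

theorem bigblk_off {ρ : ℕ} (hρ : 1 ≤ ρ) {a c : Edg} (h : 20 * (ρ:ℤ) < dst c a) :
    Off (((2 * ρ : ℕ) : ℤ) * (NP.tl ρ a).1 - 3 * ((6 * ρ : ℕ) : ℤ))
      (((2 * ρ : ℕ) : ℤ) * (NP.tl ρ a).1 + 3 * ((6 * ρ : ℕ) : ℤ))
      (((2 * ρ : ℕ) : ℤ) * (NP.tl ρ a).2 - 3 * ((6 * ρ : ℕ) : ℤ))
      (((2 * ρ : ℕ) : ℤ) * (NP.tl ρ a).2 + 3 * ((6 * ρ : ℕ) : ℤ)) {src c} {tgt c} := by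
  obtain ⟨⟨k1, k2⟩, k3, k4⟩ := tl_spec hρ a
  have hρz : (1:ℤ) ≤ ρ := by exact_mod_cast hρ
  intro v hv hv'
  push_cast at hv'
  have key : dst c a ≤ 20 * ρ := by
    unfold dst
    obtain ⟨x, y, b⟩ := c
    rcases hv with hv | hv
    · rw [Set.mem_singleton_iff] at hv
      subst hv
      simp only [src_mk] at hv' ⊢
      apply max_le <;> rw [abs_le] <;> constructor <;> linarith [hv'.1.1, hv'.1.2, hv'.2.1, hv'.2.2]
    · rw [Set.mem_singleton_iff] at hv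
      subst hv
      cases b
      · simp only [tgt_false] at hv' ⊢
        apply max_le <;> rw [abs_le] <;> constructor <;>
          linarith [hv'.1.1, hv'.1.2, hv'.2.1, hv'.2.2]
      · simp only [tgt_true] at hv' ⊢
        apply max_le <;> rw [abs_le] <;> constructor <;>
          linarith [hv'.1.1, hv'.1.2, hv'.2.1, hv'.2.2]
  linarith

theorem tb_big {ρ : ℕ} (t : ℤ × ℤ) : NP.tb ρ t ⊆
    blk (((2 * ρ : ℕ) : ℤ) * t.1, ((2 * ρ : ℕ) : ℤ) * t.2) (3 * (6 * ρ)) := by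
  unfold NP.tb blk
  apply RE_subset <;> push_cast <;> omega

/-- The bound for a close pair, far from the third edge. -/
theorem pair_tile {q : ℝ} (h0 : 0 ≤ q) (h1 : q ≤ 1) {R ρ ρc : ℕ} (hρ : 1 ≤ ρ) (hρc : 1 ≤ ρc)
    {a b c : Edg} (hab : 2 * (ρ:ℤ) < dst a b) (hab4 : dst a b ≤ 4 * ρ)
    (hca : (ρc:ℤ) + 20 * ρ < dst c a) (ha1 : |a.1| + 20 * (ρ:ℤ) ≤ R)
    (ha2 : |a.2.1| + 20 * (ρ:ℤ) ≤ R) :
    PQ q (boxE R) (SD (Ae c) a b) ≤ (a4 q ρ) ^ 2 * PQ q (boxE R)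
      (fun F => L4 ρc c (↑F : Set Edg) ∧ Bf (Ae c) (NP.tb ρ (NP.tl ρ a)) F) := by
  have hok := okQ h0 h1
  have hρz : (1:ℤ) ≤ ρ := by exact_mod_cast hρ
  have hρcz : (1:ℤ) ≤ ρc := by exact_mod_cast hρc
  have haa : dst a a ≤ 4 * ρ := by rw [FPX.dst_self]; positivity
  have htri := FPX.dst_tri c b a
  rw [FPX.dst_comm b a] at htri
  have hcb : (ρc:ℤ) + 16 * ρ < dst c b := by linarith
  have nab : a ≠ b := ne_of_dst (by linarith)
  have nca : c ≠ a := ne_of_dst (by linarith)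
  have ncb : c ≠ b := ne_of_dst (by linarith)
  have hn := FPX.a4_nonneg h0 h1 ρ
  have hbig := bigblk_box hρ ha1 ha2
  have hba : blk (bp a) ρ ⊆ boxE R := ((NP.ball_sub_tb hρ haa).trans (tb_big _)).trans hbig
  have hbb : blk (bp b) ρ ⊆ boxE R := ((NP.ball_sub_tb hρ hab4).trans (tb_big _)).trans hbig
  have hba' : dst b a = dst a b := FPX.dst_comm b a
  have hac' : dst a c = dst c a := FPX.dst_comm a c
  have hbc' : dst b c = dst c b := FPX.dst_comm b c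
  have step : PQ q (boxE R) (SD (Ae c) a b) ≤ PQ q (boxE R) (fun F => L4 ρ a (↑F : Set Edg) ∧
      (L4 ρ b (↑F : Set Edg) ∧ (L4 ρc c (↑F : Set Edg) ∧
        Bf (Ae c) (NP.tb ρ (NP.tl ρ a)) F))) := by
    apply Pr_mono hok
    intro F _ h
    refine ⟨?_, ?_, SD_L4 hρc (notMem_ball (by linarith)) (notMem_ball (by linarith)) h,
      SD_Bf' (Ae_mono' c) (NP.mem_tb hρ haa) (NP.mem_tb hρ hab4) h⟩
    · have h2 := (SD_swap nca ncb nab).1 h
      exact SD_L4 hρ (notMem_ball (by linarith)) (notMem_ball (by linarith)) h2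
    · have h2 := (SD_swap ncb nca nab.symm).1 (SD_comm.1 h)
      exact SD_L4 hρ (notMem_ball (by linarith)) (notMem_ball (by linarith)) h2
  have hcl : ∀ (e : Edg), dst a e ≤ 4 * ρ → (ρc:ℤ) + ρ < dst e c → ∀ F, F ⊆ boxE R →
      ((L4 ρc c (↑F : Set Edg) ∧ Bf (Ae c) (NP.tb ρ (NP.tl ρ a)) F) ↔
        (L4 ρc c (↑(F ∩ (boxE R \ blk (bp e) ρ)) : Set Edg) ∧
          Bf (Ae c) (NP.tb ρ (NP.tl ρ a)) (F ∩ (boxE R \ blk (bp e) ρ)))) := by
    intro e he hec F hF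
    have k1 := NP.Bf_local (f := Ae c) (b := NP.tb ρ (NP.tl ρ a)) (S := boxE R)
      (NP.ball_sub_tb hρ he) F hF
    have k2 : L4 ρc c (↑F : Set Edg) ↔ L4 ρc c (↑(F ∩ (boxE R \ blk (bp e) ρ)) : Set Edg) := by
      apply NP.L4_congr'
      intro x hx _
      rw [Finset.mem_inter, Finset.mem_sdiff]
      exact ⟨fun h => ⟨h, hF h, fun h' => ball_disj (by linarith) x h' hx⟩, fun h => h.1⟩
    rw [k1, k2]
  refine step.trans ((NP.indep_L4 h0 h1 hba ?_).trans ?_)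
  · intro F hF
    have k3 : L4 ρ b (↑F : Set Edg) ↔ L4 ρ b (↑(F ∩ (boxE R \ blk (bp a) ρ)) : Set Edg) :=
      L4_inter (fun x hx => Finset.mem_sdiff.2 ⟨hbb hx, ball_disj (by linarith) x hx⟩)
    rw [← k3, ← hcl a haa (by linarith) F hF]
  · have s2 : PQ q (boxE R) (fun F => L4 ρ b (↑F : Set Edg) ∧ (L4 ρc c (↑F : Set Edg) ∧
        Bf (Ae c) (NP.tb ρ (NP.tl ρ a)) F)) ≤ a4 q ρ * PQ q (boxE R)
      (fun F => L4 ρc c (↑F : Set Edg) ∧ Bf (Ae c) (NP.tb ρ (NP.tl ρ a)) F) := by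
      refine NP.indep_L4 h0 h1 hbb ?_
      intro F hF
      exact hcl b hab4 (by linarith) F hF
    rw [sq, mul_assoc]
    exact mul_le_mul_of_nonneg_left s2 hn

/-- The bound for a very close pair, far from the third edge. -/
theorem pair_tiny {q : ℝ} (h0 : 0 ≤ q) (h1 : q ≤ 1) {R ρc : ℕ} (hρc : 1 ≤ ρc)
    {a b c : Edg} (hab4 : dst a b ≤ 4) (hca : (ρc:ℤ) + 20 < dst c a) :
    PQ q (boxE R) (SD (Ae c) a b) ≤ 1 * PQ q (boxE R)
      (fun F => L4 ρc c (↑F : Set Edg) ∧ Bf (Ae c) (NP.tb 1 (NP.tl 1 a)) F) := by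
  have hok := okQ h0 h1
  rw [one_mul]
  apply Pr_mono hok
  intro F _ h
  have htri := FPX.dst_tri c b a
  rw [FPX.dst_comm b a] at htri
  refine ⟨SD_L4 hρc (notMem_ball (by linarith)) (notMem_ball (by linarith)) h,
      SD_Bf' (Ae_mono' c) (NP.mem_tb le_rfl ?_) (NP.mem_tb le_rfl ?_) h⟩
  · rw [FPX.dst_self]; norm_num
  · push_cast; linarith

/-- One class of pairs, for one isolated edge. -/
theorem tile_class {κ q : ℝ} {n : ℕ} (hW : Win q κ n) {R ρ ρc : ℕ} (hρ : 1 ≤ ρ) (hρc : 1 ≤ ρc)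
    (hn : 12 * ρ ≤ n) {c : Edg} (hcU : blk (bp c) ρc ⊆ boxE R) (G H : Finset Edg)
    (P : Edg → Edg → Prop) (hP : ∀ a b, P a b → dst a b ≤ 4 * ρ)
    (hG : ∀ a ∈ G, (ρc:ℤ) + 20 * ρ < dst c a ∧ |a.1| + 20 * (ρ:ℤ) ≤ R ∧
      |a.2.1| + 20 * (ρ:ℤ) ≤ R) {A : ℝ} (hA : 0 ≤ A)
    (hb : ∀ a ∈ G, ∀ b ∈ H, P a b → PQ q (boxE R) (SD (Ae c) a b) ≤ A * PQ q (boxE R)
      (fun F => L4 ρc c (↑F : Set Edg) ∧ Bf (Ae c) (NP.tb ρ (NP.tl ρ a)) F))
    {M : ℝ} (hM : Real.sqrt ((G.image (NP.tl ρ)).card : ℝ) ≤ M) :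
    ∑ a ∈ G, ∑ b ∈ H, ind (P a b) * PQ q (boxE R) (SD (Ae c) a b) ≤
      162 * 18 * 722 * κ⁻¹ ^ 4 * ((ρ:ℝ) ^ 4 * A * (a4 q ρc * M)) := by
  classical
  have h0 : 0 ≤ q := by linarith [hW.lo]
  have h1 : q ≤ 1 := by linarith [hW.hi]
  have hok := okQ h0 h1
  have hκ : 0 ≤ κ⁻¹ ^ 4 := by
    have := hW.kpos
    positivity
  set B := blk (bp c) ρc with hBdef
  set Y : ℤ × ℤ → ℝ := fun t => PQ q (boxE R)
    (fun F => L4 ρc c (↑F : Set Edg) ∧ Bf (Ae c) (NP.tb ρ t) F) with hY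
  have hY0 : ∀ t, 0 ≤ Y t := fun t => Pr_nonneg hok _ _
  have inner : ∀ a ∈ G, ∑ b ∈ H, ind (P a b) * PQ q (boxE R) (SD (Ae c) a b) ≤
      162 * (ρ : ℝ) ^ 2 * (A * Y (NP.tl ρ a)) := by
    intro a ha
    have hAB : 0 ≤ A * Y (NP.tl ρ a) := mul_nonneg hA (hY0 _)
    calc ∑ b ∈ H, ind (P a b) * PQ q (boxE R) (SD (Ae c) a b)
        ≤ ∑ b ∈ H, if dst a b ≤ 4 * ρ then A * Y (NP.tl ρ a) else 0 := by
          refine Finset.sum_le_sum fun g hg => ?_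
          by_cases hp : P a g
          · rw [ind_of hp, one_mul, if_pos (hP a g hp)]
            exact hb a ha g hg hp
          · rw [ind_not_of hp, zero_mul]
            split_ifs
            · exact hAB
            · exact le_rfl
      _ = (H.filter (fun g => dst a g ≤ 4 * ρ)).card * (A * Y (NP.tl ρ a)) := by
          rw [← Finset.sum_filter, Finset.sum_const, nsmul_eq_mul]
      _ ≤ 162 * (ρ : ℝ) ^ 2 * (A * Y (NP.tl ρ a)) :=
          mul_le_mul_of_nonneg_right (NP.card_near a ρ hρ _) hAB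
  set T : Finset (ℤ × ℤ) := G.image (NP.tl ρ) with hT
  have tile : ∑ t ∈ T, Y t ≤ a4 q ρc * (722 * κ⁻¹ ^ 4 * Real.sqrt T.card) := by
    calc ∑ t ∈ T, Y t ≤ ∑ t ∈ T, Ex (fun _ => q) B (fun w => ind (L4 ρc c (↑w : Set Edg)) *
          PQ q (boxE R \ B) (Bf (CO {src c} {tgt c} ↑(w.erase c)) (NP.tb ρ t))) := by
          apply Finset.sum_le_sum
          intro t ht
          rw [hT, Finset.mem_image] at ht
          obtain ⟨a, ha, rfl⟩ := ht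
          exact Bf_van h0 h1 hρc hcU (fun x hx => bigblk_sep hρ (hG a ha).1 (tb_big _ hx))
      _ = Ex (fun _ => q) B (fun w => ind (L4 ρc c (↑w : Set Edg)) * ∑ t ∈ T,
          PQ q (boxE R \ B) (Bf (CO {src c} {tgt c} ↑(w.erase c)) (NP.tb ρ t))) := by
          rw [← Ex_sum]
          apply Ex_congr
          intro w _
          rw [← Finset.mul_sum]
      _ ≤ Ex (fun _ => q) B (fun w => ind (L4 ρc c (↑w : Set Edg)) *
          (722 * κ⁻¹ ^ 4 * Real.sqrt T.card)) := by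
          apply Ex_mono hok
          intro w hw
          apply mul_le_mul_of_nonneg_left _ (ind_nonneg _)
          have hts := tile_sum hW (S := boxE R \ B) (I := {src c}) (J := {tgt c})
            (O := (↑(w.erase c) : Set Edg)) ?_ (s := 2 * ρ) (R := 6 * ρ) (K := 19) (by omega)
            (by omega) (by omega) (by norm_num) (by omega) T ?_ ?_
          · refine hts.trans (le_of_eq ?_)
            push_cast
            ring
          · rw [Finset.disjoint_coe, Finset.disjoint_left]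
            intro x hx hx'
            exact (Finset.mem_sdiff.mp hx').2 (hw (Finset.erase_subset _ _ hx))
          · intro t ht
            rw [hT, Finset.mem_image] at ht
            obtain ⟨a, ha, rfl⟩ := ht
            intro x hx
            rw [Finset.mem_sdiff]
            exact ⟨bigblk_box hρ (hG a ha).2.1 (hG a ha).2.2 hx, bigblk_sep hρ (hG a ha).1 hx⟩
          · intro t ht
            rw [hT, Finset.mem_image] at ht
            obtain ⟨a, ha, rfl⟩ := ht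
            have h3 := (hG a ha).1
            have h4 : (0:ℤ) ≤ ρc := Int.natCast_nonneg _
            exact bigblk_off hρ (by linarith)
      _ = PQ q B (fun w => L4 ρc c (↑w : Set Edg)) * (722 * κ⁻¹ ^ 4 * Real.sqrt T.card) := by
          rw [Ex_mul_right]
          rfl
      _ ≤ a4 q ρc * (722 * κ⁻¹ ^ 4 * Real.sqrt T.card) := by
          apply mul_le_mul_of_nonneg_right (pr_L4 h0 h1 (Finset.Subset.refl _))
          positivity
  have hfib : ∑ a ∈ G, 162 * (ρ : ℝ) ^ 2 * (A * Y (NP.tl ρ a)) ≤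
      162 * (ρ : ℝ) ^ 2 * A * (18 * (ρ : ℝ) ^ 2 * ∑ t ∈ T, Y t) := by
    have h2 : ∑ a ∈ G, 162 * (ρ : ℝ) ^ 2 * (A * Y (NP.tl ρ a)) =
        162 * (ρ : ℝ) ^ 2 * A * ∑ a ∈ G, Y (NP.tl ρ a) := by
      rw [Finset.mul_sum]
      refine Finset.sum_congr rfl fun e _ => ?_
      ring
    rw [h2]
    apply mul_le_mul_of_nonneg_left _ (by positivity)
    have h3 : ∑ a ∈ G, Y (NP.tl ρ a) =
        ∑ t ∈ T, ∑ a ∈ G.filter (fun a => NP.tl ρ a = t), Y (NP.tl ρ a) :=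
      (Finset.sum_fiberwise_of_maps_to (fun e he => Finset.mem_image_of_mem _ he) _).symm
    rw [h3, Finset.mul_sum]
    refine Finset.sum_le_sum fun t _ => ?_
    have h4 : ∑ a ∈ G.filter (fun a => NP.tl ρ a = t), Y (NP.tl ρ a) =
        (G.filter (fun a => NP.tl ρ a = t)).card * Y t := by
      rw [← nsmul_eq_mul, ← Finset.sum_const]
      refine Finset.sum_congr rfl fun e he => ?_
      rw [(Finset.mem_filter.mp he).2]
    rw [h4]
    exact mul_le_mul_of_nonneg_right (NP.card_tile ρ hρ G t) (hY0 t)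
  have hac := FPX.a4_nonneg h0 h1 ρc
  calc ∑ a ∈ G, ∑ b ∈ H, ind (P a b) * PQ q (boxE R) (SD (Ae c) a b)
      ≤ ∑ a ∈ G, 162 * (ρ : ℝ) ^ 2 * (A * Y (NP.tl ρ a)) := Finset.sum_le_sum inner
    _ ≤ 162 * (ρ : ℝ) ^ 2 * A * (18 * (ρ : ℝ) ^ 2 * ∑ t ∈ T, Y t) := hfib
    _ ≤ 162 * (ρ : ℝ) ^ 2 * A * (18 * (ρ : ℝ) ^ 2 * (a4 q ρc * (722 * κ⁻¹ ^ 4 * M))) := by
        apply mul_le_mul_of_nonneg_left _ (by positivity)
        apply mul_le_mul_of_nonneg_left _ (by positivity)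
        refine tile.trans ?_
        apply mul_le_mul_of_nonneg_left _ hac
        apply mul_le_mul_of_nonneg_left hM (by positivity)
    _ = 162 * 18 * 722 * κ⁻¹ ^ 4 * ((ρ:ℝ) ^ 4 * A * (a4 q ρc * M)) := by ring

/-- The number of the tiles of the edges near `c`. -/
theorem card_tl {c : Edg} {j k : ℕ} (hk : k ≤ j) (G : Finset Edg)
    (hG : ∀ a ∈ G, dst c a ≤ 4 * 2 ^ j) :
    Real.sqrt ((G.image (NP.tl (2^k))).card : ℝ) ≤ 5 * 2 ^ (j - k) := by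
  classical
  set m : ℕ := 2 * 2 ^ (j - k) with hm
  have hpow : (2:ℤ) ^ j = 2 ^ (j - k) * 2 ^ k := by rw [← pow_add]; congr 1; omega
  have hpos : (0:ℤ) < 2 * 2 ^ k := by positivity
  have hq : ∀ x y : ℤ, |x - y| ≤ 4 * 2 ^ j → (y + ((2^k : ℕ):ℤ)) / ((2 * 2^k : ℕ):ℤ) ≤
      (x + ((2^k : ℕ):ℤ)) / ((2 * 2^k : ℕ):ℤ) + m := by
    intro x y h
    rw [abs_le] at h
    push_cast
    have e1 : (x + 2 ^ k) / (2 * 2 ^ k) + (m:ℤ) = (x + 2 ^ k + m * (2 * 2 ^ k)) / (2 * 2 ^ k) := by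
      rw [Int.add_mul_ediv_right _ _ hpos.ne']
    rw [e1]
    apply Int.ediv_le_ediv hpos
    rw [hm]
    push_cast
    rw [hpow] at h
    nlinarith [h.1, h.2]
  have hsub : G.image (NP.tl (2^k)) ⊆
      (Finset.Icc ((NP.tl (2^k) c).1 - m) ((NP.tl (2^k) c).1 + m)) ×ˢ
      (Finset.Icc ((NP.tl (2^k) c).2 - m) ((NP.tl (2^k) c).2 + m)) := by
    intro t ht
    rw [Finset.mem_image] at ht
    obtain ⟨a, ha, rfl⟩ := ht
    have h := hG a ha
    unfold dst at h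
    have h1 := (le_max_left _ _).trans h
    have h2 := (le_max_right _ _).trans h
    have h1' : |a.1 - c.1| ≤ 4 * 2 ^ j := by rw [abs_sub_comm]; exact h1
    have h2' : |a.2.1 - c.2.1| ≤ 4 * 2 ^ j := by rw [abs_sub_comm]; exact h2
    have g1 := hq _ _ h1
    have g2 := hq _ _ h2
    have g3 := hq _ _ h1'
    have g4 := hq _ _ h2'
    unfold NP.tl
    rw [Finset.mem_product, Finset.mem_Icc, Finset.mem_Icc]
    simp only
    refine ⟨⟨?_, ?_⟩, ?_, ?_⟩ <;> linarith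
  have hcard := Finset.card_le_card hsub
  rw [Finset.card_product, Int.card_Icc, Int.card_Icc] at hcard
  have e1 : ((NP.tl (2^k) c).1 + (m:ℤ) + 1 - ((NP.tl (2^k) c).1 - m)).toNat = 2 * m + 1 := by omega
  have e2 : ((NP.tl (2^k) c).2 + (m:ℤ) + 1 - ((NP.tl (2^k) c).2 - m)).toNat = 2 * m + 1 := by omega
  rw [e1, e2] at hcard
  have h3 : ((G.image (NP.tl (2^k))).card : ℝ) ≤ (5 * 2 ^ (j - k)) ^ 2 := by
    have h4 : ((G.image (NP.tl (2^k))).card : ℝ) ≤ (2 * m + 1) * (2 * m + 1) := by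
      exact_mod_cast hcard
    refine h4.trans ?_
    have h5 : (1:ℝ) ≤ 2 ^ (j - k) := one_le_pow₀ (by norm_num)
    rw [hm]
    push_cast
    nlinarith
  calc Real.sqrt ((G.image (NP.tl (2^k))).card : ℝ) ≤ Real.sqrt ((5 * 2 ^ (j - k)) ^ 2) :=
        Real.sqrt_le_sqrt h3
    _ = 5 * 2 ^ (j - k) := Real.sqrt_sq (by positivity)

end Pool.Agent.TH992
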