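import Pool.Agent.TH992.K.Gam

/-!
Sum of the third differences over all triples of edges of a box.
-/

set_option autoImplicit false

namespace Pool.Agent.TH992

open H974 H12S H973N Finset

/-- Edges with base point in the box `[-N, N]²`. -/
noncomputable def cor (N : ℕ) : Finset Edg :=
  Finset.Icc (-(N:ℤ)) N ×ˢ (Finset.Icc (-(N:ℤ)) N ×ˢ (Finset.univ : Finset Bool))

theorem mem_cor {N : ℕ} {e : Edg} : e ∈ cor N ↔ |e.1| ≤ N ∧ |e.2.1| ≤ N := by
  unfold cor
  simp only [Finset.mem_product, Finset.mem_Icc, Finset.mem_univ, and_true, abs_le]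

theorem card_cor (N : ℕ) : (cor N).card = 2 * (2 * N + 1) ^ 2 := by
  unfold cor
  rw [Finset.card_product, Finset.card_product, Int.card_Icc]
  have e1 : ((N:ℤ) + 1 - -(N:ℤ)).toNat = 2 * N + 1 := by omega
  simp only [Finset.card_univ, Fintype.card_bool, e1]
  ring

theorem card_cor_le {N : ℕ} (hN : 1 ≤ N) : ((cor N).card : ℝ) ≤ 18 * (N:ℝ) ^ 2 := by
  rw [card_cor]
  push_cast
  have : (1:ℝ) ≤ N := by exact_mod_cast hN
  nlinarith

theorem dst_cor {N : ℕ} {a b : Edg} (ha : a ∈ cor N) (hb : b ∈ cor N) : dst a b ≤ 2 * N := by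
  rw [mem_cor, abs_le, abs_le] at ha hb
  unfold dst
  apply max_le <;> rw [abs_le] <;> constructor <;> linarith [ha.1.1, ha.1.2, ha.2.1, ha.2.2,
    hb.1.1, hb.1.2, hb.2.1, hb.2.2]

/-- dyadic classes -/
theorem dyad_class {J : ℕ} {x : ℤ} (h : x ≤ 4 * 2 ^ J) : x ≤ 2 ∨ ∃ j ∈ Finset.range (J + 1),
    2 * 2 ^ j < x ∧ x ≤ 4 * 2 ^ j := by
  induction J with
  | zero =>
    by_cases hx : x ≤ 2
    · exact Or.inl hx
    · refine Or.inr ⟨0, by simp, ?_, ?_⟩
      · norm_num; omega
      · exact h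
  | succ J ih =>
    by_cases hx : x ≤ 4 * 2 ^ J
    · rcases ih hx with h' | ⟨j, hj, h'⟩
      · exact Or.inl h'
      · exact Or.inr ⟨j, by rw [Finset.mem_range] at hj ⊢; omega, h'⟩
    · refine Or.inr ⟨J + 1, by simp, ?_, h⟩
      push Not at hx
      rw [pow_succ]
      linarith

/-- The bound for the sums over the pairs, for one edge. -/
noncomputable def V3 (q : ℝ) (J : ℕ) : ℝ :=
  1 + ∑ k ∈ Finset.range (J + 1), (16:ℝ) ^ k * (a4 q (2^k)) ^ 3 +
    ∑ j ∈ Finset.range (J + 1), a4 q (2^j) * W2s q j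

theorem W2s_nonneg {q : ℝ} (K : ℕ) : 0 ≤ W2s q K := by
  unfold W2s
  apply add_nonneg (by positivity)
  apply Finset.sum_nonneg
  intro k _
  positivity

theorem V3_nonneg {q : ℝ} (h0 : 0 ≤ q) (h1 : q ≤ 1) (J : ℕ) : 0 ≤ V3 q J := by
  unfold V3
  have a1 : 0 ≤ ∑ k ∈ Finset.range (J + 1), (16:ℝ) ^ k * (a4 q (2^k)) ^ 3 :=
    Finset.sum_nonneg (fun k _ => by
      have := FPX.a4_nonneg h0 h1 (2^k)
      positivity)
  have a2 : 0 ≤ ∑ j ∈ Finset.range (J + 1), a4 q (2^j) * W2s q j :=
    Finset.sum_nonneg (fun j _ => mul_nonneg (FPX.a4_nonneg h0 h1 (2^j)) (W2s_nonneg j))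
  linarith

/-- The condition on the triples: distinct edges, and `a, b` is the closest pair. -/
def Cl (c a b : Edg) : Prop :=
  a ≠ b ∧ c ≠ a ∧ c ≠ b ∧ dst a b ≤ dst c a ∧ dst a b ≤ dst c b

theorem one_sum (κ : ℝ) (hκ : 0 < κ) : ∃ C : ℝ, 0 < C ∧ ∀ (q : ℝ) (n : ℕ), Win q κ n →
    ∀ (J R : ℕ), 12 * 2 ^ J ≤ n → 21 * 2 ^ J ≤ R → ∀ G : Finset Edg,
    (∀ a ∈ G, |a.1| + 20 * 2 ^ J ≤ R ∧ |a.2.1| + 20 * 2 ^ J ≤ R) → 
    (∀ a ∈ G, ∀ b ∈ G, dst a b ≤ 4 * 2 ^ J) → ∀ c ∈ G,
    ∑ a ∈ G, ∑ b ∈ G, ind (Cl c a b) * PQ q (boxE R) (SD (Ae c) a b) ≤ C * V3 q J := by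
  classical
  set D : ℝ := 162 * 18 * 722 * κ⁻¹ ^ 4 with hD
  have hD0 : 0 ≤ D := by positivity
  refine ⟨(162 * 32 ^ 2) * 162 + D * 5 + D * 5 * 1, by positivity, ?_⟩
  intro q n hW J R hn hRJ G hG hGd c hc
  have h0 : 0 ≤ q := by linarith [hW.lo]
  have h1 : q ≤ 1 := by linarith [hW.hi]
  have hok := okQ h0 h1
  set T : Edg → Edg → ℝ := fun a b => PQ q (boxE R) (SD (Ae c) a b) with hT
  have hT0 : ∀ a b, 0 ≤ T a b := fun a b => Pr_nonneg hok _ _
  have hT1 : ∀ a b, T a b ≤ 1 := fun a b => Pr_le_one hok _ _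
  have ha4 : ∀ k, 0 ≤ a4 q (2^k) := fun k => FPX.a4_nonneg h0 h1 _
  have hpowJ : ∀ k ≤ J, (2:ℤ) ^ k ≤ 2 ^ J := fun k hk =>
    pow_le_pow_right₀ (by norm_num) hk
  have hball : ∀ a ∈ G, ∀ k ≤ J, blk (bp a) (2^k) ⊆ boxE R := by
    intro a ha k hk
    have h2 := hG a ha
    have h3 := hpowJ k hk
    have h4 : (0:ℤ) < 2 ^ k := by positivity
    apply ball_sub_box <;> push_cast <;> linarith [h2.1, h2.2]
  set E0 : Edg → Edg → ℝ := fun a b => ind (dst c a ≤ 128 ∧ dst a b ≤ 4) with hE0
  set E1 : ℕ → Edg → Edg → ℝ := fun k a b =>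
    ind (dst c a ≤ 128 * 2 ^ k ∧ dst a b ≤ 4 * 2 ^ k) * (a4 q (2^k)) ^ 3 with hE1
  set E2 : ℕ → Edg → Edg → ℝ := fun j a b =>
    ind ((6 ≤ j ∧ 2 * 2 ^ j < dst c a ∧ dst c a ≤ 4 * 2 ^ j) ∧ dst a b ≤ 2) * T a b with hE2
  set E3 : ℕ → ℕ → Edg → Edg → ℝ := fun j k a b =>
    ind ((k + 6 ≤ j ∧ 2 * 2 ^ j < dst c a ∧ dst c a ≤ 4 * 2 ^ j) ∧
      (2 * 2 ^ k < dst a b ∧ dst a b ≤ 4 * 2 ^ k)) * T a b with hE3
  have n1 : ∀ k a b, 0 ≤ E1 k a b := fun k a b => mul_nonneg (ind_nonneg _) (pow_nonneg (ha4 k) 3)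
  have n2 : ∀ j a b, 0 ≤ E2 j a b := fun j a b => mul_nonneg (ind_nonneg _) (hT0 a b)
  have n3 : ∀ j k a b, 0 ≤ E3 j k a b := fun j k a b => mul_nonneg (ind_nonneg _) (hT0 a b)
  -- pointwise
  have point : ∀ a ∈ G, ∀ b ∈ G, ind (Cl c a b) * T a b ≤ E0 a b +
      ∑ k ∈ Finset.range (J + 1), E1 k a b + ∑ j ∈ Finset.range (J + 1), E2 j a b +
      ∑ j ∈ Finset.range (J + 1), ∑ k ∈ Finset.range (J + 1), E3 j k a b := by
    intro a ha b hb
    have m0 : 0 ≤ E0 a b := ind_nonneg _
    have m1 : 0 ≤ ∑ k ∈ Finset.range (J + 1), E1 k a b := Finset.sum_nonneg fun k _ => n1 k a b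
    have m2 : 0 ≤ ∑ j ∈ Finset.range (J + 1), E2 j a b := Finset.sum_nonneg fun j _ => n2 j a b
    have m3' : ∀ j, 0 ≤ ∑ k ∈ Finset.range (J + 1), E3 j k a b := fun j =>
      Finset.sum_nonneg fun k _ => n3 j k a b
    have m3 : 0 ≤ ∑ j ∈ Finset.range (J + 1), ∑ k ∈ Finset.range (J + 1), E3 j k a b :=
      Finset.sum_nonneg fun j _ => m3' j
    by_cases hcl : Cl c a b
    · rw [ind_of hcl, one_mul]
      obtain ⟨nab, nca, ncb, l1, l2⟩ := hcl
      have hca4 := hGd c hc a ha
      have hab4 := hGd a ha b hb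
      have t1 := hT1 a b
      -- the tiny case
      have tiny : dst c a ≤ 128 → dst a b ≤ 4 → T a b ≤ E0 a b := by
        intro k1 k2
        rw [hE0]
        simp only
        rw [ind_of ⟨k1, k2⟩]
        exact t1
      rcases dyad_class hca4 with h2 | ⟨j, hj, j1, j2⟩
      · have := tiny (by linarith) (by linarith)
        linarith
      · rcases dyad_class hab4 with h3 | ⟨k, hk, k1, k2⟩
        · by_cases hj6 : 6 ≤ j
          · have e2 : T a b = E2 j a b := by
              rw [hE2]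
              simp only
              rw [ind_of ⟨⟨hj6, j1, j2⟩, h3⟩, one_mul]
            have := Finset.single_le_sum (f := fun j => E2 j a b) (fun j _ => n2 j a b) hj
            linarith
          · have hp : (2:ℤ) ^ j ≤ 2 ^ 5 := pow_le_pow_right₀ (by norm_num) (by omega)
            have := tiny (by linarith) (by linarith)
            linarith
        · by_cases hjk : k + 6 ≤ j
          · have e3 : T a b = E3 j k a b := by
              rw [hE3]
              simp only
              rw [ind_of ⟨⟨hjk, j1, j2⟩, k1, k2⟩, one_mul]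
            have s1 := Finset.single_le_sum (f := fun k => E3 j k a b) (fun k _ => n3 j k a b) hk
            have s2 := Finset.single_le_sum
              (f := fun j => ∑ k ∈ Finset.range (J + 1), E3 j k a b) (fun j _ => m3' j) hj
            linarith
          · have hk' : k ≤ J := by rw [Finset.mem_range] at hk; omega
            have hp : (2:ℤ) ^ j ≤ 2 ^ (k + 5) := pow_le_pow_right₀ (by norm_num) (by omega)
            rw [pow_add] at hp
            have key : T a b ≤ E1 k a b := by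
              rw [hE1]
              simp only
              rw [ind_of ⟨by linarith, k2⟩, one_mul]
              refine three_L4 h0 h1 Nat.one_le_two_pow ?_ ?_ ?_ (hball a ha k hk')
                (hball b hb k hk') (hball c hc k hk') <;> push_cast <;> linarith
            have := Finset.single_le_sum (f := fun k => E1 k a b) (fun k _ => n1 k a b) hk
            linarith
    · rw [ind_not_of hcl, zero_mul]
      linarith
  -- sum of E0
  have sE0 : ∑ a ∈ G, ∑ b ∈ G, E0 a b ≤ (162 * 32 ^ 2) * 162 := by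
    have i1 : ∀ a, ∑ b ∈ G, E0 a b ≤ if dst c a ≤ 4 * ((32 : ℕ) : ℤ) then (162:ℝ) else 0 := by
      intro a
      by_cases hca : dst c a ≤ 4 * ((32 : ℕ) : ℤ)
      · rw [if_pos hca]
        calc ∑ b ∈ G, E0 a b ≤ ∑ b ∈ G, if dst a b ≤ 4 * ((1:ℕ):ℤ) then (1:ℝ) else 0 := by
              apply Finset.sum_le_sum
              intro b _
              by_cases hab : dst a b ≤ 4 * ((1:ℕ):ℤ)
              · rw [if_pos hab]; exact ind_le_one _
              · rw [if_neg hab, hE0]
                simp only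
                rw [ind_not_of]
                rintro ⟨_, h⟩
                apply hab
                push_cast
                linarith
          _ = ((G.filter (fun b => dst a b ≤ 4 * ((1:ℕ):ℤ))).card : ℝ) := by
              rw [← Finset.sum_filter, Finset.sum_const, nsmul_eq_mul, mul_one]
          _ ≤ 162 := by
              have := NP.card_near a 1 le_rfl G
              simpa using this
      · rw [if_neg hca]
        apply le_of_eq
        apply Finset.sum_eq_zero
        intro b _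
        rw [hE0]
        simp only
        apply ind_not_of
        rintro ⟨h, _⟩
        apply hca
        push_cast
        linarith
    calc ∑ a ∈ G, ∑ b ∈ G, E0 a b
        ≤ ∑ a ∈ G, if dst c a ≤ 4 * ((32 : ℕ) : ℤ) then (162:ℝ) else 0 :=
          Finset.sum_le_sum fun a _ => i1 a
      _ = ((G.filter (fun a => dst c a ≤ 4 * ((32:ℕ):ℤ))).card : ℝ) * 162 := by
          rw [← Finset.sum_filter, Finset.sum_const, nsmul_eq_mul]
      _ ≤ (162 * 32 ^ 2) * 162 := by
          apply mul_le_mul_of_nonneg_right _ (by norm_num)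
          have := NP.card_near c 32 (by norm_num) G
          simpa using this
  -- sum of E1
  have sE1 : ∀ k, ∑ a ∈ G, ∑ b ∈ G, E1 k a b ≤
      (162 * 32 ^ 2) * 162 * ((16:ℝ) ^ k * (a4 q (2^k)) ^ 3) := by
    intro k
    have hA : 0 ≤ (a4 q (2^k)) ^ 3 := pow_nonneg (ha4 k) 3
    have i1 : ∀ a, ∑ b ∈ G, E1 k a b ≤ if dst c a ≤ 4 * ((32 * 2 ^ k : ℕ) : ℤ) then
        162 * ((2^k : ℕ):ℝ) ^ 2 * (a4 q (2^k)) ^ 3 else 0 := by
      intro a
      by_cases hca : dst c a ≤ 4 * ((32 * 2 ^ k : ℕ) : ℤ)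
      · rw [if_pos hca]
        calc ∑ b ∈ G, E1 k a b ≤ ∑ b ∈ G, if dst a b ≤ 4 * ((2 ^ k:ℕ):ℤ) then
              (a4 q (2^k)) ^ 3 else 0 := by
              apply Finset.sum_le_sum
              intro b _
              by_cases hab : dst a b ≤ 4 * ((2 ^ k:ℕ):ℤ)
              · rw [if_pos hab]
                exact mul_le_of_le_one_left hA (ind_le_one _)
              · rw [if_neg hab, hE1]
                simp only
                rw [ind_not_of, zero_mul]
                rintro ⟨_, h⟩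
                apply hab
                push_cast
                exact h
          _ = ((G.filter (fun b => dst a b ≤ 4 * ((2 ^ k:ℕ):ℤ))).card : ℝ) *
              (a4 q (2^k)) ^ 3 := by
              rw [← Finset.sum_filter, Finset.sum_const, nsmul_eq_mul]
          _ ≤ 162 * ((2^k : ℕ):ℝ) ^ 2 * (a4 q (2^k)) ^ 3 :=
              mul_le_mul_of_nonneg_right (NP.card_near a (2^k) Nat.one_le_two_pow G) hA
      · rw [if_neg hca]
        apply le_of_eq
        apply Finset.sum_eq_zero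
        intro b _
        rw [hE1]
        simp only
        rw [ind_not_of, zero_mul]
        rintro ⟨h, _⟩
        apply hca
        push_cast
        linarith
    calc ∑ a ∈ G, ∑ b ∈ G, E1 k a b
        ≤ ∑ a ∈ G, if dst c a ≤ 4 * ((32 * 2 ^ k : ℕ) : ℤ) then
          162 * ((2^k : ℕ):ℝ) ^ 2 * (a4 q (2^k)) ^ 3 else 0 := Finset.sum_le_sum fun a _ => i1 a
      _ = ((G.filter (fun a => dst c a ≤ 4 * ((32 * 2 ^ k : ℕ):ℤ))).card : ℝ) *
          (162 * ((2^k : ℕ):ℝ) ^ 2 * (a4 q (2^k)) ^ 3) := by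
          rw [← Finset.sum_filter, Finset.sum_const, nsmul_eq_mul]
      _ ≤ (162 * ((32 * 2 ^ k : ℕ):ℝ) ^ 2) * (162 * ((2^k : ℕ):ℝ) ^ 2 * (a4 q (2^k)) ^ 3) := by
          apply mul_le_mul_of_nonneg_right _ (by positivity)
          exact NP.card_near c (32 * 2 ^ k) (by
            have : 1 ≤ 2 ^ k := Nat.one_le_two_pow
            omega) G
      _ = (162 * 32 ^ 2) * 162 * ((16:ℝ) ^ k * (a4 q (2^k)) ^ 3) := by
          have h16 : (16:ℝ) ^ k = ((2:ℝ) ^ k) ^ 4 := by
            rw [← pow_mul, mul_comm, pow_mul]; norm_num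
          rw [h16]
          push_cast
          ring
  -- sum of E2
  have sE2 : ∀ j ∈ Finset.range (J + 1), ∑ a ∈ G, ∑ b ∈ G, E2 j a b ≤
      D * 5 * (a4 q (2^j) * 2 ^ j) := by
    intro j hj
    have hjJ : j ≤ J := by rw [Finset.mem_range] at hj; omega
    by_cases hj6 : 6 ≤ j
    · set G' := G.filter (fun a => 2 * 2 ^ j < dst c a ∧ dst c a ≤ 4 * 2 ^ j) with hG'
      have e1 : ∑ a ∈ G, ∑ b ∈ G, E2 j a b = ∑ a ∈ G', ∑ b ∈ G, ind (dst a b ≤ 2) * T a b := by
        rw [hG', Finset.sum_filter]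
        apply Finset.sum_congr rfl
        intro a _
        by_cases hca : 2 * 2 ^ j < dst c a ∧ dst c a ≤ 4 * 2 ^ j
        · rw [if_pos hca]
          apply Finset.sum_congr rfl
          intro b _
          rw [hE2]
          simp only
          congr 1
          apply ind_congr
          exact ⟨fun h => h.2, fun h => ⟨⟨hj6, hca⟩, h⟩⟩
        · rw [if_neg hca]
          apply Finset.sum_eq_zero
          intro b _
          rw [hE2]
          simp only
          rw [ind_not_of, zero_mul]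
          exact fun h => hca h.1.2
      rw [e1]
      have h64 : (64:ℤ) ≤ 2 ^ j := by
        have : (2:ℤ) ^ 6 ≤ 2 ^ j := pow_le_pow_right₀ (by norm_num) hj6
        linarith
      have h64J : (64:ℤ) ≤ 2 ^ J := h64.trans (hpowJ j hjJ)
      have htc := tile_class hW (R := R) (ρ := 1) (ρc := 2^j) le_rfl Nat.one_le_two_pow
        (by
          have : 1 ≤ 2 ^ J := Nat.one_le_two_pow
          omega) (hball c hc j hjJ) G' G (fun a b => dst a b ≤ 2)
        (fun a b h => by push_cast; linarith) ?_ zero_le_one ?_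
        (M := 5 * 2 ^ j) ?_
      · refine htc.trans (le_of_eq ?_)
        rw [hD]
        push_cast
        ring
      · intro a ha
        rw [hG', Finset.mem_filter] at ha
        have h2 := hG a ha.1
        push_cast
        refine ⟨by linarith [ha.2.1], by linarith [h2.1], by linarith [h2.2]⟩
      · intro a ha b _ hp
        rw [hG', Finset.mem_filter] at ha
        exact pair_tiny h0 h1 Nat.one_le_two_pow (by linarith) (by push_cast; linarith [ha.2.1])
      · have := card_tl (c := c) (j := j) (k := 0) (Nat.zero_le _) G'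
          (fun a ha => by rw [hG', Finset.mem_filter] at ha; exact ha.2.2)
        simpa using this
    · have e1 : ∑ a ∈ G, ∑ b ∈ G, E2 j a b = 0 := by
        apply Finset.sum_eq_zero
        intro a _
        apply Finset.sum_eq_zero
        intro b _
        rw [hE2]
        simp only
        rw [ind_not_of, zero_mul]
        exact fun h => hj6 h.1.1
      rw [e1]
      have := ha4 j
      positivity
  -- sum of E3
  have sE3 : ∀ j ∈ Finset.range (J + 1), ∀ k ∈ Finset.range (J + 1),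
      ∑ a ∈ G, ∑ b ∈ G, E3 j k a b ≤
      D * 5 * (a4 q (2^j) * if k ∈ Finset.range (j + 1) then
        (16:ℝ) ^ k * (a4 q (2^k)) ^ 2 * 2 ^ (j - k) else 0) := by
    intro j hj k hk
    have hjJ : j ≤ J := by rw [Finset.mem_range] at hj; omega
    by_cases hjk : k + 6 ≤ j
    · have hkj : k ∈ Finset.range (j + 1) := by rw [Finset.mem_range]; omega
      rw [if_pos hkj]
      set G' := G.filter (fun a => 2 * 2 ^ j < dst c a ∧ dst c a ≤ 4 * 2 ^ j) with hG'
      have e1 : ∑ a ∈ G, ∑ b ∈ G, E3 j k a b = ∑ a ∈ G', ∑ b ∈ G,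
          ind (2 * 2 ^ k < dst a b ∧ dst a b ≤ 4 * 2 ^ k) * T a b := by
        rw [hG', Finset.sum_filter]
        apply Finset.sum_congr rfl
        intro a _
        by_cases hca : 2 * 2 ^ j < dst c a ∧ dst c a ≤ 4 * 2 ^ j
        · rw [if_pos hca]
          apply Finset.sum_congr rfl
          intro b _
          rw [hE3]
          simp only
          congr 1
          apply ind_congr
          exact ⟨fun h => h.2, fun h => ⟨⟨hjk, hca⟩, h⟩⟩
        · rw [if_neg hca]
          apply Finset.sum_eq_zero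
          intro b _
          rw [hE3]
          simp only
          rw [ind_not_of, zero_mul]
          exact fun h => hca h.1.2
      rw [e1]
      have h64 : 64 * (2:ℤ) ^ k ≤ 2 ^ j := by
        have h5 : (2:ℤ) ^ (k + 6) ≤ 2 ^ j := pow_le_pow_right₀ (by norm_num) hjk
        rw [pow_add] at h5
        linarith
      have hkJ : (2:ℤ) ^ k ≤ 2 ^ J := hpowJ k (by omega)
      have hk0 : (0:ℤ) < 2 ^ k := by positivity
      have htc := tile_class hW (R := R) (ρ := 2^k) (ρc := 2^j) Nat.one_le_two_pow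
        Nat.one_le_two_pow
        (by
          have : 2 ^ k ≤ 2 ^ J := Nat.pow_le_pow_right (by norm_num) (by omega)
          omega) (hball c hc j hjJ) G' G (fun a b => 2 * 2 ^ k < dst a b ∧ dst a b ≤ 4 * 2 ^ k)
        (fun a b h => by push_cast; exact h.2) ?_ (sq_nonneg (a4 q (2^k))) ?_
        (M := 5 * 2 ^ (j - k)) ?_
      · refine htc.trans (le_of_eq ?_)
        have h16 : (16:ℝ) ^ k = ((2:ℝ) ^ k) ^ 4 := by
          rw [← pow_mul, mul_comm, pow_mul]; norm_num
        rw [hD, h16]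
        push_cast
        ring
      · intro a ha
        rw [hG', Finset.mem_filter] at ha
        have h2 := hG a ha.1
        push_cast
        refine ⟨by linarith [ha.2.1], by linarith [h2.1], by linarith [h2.2]⟩
      · intro a ha b _ hp
        rw [hG', Finset.mem_filter] at ha
        have h2 := hG a ha.1
        refine pair_tile h0 h1 Nat.one_le_two_pow Nat.one_le_two_pow ?_ ?_ ?_ ?_ ?_
        · push_cast; exact hp.1
        · push_cast; exact hp.2
        · push_cast; linarith [ha.2.1]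
        · push_cast; linarith [h2.1]
        · push_cast; linarith [h2.2]
      · exact card_tl (c := c) (by omega) G'
          (fun a ha => by rw [hG', Finset.mem_filter] at ha; exact ha.2.2)
    · have e1 : ∑ a ∈ G, ∑ b ∈ G, E3 j k a b = 0 := by
        apply Finset.sum_eq_zero
        intro a _
        apply Finset.sum_eq_zero
        intro b _
        rw [hE3]
        simp only
        rw [ind_not_of, zero_mul]
        exact fun h => hjk h.1.1
      rw [e1]
      have := ha4 j
      split_ifs <;> positivity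
  -- assembly
  have hsum : ∑ a ∈ G, ∑ b ∈ G, ind (Cl c a b) * T a b ≤ ∑ a ∈ G, ∑ b ∈ G, E0 a b +
      ∑ k ∈ Finset.range (J + 1), ∑ a ∈ G, ∑ b ∈ G, E1 k a b +
      ∑ j ∈ Finset.range (J + 1), ∑ a ∈ G, ∑ b ∈ G, E2 j a b +
      ∑ j ∈ Finset.range (J + 1), ∑ k ∈ Finset.range (J + 1), ∑ a ∈ G, ∑ b ∈ G, E3 j k a b := by
    have e1 : ∑ k ∈ Finset.range (J + 1), ∑ a ∈ G, ∑ b ∈ G, E1 k a b =
        ∑ a ∈ G, ∑ b ∈ G, ∑ k ∈ Finset.range (J + 1), E1 k a b := by
      rw [Finset.sum_comm]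
      apply Finset.sum_congr rfl
      intro a _
      rw [Finset.sum_comm]
    have e2 : ∑ j ∈ Finset.range (J + 1), ∑ a ∈ G, ∑ b ∈ G, E2 j a b =
        ∑ a ∈ G, ∑ b ∈ G, ∑ j ∈ Finset.range (J + 1), E2 j a b := by
      rw [Finset.sum_comm]
      apply Finset.sum_congr rfl
      intro a _
      rw [Finset.sum_comm]
    have e3 : ∑ j ∈ Finset.range (J + 1), ∑ k ∈ Finset.range (J + 1),
        ∑ a ∈ G, ∑ b ∈ G, E3 j k a b = ∑ a ∈ G, ∑ b ∈ G, ∑ j ∈ Finset.range (J + 1),
          ∑ k ∈ Finset.range (J + 1), E3 j k a b := by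
      have e4 : ∀ j, ∑ k ∈ Finset.range (J + 1), ∑ a ∈ G, ∑ b ∈ G, E3 j k a b =
          ∑ a ∈ G, ∑ b ∈ G, ∑ k ∈ Finset.range (J + 1), E3 j k a b := by
        intro j
        rw [Finset.sum_comm]
        apply Finset.sum_congr rfl
        intro a _
        rw [Finset.sum_comm]
      rw [Finset.sum_congr rfl (fun j _ => e4 j), Finset.sum_comm]
      apply Finset.sum_congr rfl
      intro a _
      rw [Finset.sum_comm]
    rw [e1, e2, e3, ← Finset.sum_add_distrib, ← Finset.sum_add_distrib, ← Finset.sum_add_distrib]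
    apply Finset.sum_le_sum
    intro a ha
    rw [← Finset.sum_add_distrib, ← Finset.sum_add_distrib, ← Finset.sum_add_distrib]
    exact Finset.sum_le_sum fun b hb => point a ha b hb
  set X1 : ℝ := ∑ k ∈ Finset.range (J + 1), (16:ℝ) ^ k * (a4 q (2^k)) ^ 3 with hX1
  set X2 : ℝ := ∑ j ∈ Finset.range (J + 1), a4 q (2^j) * W2s q j with hX2
  have hX1' : 0 ≤ X1 := Finset.sum_nonneg (fun k _ => mul_nonneg (by positivity)
    (pow_nonneg (ha4 k) 3))
  have hX2' : 0 ≤ X2 := Finset.sum_nonneg (fun j _ => mul_nonneg (ha4 j) (W2s_nonneg j))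
  have t1 : ∑ k ∈ Finset.range (J + 1), ∑ a ∈ G, ∑ b ∈ G, E1 k a b ≤
      (162 * 32 ^ 2) * 162 * X1 := by
    rw [hX1, Finset.mul_sum]
    exact Finset.sum_le_sum fun k _ => sE1 k
  have t2 : ∑ j ∈ Finset.range (J + 1), ∑ a ∈ G, ∑ b ∈ G, E2 j a b ≤ D * 5 * X2 := by
    rw [hX2, Finset.mul_sum]
    apply Finset.sum_le_sum
    intro j hj
    refine (sE2 j hj).trans ?_
    apply mul_le_mul_of_nonneg_left _ (by positivity)
    apply mul_le_mul_of_nonneg_left _ (ha4 j)
    unfold W2s
    have : 0 ≤ ∑ k ∈ Finset.range (j + 1), (16:ℝ)^k * (a4 q (2^k))^2 * (2:ℝ)^(j - k) :=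
      Finset.sum_nonneg (fun k _ => by positivity)
    linarith
  have t3 : ∑ j ∈ Finset.range (J + 1), ∑ k ∈ Finset.range (J + 1), ∑ a ∈ G, ∑ b ∈ G, E3 j k a b ≤
      D * 5 * X2 := by
    rw [hX2, Finset.mul_sum]
    apply Finset.sum_le_sum
    intro j hj
    refine (Finset.sum_le_sum fun k hk => sE3 j hj k hk).trans ?_
    rw [← Finset.mul_sum, ← Finset.mul_sum]
    apply mul_le_mul_of_nonneg_left _ (by positivity)
    apply mul_le_mul_of_nonneg_left _ (ha4 j)
    have hjJ : j ≤ J := by rw [Finset.mem_range] at hj; omega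
    rw [← Finset.sum_filter]
    have hf : (Finset.range (J + 1)).filter (fun k => k ∈ Finset.range (j + 1)) =
        Finset.range (j + 1) := by
      ext k
      rw [Finset.mem_filter, Finset.mem_range, Finset.mem_range]
      omega
    rw [hf]
    unfold W2s
    have : (0:ℝ) ≤ 2 ^ j := by positivity
    linarith
  have hV : V3 q J = 1 + X1 + X2 := rfl
  rw [hV]
  refine hsum.trans ?_
  nlinarith [mul_nonneg hD0 hX1', mul_nonneg hD0 hX2']

end Pool.Agent.TH992
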