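import Pool.Agent.TH992.K.Est
import Pool.Agent.H974R2.Plan4

/-!
The connection probability of the end points of an edge, in infinite volume.
-/

set_option autoImplicit false

namespace Pool.Agent.TH992

open H974 H12S H973N Finset

/-- Connection probability in the box of radius `ρ`. -/
noncomputable def Fn (o : Bool) (ρ : ℕ) (u : ℝ) : ℝ := PQ u (boxE ρ) (Ae (e0 o))

/-- Connection probability in the whole plane. -/
noncomputable def Pio (o : Bool) (u : ℝ) : ℝ := ⨆ ρ : ℕ, Fn o ρ u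

theorem Ae_trl (x y : ℤ) (b : Bool) (F : Finset Edg) :
    Ae (x, y, b) ((trl x y).mp F) ↔ Ae (e0 b) F := by
  have e1 : (↑(((trl x y).mp F).erase (x, y, b)) : Set Edg) =
      (trl x y).φ '' (↑(F.erase (e0 b)) : Set Edg) := by
    rw [← LSym.coe_mp]
    congr 1
    ext ⟨s, t, c⟩
    rw [Finset.mem_erase, LSym.mem_mp, LSym.mem_mp, Finset.mem_erase, trl_φs]
    unfold e0
    simp only [ne_eq, Prod.mk.injEq]
    constructor
    · rintro ⟨h1, h2⟩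
      refine ⟨fun h => h1 ?_, h2⟩
      exact ⟨by omega, by omega, h.2.2⟩
    · rintro ⟨h1, h2⟩
      refine ⟨fun h => h1 ?_, h2⟩
      exact ⟨by omega, by omega, h.2.2⟩
  have hsrc : src (x, y, b) = (trl x y).ψ (src (e0 b)) := by
    unfold e0
    simp
  have htgt : tgt (x, y, b) = (trl x y).ψ (tgt (e0 b)) := by
    unfold e0
    cases b <;> simp [add_comm]
  unfold Ae
  rw [e1, hsrc, htgt]
  exact (trl x y).reach_iff

theorem blk_trl (x y : ℤ) (ρ : ℕ) : blk (x, y) ρ = (trl x y).mp (boxE ρ) := by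
  unfold blk boxE
  rw [trl_RE]
  congr 1 <;> simp only <;> ring

theorem pr_blk (e : Edg) (ρ : ℕ) (u : ℝ) : PQ u (blk (bp e) ρ) (Ae e) = Fn e.2.2 ρ u := by
  obtain ⟨x, y, b⟩ := e
  unfold bp Fn
  simp only
  rw [blk_trl]
  unfold PQ
  rw [LSym.pr]
  exact Pr_congr fun F _ => Ae_trl x y b F

theorem Ae_incr (e : Edg) (S : Finset Edg) : IncrE S (Ae e) := fun _ _ h _ => Ae_mono h

theorem Fn_le_PQ {e : Edg} {ρ : ℕ} {u : ℝ} (h0 : 0 ≤ u) (h1 : u ≤ 1) {S : Finset Edg}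
    (hS : blk (bp e) ρ ⊆ S) : Fn e.2.2 ρ u ≤ PQ u S (Ae e) := by
  rw [← pr_blk]
  exact Pr_mono_set (okQ h0 h1) hS (Ae_incr e S)

theorem Ae_or {e : Edg} {ρ : ℕ} (hρ : 1 ≤ ρ) {F : Finset Edg} (h : Ae e F) :
    Ae e (F ∩ blk (bp e) ρ) ∨ L4 ρ e (↑F : Set Edg) := by
  by_cases h0 : Ae e (F ∩ blk (bp e) ρ)
  · exact Or.inl h0
  right
  have key : L4 ρ e (↑(F ∩ blk (bp e) ρ) : Set Edg) := by
    refine L4_of hρ (G1 := {x | x ∈ F.erase e ∧ x ∉ blk (bp e) ρ}) (G0 := ∅)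
      (fun x hx => hx.2) ?_ ?_
    · refine Reach.mono ?_ h
      intro x hx
      rw [Finset.mem_coe, Finset.mem_erase] at hx
      by_cases hxb : x ∈ blk (bp e) ρ
      · left
        rw [Finset.mem_coe, Finset.mem_erase, Finset.mem_inter]
        exact ⟨hx.1, hx.2, hxb⟩
      · right
        exact ⟨by rw [Finset.mem_erase]; exact hx, hxb⟩
    · rw [Set.union_empty]
      exact h0
  unfold L4 at key ⊢
  refine (A4_congr ?_).1 key
  intro g hg _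
  rw [Finset.mem_coe, Finset.mem_coe, Finset.mem_inter]
  exact ⟨fun h => h.1, fun h => ⟨h, hg⟩⟩

theorem PQ_le_Fn {e : Edg} {ρ : ℕ} (hρ : 1 ≤ ρ) {u : ℝ} (h0 : 0 ≤ u) (h1 : u ≤ 1)
    {S : Finset Edg} (hS : blk (bp e) ρ ⊆ S) : PQ u S (Ae e) ≤ Fn e.2.2 ρ u + a4 u ρ := by
  have hok := okQ h0 h1
  have e1 : PQ u S (fun F => Ae e (F ∩ blk (bp e) ρ)) = Fn e.2.2 ρ u := by
    rw [← pr_blk]
    have s1 : PQ u S (fun F => Ae e (F ∩ blk (bp e) ρ)) =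
        PQ u (blk (bp e) ρ) (fun F => Ae e (F ∩ blk (bp e) ρ)) := by
      apply Pr_local hS
      intro F _
      rw [Finset.inter_assoc, Finset.inter_self]
    rw [s1]
    apply Pr_congr
    intro F hF
    rw [Finset.inter_eq_left.mpr hF]
  calc PQ u S (Ae e) ≤ PQ u S (fun F => Ae e (F ∩ blk (bp e) ρ) ∨ L4 ρ e (↑F : Set Edg)) :=
        Pr_mono hok fun F _ h => Ae_or hρ h
    _ ≤ PQ u S (fun F => Ae e (F ∩ blk (bp e) ρ)) + PQ u S (fun F => L4 ρ e (↑F : Set Edg)) :=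
        Pr_or_le hok _ _ _
    _ ≤ Fn e.2.2 ρ u + a4 u ρ := by
        rw [e1]
        exact add_le_add le_rfl (pr_L4 h0 h1 hS)

theorem Fn_mono {o : Bool} {u : ℝ} (h0 : 0 ≤ u) (h1 : u ≤ 1) {m n : ℕ} (h : m ≤ n) :
    Fn o m u ≤ Fn o n u := by
  refine Pr_mono_set (okQ h0 h1) ?_ (Ae_incr _ _)
  unfold boxE
  apply RE_subset <;> omega

theorem Fn_nonneg {o : Bool} {u : ℝ} (h0 : 0 ≤ u) (h1 : u ≤ 1) (m : ℕ) : 0 ≤ Fn o m u :=
  Pr_nonneg (okQ h0 h1) _ _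

theorem Fn_le_one {o : Bool} {u : ℝ} (h0 : 0 ≤ u) (h1 : u ≤ 1) (m : ℕ) : Fn o m u ≤ 1 :=
  Pr_le_one (okQ h0 h1) _ _

theorem Fn_bdd {o : Bool} {u : ℝ} (h0 : 0 ≤ u) (h1 : u ≤ 1) :
    BddAbove (Set.range fun ρ : ℕ => Fn o ρ u) := by
  refine ⟨1, ?_⟩
  rintro _ ⟨m, rfl⟩
  exact Fn_le_one h0 h1 m

theorem Fn_le_Pio {o : Bool} {u : ℝ} (h0 : 0 ≤ u) (h1 : u ≤ 1) (m : ℕ) : Fn o m u ≤ Pio o u :=
  le_ciSup (Fn_bdd h0 h1) m

theorem Pio_nonneg {o : Bool} {u : ℝ} (h0 : 0 ≤ u) (h1 : u ≤ 1) : 0 ≤ Pio o u :=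
  (Fn_nonneg h0 h1 0).trans (Fn_le_Pio h0 h1 0)

theorem Pio_le_one {o : Bool} {u : ℝ} (h0 : 0 ≤ u) (h1 : u ≤ 1) : Pio o u ≤ 1 :=
  ciSup_le fun m => Fn_le_one h0 h1 m

theorem blk_zero (o : Bool) (ρ : ℕ) : blk (bp (e0 o)) ρ = boxE ρ := by
  unfold blk bp e0 boxE
  simp

theorem Pio_le {o : Bool} {u : ℝ} (h0 : 0 ≤ u) (h1 : u ≤ 1) {ρ : ℕ} (hρ : 1 ≤ ρ) :
    Pio o u ≤ Fn o ρ u + a4 u ρ := by
  apply ciSup_le
  intro n
  rcases le_total n ρ with h | h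
  · have := FPX.a4_nonneg h0 h1 ρ
    linarith [Fn_mono (o := o) h0 h1 h]
  · have h2 := PQ_le_Fn (e := e0 o) hρ h0 h1 (S := boxE n) (by
      rw [blk_zero]
      unfold boxE
      apply RE_subset <;> omega)
    exact h2

/-- Every finite set of edges is inside a large block. -/
theorem exists_blk (c : ℤ × ℤ) (S : Finset Edg) : ∃ ρ : ℕ, S ⊆ blk c ρ := by
  refine ⟨S.sup (fun g => (|g.1 - c.1|).toNat + (|g.2.1 - c.2|).toNat + 1), ?_⟩
  intro g hg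
  have h := Finset.le_sup (f := fun g : Edg => (|g.1 - c.1|).toNat + (|g.2.1 - c.2|).toNat + 1) hg
  obtain ⟨x, y, _ | _⟩ := g
  · unfold blk
    rw [mem_RE_false]
    simp only at h
    have h1 := le_abs_self (x - c.1)
    have h2 := neg_abs_le (x - c.1)
    have h3 := le_abs_self (y - c.2)
    have h4 := neg_abs_le (y - c.2)
    omega
  · unfold blk
    rw [mem_RE_true]
    simp only at h
    have h1 := le_abs_self (x - c.1)
    have h2 := neg_abs_le (x - c.1)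
    have h3 := le_abs_self (y - c.2)
    have h4 := neg_abs_le (y - c.2)
    omega

theorem PQ_le_Pio {e : Edg} {u : ℝ} (h0 : 0 ≤ u) (h1 : u ≤ 1) (S : Finset Edg) :
    PQ u S (Ae e) ≤ Pio e.2.2 u := by
  obtain ⟨ρ, hρ⟩ := exists_blk (bp e) S
  refine le_trans ?_ (Fn_le_Pio h0 h1 ρ)
  rw [← pr_blk]
  exact Pr_mono_set (okQ h0 h1) hρ (Ae_incr e _)

theorem abs_PQ_Pio {e : Edg} {ρ : ℕ} (hρ : 1 ≤ ρ) {u : ℝ} (h0 : 0 ≤ u) (h1 : u ≤ 1)
    {S : Finset Edg} (hS : blk (bp e) ρ ⊆ S) : |PQ u S (Ae e) - Pio e.2.2 u| ≤ a4 u ρ := by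
  have a := Fn_le_PQ h0 h1 hS
  have b := Pio_le (o := e.2.2) h0 h1 hρ
  have c := PQ_le_Pio (e := e) h0 h1 S
  have d := FPX.a4_nonneg h0 h1 ρ
  rw [abs_le]
  constructor <;> linarith

end Pool.Agent.TH992
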