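import Pool.Agent.TH992.K.Clu

/-!
The mean number of clusters per vertex.
-/

set_option autoImplicit false

namespace Pool.Agent.TH992

open H974 H12S H973N Finset

/-- Edges with base point in the `n × n` box. -/
noncomputable def tp (n : ℕ) : Finset Edg :=
  Finset.Ico (0:ℤ) n ×ˢ (Finset.Ico (0:ℤ) n ×ˢ (Finset.univ : Finset Bool))

/-- Edges with base point far from the boundary. -/
noncomputable def ip (n ρ : ℕ) : Finset Edg :=
  Finset.Ico (ρ:ℤ) (n - ρ) ×ˢ (Finset.Ico (ρ:ℤ) (n - ρ) ×ˢ (Finset.univ : Finset Bool))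

theorem ed_sub (n : ℕ) : ed n ⊆ tp n := by
  intro e he
  unfold ed at he
  unfold tp
  obtain ⟨x, y, _ | _⟩ := e
  · rw [mem_RE_false] at he
    simp only [Finset.mem_product, Finset.mem_Ico, Finset.mem_univ, and_true]
    omega
  · rw [mem_RE_true] at he
    simp only [Finset.mem_product, Finset.mem_Ico, Finset.mem_univ, and_true]
    omega

theorem ip_sub {n ρ : ℕ} : ip n ρ ⊆ tp n := by
  intro e he
  unfold ip at he
  unfold tp
  simp only [Finset.mem_product, Finset.mem_Ico, Finset.mem_univ, and_true] at he ⊢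
  omega

theorem ip_blk {n ρ : ℕ} {e : Edg} (he : e ∈ ip n ρ) : blk (bp e) ρ ⊆ ed n := by
  unfold ip at he
  simp only [Finset.mem_product, Finset.mem_Ico, Finset.mem_univ, and_true] at he
  unfold blk bp ed
  simp only
  apply RE_subset <;> omega

theorem ip_ed {n ρ : ℕ} (hρ : 1 ≤ ρ) {e : Edg} (he : e ∈ ip n ρ) : e ∈ ed n := by
  unfold ip at he
  unfold ed
  obtain ⟨x, y, _ | _⟩ := e
  · rw [mem_RE_false]
    simp only [Finset.mem_product, Finset.mem_Ico, Finset.mem_univ, and_true] at he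
    omega
  · rw [mem_RE_true]
    simp only [Finset.mem_product, Finset.mem_Ico, Finset.mem_univ, and_true] at he
    omega

theorem card_tp (n : ℕ) : ((tp n).card : ℝ) = 2 * (n:ℝ) ^ 2 := by
  unfold tp
  rw [Finset.card_product, Finset.card_product, Int.card_Ico]
  simp only [sub_zero, Int.toNat_natCast, Finset.card_univ, Fintype.card_bool]
  push_cast
  ring

theorem card_ip {n ρ : ℕ} (h : 2 * ρ ≤ n) : ((ip n ρ).card : ℝ) = 2 * ((n:ℝ) - 2 * ρ) ^ 2 := by
  unfold ip
  rw [Finset.card_product, Finset.card_product, Int.card_Ico]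
  have e1 : ((n:ℤ) - ρ - ρ).toNat = n - 2 * ρ := by omega
  rw [e1]
  simp only [Finset.card_univ, Fintype.card_bool]
  push_cast [Nat.cast_sub h]
  ring

theorem card_rest {n ρ : ℕ} (h : 2 * ρ ≤ n) : ((tp n \ ip n ρ).card : ℝ) ≤ 8 * ρ * n := by
  rw [Finset.cast_card_sdiff ip_sub, card_tp, card_ip h]
  have : (0:ℝ) ≤ ρ := by positivity
  nlinarith

theorem sum_tp (n : ℕ) (u : ℝ) : ∑ e ∈ tp n, (1 - Pio e.2.2 u) = (n:ℝ) ^ 2 * (2 - Pit u) := by
  unfold tp
  rw [Finset.sum_product]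
  simp only
  have e2 : ∀ x : ℤ, ∑ y ∈ Finset.Ico (0:ℤ) n ×ˢ (Finset.univ : Finset Bool), (1 - Pio y.2 u) =
      (n:ℝ) * (2 - Pit u) := by
    intro x
    rw [Finset.sum_product]
    simp only [Fintype.sum_bool, Finset.sum_const, Int.card_Ico, sub_zero, Int.toNat_natCast,
      nsmul_eq_mul]
    unfold Pit
    ring
  rw [Finset.sum_congr rfl (fun x _ => e2 x), Finset.sum_const, Int.card_Ico]
  simp only [sub_zero, Int.toNat_natCast, nsmul_eq_mul]
  ring

/-- The derivative is close to its limit. -/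
theorem dK_close {n ρ : ℕ} (hρ : 1 ≤ ρ) (h : 2 * ρ ≤ n) {u η : ℝ} (h0 : 0 ≤ u) (h1 : u ≤ 1)
    (ha : a4 u ρ ≤ η) :
    |∑ e ∈ ed n, (1 - PQ u (ed n) (Ae e)) - (n:ℝ) ^ 2 * (2 - Pit u)| ≤
      2 * (n:ℝ) ^ 2 * η + 8 * ρ * n := by
  classical
  have hok := okQ h0 h1
  rw [← sum_tp]
  set f : Edg → ℝ := fun e => if e ∈ ed n then 1 - PQ u (ed n) (Ae e) else 0 with hf
  have e1 : ∑ e ∈ ed n, (1 - PQ u (ed n) (Ae e)) = ∑ e ∈ tp n, f e := by
    rw [hf, Finset.sum_ite_mem, Finset.inter_eq_right.2 (ed_sub n)]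
  rw [e1, ← Finset.sum_sub_distrib]
  refine (Finset.abs_sum_le_sum_abs _ _).trans ?_
  rw [← Finset.sum_sdiff (ip_sub (n := n) (ρ := ρ)), add_comm]
  apply add_le_add
  · have k1 : ∀ e ∈ ip n ρ, |f e - (1 - Pio e.2.2 u)| ≤ η := by
      intro e he
      rw [hf]
      simp only
      rw [if_pos (ip_ed hρ he)]
      have := abs_PQ_Pio hρ h0 h1 (ip_blk he)
      have e2 : 1 - PQ u (ed n) (Ae e) - (1 - Pio e.2.2 u) =
          -(PQ u (ed n) (Ae e) - Pio e.2.2 u) := by ring
      rw [e2, abs_neg]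
      exact this.trans ha
    refine (Finset.sum_le_sum k1).trans ?_
    rw [Finset.sum_const, nsmul_eq_mul]
    have hη : 0 ≤ η := (FPX.a4_nonneg h0 h1 ρ).trans ha
    apply mul_le_mul_of_nonneg_right _ hη
    rw [← card_tp]
    exact_mod_cast Finset.card_le_card ip_sub
  · have k1 : ∀ e ∈ tp n \ ip n ρ, |f e - (1 - Pio e.2.2 u)| ≤ 1 := by
      intro e _
      have p0 := Pio_nonneg (o := e.2.2) h0 h1
      have p1 := Pio_le_one (o := e.2.2) h0 h1
      rw [hf]
      simp only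
      split_ifs
      · have q0 : 0 ≤ PQ u (ed n) (Ae e) := Pr_nonneg hok _ _
        have q1 : PQ u (ed n) (Ae e) ≤ 1 := Pr_le_one hok _ _
        rw [abs_le]
        constructor <;> linarith
      · rw [abs_le]
        constructor <;> linarith
    refine (Finset.sum_le_sum k1).trans ?_
    rw [Finset.sum_const, nsmul_eq_mul, mul_one]
    exact card_rest h

/-- The connection probability extended by constants. -/
noncomputable def gg (u : ℝ) : ℝ := Pit (max 0 (min 1 u))

theorem gg_eq {u : ℝ} (h0 : 0 ≤ u) (h1 : u ≤ 1) : gg u = Pit u := by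
  unfold gg
  rw [min_eq_right h1, max_eq_right h0]

theorem gg_cont : Continuous gg := by
  unfold gg
  apply Pit_cont.comp_continuous (by fun_prop)
  intro u
  exact ⟨le_max_left _ _, max_le (by norm_num) (min_le_left _ _)⟩

/-- The mean number of clusters per vertex. -/
noncomputable def kp (p : ℝ) : ℝ := 1 - ∫ t in (0:ℝ)..p, (2 - gg t)

theorem kp_deriv (p : ℝ) : HasDerivAt kp (-(2 - gg p)) p := by
  have hc : Continuous (fun t => 2 - gg t) := continuous_const.sub gg_cont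
  have h := intervalIntegral.integral_hasDerivAt_right (hc.intervalIntegrable 0 p)
    (hc.stronglyMeasurableAtFilter _ _) hc.continuousAt
  exact h.const_sub 1

theorem PQ_cont (S : Finset Edg) (A : Finset Edg → Prop) : Continuous (fun q : ℝ => PQ q S A) :=
  cont_Pr S A

theorem eK_eq (n : ℕ) (p : ℝ) : eK n p = (n:ℝ) ^ 2 -
    ∫ t in (0:ℝ)..p, ∑ e ∈ ed n, (1 - PQ t (ed n) (Ae e)) := by
  have hc : Continuous (fun t : ℝ => -∑ e ∈ ed n, (1 - PQ t (ed n) (Ae e))) := by
    refine (continuous_finsetSum _ fun e _ => ?_).neg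
    exact continuous_const.sub (PQ_cont _ _)
  have h := intervalIntegral.integral_eq_sub_of_hasDerivAt (a := 0) (b := p)
    (fun t _ => eK_deriv n t) (hc.intervalIntegrable _ _)
  rw [eK_zero, intervalIntegral.integral_neg] at h
  linarith

theorem eK_close {n ρ : ℕ} (hρ : 1 ≤ ρ) (h : 2 * ρ ≤ n) {η : ℝ}
    (ha : ∀ u : ℝ, 0 ≤ u → u ≤ 1 → a4 u ρ ≤ η) {p : ℝ} (h0 : 0 ≤ p) (h1 : p ≤ 1) :
    |eK n p - (n:ℝ) ^ 2 * kp p| ≤ 2 * (n:ℝ) ^ 2 * η + 8 * ρ * n := by
  have hc1 : Continuous (fun t : ℝ => ∑ e ∈ ed n, (1 - PQ t (ed n) (Ae e))) :=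
    continuous_finsetSum _ fun e _ => continuous_const.sub (PQ_cont _ _)
  have hc2 : Continuous (fun t => (n:ℝ) ^ 2 * (2 - gg t)) :=
    continuous_const.mul (continuous_const.sub gg_cont)
  have e1 : eK n p - (n:ℝ) ^ 2 * kp p =
      -∫ t in (0:ℝ)..p, (∑ e ∈ ed n, (1 - PQ t (ed n) (Ae e)) - (n:ℝ) ^ 2 * (2 - gg t)) := by
    rw [intervalIntegral.integral_sub (hc1.intervalIntegrable _ _) (hc2.intervalIntegrable _ _),
      intervalIntegral.integral_const_mul, eK_eq]
    unfold kp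
    ring
  rw [e1, abs_neg]
  have h2 : ∀ t ∈ Set.uIoc 0 p,
      ‖∑ e ∈ ed n, (1 - PQ t (ed n) (Ae e)) - (n:ℝ) ^ 2 * (2 - gg t)‖ ≤
      2 * (n:ℝ) ^ 2 * η + 8 * ρ * n := by
    intro t ht
    rw [Set.uIoc_of_le h0] at ht
    have t0 : 0 ≤ t := ht.1.le
    have t1 : t ≤ 1 := ht.2.trans h1
    rw [gg_eq t0 t1, Real.norm_eq_abs]
    exact dK_close hρ h t0 t1 (ha t t0 t1)
  have h3 := intervalIntegral.norm_integral_le_of_norm_le_const h2
  rw [Real.norm_eq_abs, sub_zero, abs_of_nonneg h0] at h3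
  refine h3.trans ?_
  apply mul_le_of_le_one_right _ h1
  have := (FPX.a4_nonneg h0 h1 ρ).trans (ha p h0 h1)
  positivity

theorem kp_lim {p : ℝ} (h0 : 0 ≤ p) (h1 : p ≤ 1) :
    Filter.Tendsto (fun n : ℕ => eK n p / (n:ℝ) ^ 2) Filter.atTop (nhds (kp p)) := by
  rw [Metric.tendsto_atTop]
  intro ε hε
  obtain ⟨ρ, hρ, ha⟩ := a4_lim (show 0 < ε / 4 by positivity)
  obtain ⟨N, hN⟩ := exists_nat_gt (16 * ρ / ε)
  refine ⟨max (max N (2 * ρ)) 1, ?_⟩
  intro n hn
  have n1 : N ≤ n := (le_max_left _ _).trans ((le_max_left _ _).trans hn)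
  have n2 : 2 * ρ ≤ n := (le_max_right _ _).trans ((le_max_left _ _).trans hn)
  have n3 : 1 ≤ n := (le_max_right _ _).trans hn
  have hn0 : (0:ℝ) < n := by exact_mod_cast n3
  have h2 := eK_close hρ n2 (η := ε / 4) (fun u u0 u1 => ha ρ le_rfl u u0 u1) h0 h1
  have h3 : 16 * (ρ:ℝ) < ε * n := by
    have h4 : 16 * (ρ:ℝ) / ε < n := hN.trans_le (by exact_mod_cast n1)
    rw [div_lt_iff₀ hε] at h4
    linarith
  rw [Real.dist_eq]
  have e1 : eK n p / (n:ℝ) ^ 2 - kp p = (eK n p - (n:ℝ) ^ 2 * kp p) / (n:ℝ) ^ 2 := by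
    field_simp
  rw [e1, abs_div, abs_of_pos (show (0:ℝ) < (n:ℝ) ^ 2 by positivity), div_lt_iff₀ (by positivity)]
  refine h2.trans_lt ?_
  nlinarith

theorem kp_deriv_eq : deriv kp = fun p => -(2 - gg p) := by
  funext p
  exact (kp_deriv p).deriv

/-- The expansion of the mean number of clusters. -/
theorem kp_exp : ∃ D : ℝ, HasDerivAt (deriv kp) D (1/2) ∧ ∀ ε : ℝ, 0 < ε → ∃ C : ℝ, 0 < C ∧
    ∀ p : ℝ, 0 ≤ p → p ≤ 1 →
    |kp p - kp (1/2) - deriv kp (1/2) * (p - 1/2) - 1/2 * D * (p - 1/2) ^ 2| ≤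
      C * |p - 1/2| ^ ((8/3 : ℝ) - ε) := by
  obtain ⟨D, hD⟩ := Pit_exp
  refine ⟨D, ?_, ?_⟩
  · rw [kp_deriv_eq]
    have hg : HasDerivAt gg D (1/2) := by
      obtain ⟨C, hC, h⟩ := hD (1/3) (by norm_num)
      rw [hasDerivAt_iff_isLittleO, Asymptotics.isLittleO_iff]
      intro c hc
      have hlim : Filter.Tendsto (fun u : ℝ => C * |u - 1/2| ^ (1/3 : ℝ)) (nhds (1/2)) (nhds 0) := by
        have h1 : Filter.Tendsto (fun u : ℝ => |u - 1/2|) (nhds (1/2)) (nhds 0) := by
          have : Continuous (fun u : ℝ => |u - 1/2|) := by fun_prop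
          have h2 := this.tendsto (1/2)
          simpa using h2
        have h3 := (h1.rpow_const (p := (1/3:ℝ)) (Or.inr (by norm_num))).const_mul C
        rwa [Real.zero_rpow (by norm_num), mul_zero] at h3
      have h4 := hlim.eventually (gt_mem_nhds hc)
      have h5 : ∀ᶠ u : ℝ in nhds (1/2), u ∈ Set.Ioo (0:ℝ) 1 :=
        Ioo_mem_nhds (by norm_num) (by norm_num)
      filter_upwards [h4, h5] with u hu1 hu2
      have h6 := h u hu2.1.le hu2.2.le
      rw [gg_eq hu2.1.le hu2.2.le, gg_eq (u := 1/2) (by norm_num) (by norm_num),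
        Real.norm_eq_abs, Real.norm_eq_abs, smul_eq_mul, mul_comm (u - 1/2) D]
      refine h6.trans ?_
      rcases (abs_nonneg (u - 1/2)).eq_or_lt with hz | hz
      · rw [← hz, Real.zero_rpow (by norm_num)]
        simp
      · have e1 : |u - 1/2| ^ ((5/3 : ℝ) - 1/3) = |u - 1/2| ^ (1/3 : ℝ) * |u - 1/2| := by
          rw [← Real.rpow_add_one hz.ne']
          norm_num
        rw [e1, ← mul_assoc]
        exact mul_le_mul_of_nonneg_right hu1.le hz.le
    have := hg.const_sub 2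
    have h2 := this.neg
    rwa [neg_neg] at h2
  · intro ε hε
    set η : ℝ := min ε 1 with hη
    have hη0 : 0 < η := lt_min hε (by norm_num)
    have hη1 : η ≤ 1 := min_le_right _ _
    have hηε : η ≤ ε := min_le_left _ _
    obtain ⟨C, hC, h⟩ := hD η hη0
    refine ⟨C, hC, ?_⟩
    intro p p0 p1
    rcases (abs_nonneg (p - 1/2)).eq_or_lt with hz | hz
    · have hu0 : p - 1/2 = 0 := abs_eq_zero.1 hz.symm
      have hu1 : p = 1/2 := by linarith
      rw [hu0, hu1]
      simp only [sub_self, mul_zero, ne_eq, OfNat.ofNat_ne_zero, not_false_eq_true, zero_pow,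
        abs_zero]
      positivity
    have hle1 : |p - 1/2| ≤ 1 := by
      rw [abs_le]
      constructor <;> linarith
    have hint : ∀ a b : ℝ, IntervalIntegrable (fun t => gg t - gg (1/2) - D * (t - 1/2))
        MeasureTheory.volume a b := by
      intro a b
      apply Continuous.intervalIntegrable
      have := gg_cont
      fun_prop
    have e1 : kp p - kp (1/2) - deriv kp (1/2) * (p - 1/2) - 1/2 * D * (p - 1/2) ^ 2 =
        ∫ t in (1/2:ℝ)..p, (gg t - gg (1/2) - D * (t - 1/2)) := by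
      have hder : ∀ t ∈ Set.uIcc (1/2) p, HasDerivAt
          (fun s => kp s - kp (1/2) - deriv kp (1/2) * (s - 1/2) - 1/2 * D * (s - 1/2) ^ 2)
          (gg t - gg (1/2) - D * (t - 1/2)) t := by
        intro t _
        have d1 := (kp_deriv t).sub_const (kp (1/2))
        have d2 := ((hasDerivAt_id t).sub_const (1/2)).const_mul (deriv kp (1/2))
        have d3 := (((hasDerivAt_id t).sub_const (1/2)).pow 2).const_mul (1/2 * D)
        have d4 := (d1.sub d2).sub d3
        refine d4.congr_deriv ?_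
        rw [kp_deriv_eq]
        simp only [id]
        ring
      have h7 := intervalIntegral.integral_eq_sub_of_hasDerivAt hder (hint _ _)
      rw [h7]
      ring
    rw [e1]
    have h2 : ∀ t ∈ Set.uIoc (1/2) p, ‖gg t - gg (1/2) - D * (t - 1/2)‖ ≤
        C * |p - 1/2| ^ ((5/3 : ℝ) - η) := by
      intro t ht
      have ht' : t ∈ Set.uIcc (1/2) p := Set.uIoc_subset_uIcc ht
      have htp : |t - 1/2| ≤ |p - 1/2| := Set.abs_sub_left_of_mem_uIcc ht'
      have t0 : 0 ≤ t := by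
        rcases Set.mem_uIcc.1 ht' with h | h <;> linarith [h.1]
      have t1 : t ≤ 1 := by
        rcases Set.mem_uIcc.1 ht' with h | h <;> linarith [h.2]
      rw [gg_eq t0 t1, gg_eq (u := 1/2) (by norm_num) (by norm_num), Real.norm_eq_abs]
      refine (h t t0 t1).trans ?_
      apply mul_le_mul_of_nonneg_left _ hC.le
      exact Real.rpow_le_rpow (abs_nonneg _) htp (by linarith)
    have h3 := intervalIntegral.norm_integral_le_of_norm_le_const h2
    rw [Real.norm_eq_abs] at h3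
    refine h3.trans ?_
    rw [mul_assoc, ← Real.rpow_add_one hz.ne']
    apply mul_le_mul_of_nonneg_left _ hC.le
    apply Real.rpow_le_rpow_of_exponent_ge hz hle1
    linarith

end Pool.Agent.TH992
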