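import Pool.Agent.TH992.K.ScS

/-!
The sharp expansion of the mean number of clusters per vertex.
-/

set_option autoImplicit false

namespace Pool.Agent.TH992

open H974 H12S H973N Finset

/-- The slope of the extended connection probability. -/
theorem gg_deriv {D C : ℝ} (h : ∀ u : ℝ, 0 ≤ u → u ≤ 1 →
    |Pit u - Pit (1/2) - D * (u - 1/2)| ≤ C * |u - 1/2| ^ (5/3 : ℝ)) :
    HasDerivAt gg D (1/2) := by
  rw [hasDerivAt_iff_isLittleO, Asymptotics.isLittleO_iff]
  intro c hc
  have hlim : Filter.Tendsto (fun u : ℝ => C * |u - 1/2| ^ (2/3 : ℝ)) (nhds (1/2)) (nhds 0) := by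
    have h1 : Filter.Tendsto (fun u : ℝ => |u - 1/2|) (nhds (1/2)) (nhds 0) := by
      have : Continuous (fun u : ℝ => |u - 1/2|) := by fun_prop
      have h2 := this.tendsto (1/2)
      simpa using h2
    have h3 := (h1.rpow_const (p := (2/3:ℝ)) (Or.inr (by norm_num))).const_mul C
    rwa [Real.zero_rpow (by norm_num), mul_zero] at h3
  have h4 := hlim.eventually (gt_mem_nhds hc)
  have h5 : ∀ᶠ u : ℝ in nhds (1/2), u ∈ Set.Ioo (0:ℝ) 1 :=
    Ioo_mem_nhds (by norm_num) (by norm_num)
  filter_upwards [h4, h5] with u hu1 hu2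
  have h6 := h u hu2.1.le hu2.2.le
  rw [gg_eq hu2.1.le hu2.2.le, gg_eq (u := 1/2) (by norm_num) (by norm_num),
    Real.norm_eq_abs, Real.norm_eq_abs, smul_eq_mul, mul_comm (u - 1/2) D]
  refine h6.trans ?_
  rcases (abs_nonneg (u - 1/2)).eq_or_lt with hz | hz
  · rw [← hz, Real.zero_rpow (by norm_num)]
    simp
  · have e1 : |u - 1/2| ^ (5/3 : ℝ) = |u - 1/2| ^ (2/3 : ℝ) * |u - 1/2| := by
      rw [← Real.rpow_add_one hz.ne']
      norm_num
    rw [e1, ← mul_assoc]
    exact mul_le_mul_of_nonneg_right hu1.le hz.le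

/-- The sharp expansion of the mean number of clusters. -/
theorem kp_sharp : ∃ D : ℝ, HasDerivAt (deriv kp) D (1/2) ∧ ∃ C : ℝ, 0 < C ∧
    ∀ p : ℝ, 0 ≤ p → p ≤ 1 →
    |kp p - kp (1/2) - deriv kp (1/2) * (p - 1/2) - 1/2 * D * (p - 1/2) ^ 2| ≤
      C * |p - 1/2| ^ (8/3 : ℝ) := by
  obtain ⟨D, C, hC, h⟩ := Pit_sharp
  refine ⟨D, ?_, C, hC, ?_⟩
  · rw [kp_deriv_eq]
    have h2 := ((gg_deriv h).const_sub 2).neg
    rwa [neg_neg] at h2
  · intro p p0 p1
    rcases (abs_nonneg (p - 1/2)).eq_or_lt with hz | hz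
    · have hu0 : p - 1/2 = 0 := abs_eq_zero.1 hz.symm
      have hu1 : p = 1/2 := by linarith
      rw [hu0, hu1]
      simp only [sub_self, mul_zero, ne_eq, OfNat.ofNat_ne_zero, not_false_eq_true, zero_pow,
        abs_zero]
      positivity
    have hint : ∀ a b : ℝ, IntervalIntegrable (fun t => gg t - gg (1/2) - D * (t - 1/2))
        MeasureTheory.volume a b := by
      intro a b
      apply Continuous.intervalIntegrable
      have := gg_cont
      fun_prop
    have e1 : kp p - kp (1/2) - deriv kp (1/2) * (p - 1/2) - 1/2 * D * (p - 1/2) ^ 2 =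
        ∫ t in (1/2:ℝ)..p, (gg t - gg (1/2) - D * (t - 1/2)) := by
      have hder : ∀ t ∈ Set.uIcc (1/2) p, HasDerivAt
          (fun s => kp s - kp (1/2) - deriv kp (1/2) * (s - 1/2) - 1/2 * D * (s - 1/2) ^ 2)
          (gg t - gg (1/2) - D * (t - 1/2)) t := by
        intro t _
        have d1 := (kp_deriv t).sub_const (kp (1/2))
        have d2 := ((hasDerivAt_id t).sub_const (1/2)).const_mul (deriv kp (1/2))
        have d3 := (((hasDerivAt_id t).sub_const (1/2)).pow 2).const_mul (1/2 * D)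
        have d4 := (d1.sub d2).sub d3
        refine d4.congr_deriv ?_
        rw [kp_deriv_eq]
        simp only [id]
        ring
      have h7 := intervalIntegral.integral_eq_sub_of_hasDerivAt hder (hint _ _)
      rw [h7]
      ring
    rw [e1]
    have h2 : ∀ t ∈ Set.uIoc (1/2) p, ‖gg t - gg (1/2) - D * (t - 1/2)‖ ≤
        C * |p - 1/2| ^ (5/3 : ℝ) := by
      intro t ht
      have ht' : t ∈ Set.uIcc (1/2) p := Set.uIoc_subset_uIcc ht
      have htp : |t - 1/2| ≤ |p - 1/2| := Set.abs_sub_left_of_mem_uIcc ht'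
      have t0 : 0 ≤ t := by
        rcases Set.mem_uIcc.1 ht' with h | h <;> linarith [h.1]
      have t1 : t ≤ 1 := by
        rcases Set.mem_uIcc.1 ht' with h | h <;> linarith [h.2]
      rw [gg_eq t0 t1, gg_eq (u := 1/2) (by norm_num) (by norm_num), Real.norm_eq_abs]
      refine (h t t0 t1).trans ?_
      apply mul_le_mul_of_nonneg_left _ hC.le
      exact Real.rpow_le_rpow (abs_nonneg _) htp (by norm_num)
    have h3 := intervalIntegral.norm_integral_le_of_norm_le_const h2
    rw [Real.norm_eq_abs] at h3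
    refine h3.trans (le_of_eq ?_)
    rw [mul_assoc, ← Real.rpow_add_one hz.ne']
    norm_num

end Pool.Agent.TH992
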