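import Pool.Agent.TH992.K.Bet2
import Pool.Agent.H973R3.NC.AR
import Pool.Agent.H973R3.NC.AsmB

/-!
The derivatives of the sum over the core, in the window.
-/

set_option autoImplicit false

namespace Pool.Agent.TH992

open H974 H12S H973N Finset

/-- The inner edges. -/
noncomputable def inn (K : ℕ) (e : Edg) : Finset Edg :=
  (boxE (2^(K+11))).filter (fun g => e ≠ g ∧ dst e g ≤ 4 * 2 ^ K)

/-- The outer edges. -/
noncomputable def out (K : ℕ) (e : Edg) : Finset Edg :=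
  (boxE (2^(K+11))).filter (fun g => ¬ (e ≠ g ∧ dst e g ≤ 4 * 2 ^ K))

/-- The sum over the core. -/
noncomputable def Mf (K : ℕ) (u : ℝ) : ℝ :=
  ∑ e ∈ cor (2^K), PQ u (boxE (2^(K+11))) (Ae e)

/-- Inner part of the derivative. -/
noncomputable def Mi (K : ℕ) (u : ℝ) : ℝ :=
  ∑ e ∈ cor (2^K), ∑ g ∈ inn K e, PQ u (boxE (2^(K+11))) (Pf (Ae e) g)

/-- Outer part of the derivative. -/
noncomputable def Mo (K : ℕ) (u : ℝ) : ℝ :=
  ∑ e ∈ cor (2^K), ∑ g ∈ out K e, PQ u (boxE (2^(K+11))) (Pf (Ae e) g)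

theorem Mf_deriv (K : ℕ) (u : ℝ) : HasDerivAt (Mf K) (Mi K u + Mo K u) u := by
  have h := HasDerivAt.fun_sum (u := cor (2^K)) (x := u)
    (A := fun e => fun u : ℝ => PQ u (boxE (2^(K+11))) (Ae e))
    (A' := fun e => ∑ g ∈ boxE (2^(K+11)), PQ u (boxE (2^(K+11))) (Pf (Ae e) g))
    (fun e _ => deriv_f (boxE (2^(K+11))) (Ae e) (Ae_mono' e) u)
  have e1 : Mi K u + Mo K u = ∑ e ∈ cor (2^K), ∑ g ∈ boxE (2^(K+11)),
      PQ u (boxE (2^(K+11))) (Pf (Ae e) g) := by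
    unfold Mi Mo inn out
    rw [← Finset.sum_add_distrib]
    apply Finset.sum_congr rfl
    intro e _
    exact Finset.sum_filter_add_sum_filter_not _ _ _
  rw [e1]
  exact h

theorem Pf_self (e : Edg) (F : Finset Edg) : ¬ Pf (Ae e) e F := by
  rintro ⟨h1, h2⟩
  unfold Ae at h1 h2
  rw [Finset.erase_insert_eq_erase] at h1
  rw [Finset.erase_idem] at h2
  exact h2 h1

theorem PQ_false {q : ℝ} {S : Finset Edg} {A : Finset Edg → Prop} (h : ∀ F, ¬ A F) :
    PQ q S A = 0 := by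
  unfold PQ Pr
  rw [Ex_congr (g := fun _ => (0:ℝ)) (fun F _ => ind_not_of (h F)), Ex_const]

theorem Mo_nonneg {K : ℕ} {u : ℝ} (h0 : 0 ≤ u) (h1 : u ≤ 1) : 0 ≤ Mo K u :=
  Finset.sum_nonneg fun _ _ => Finset.sum_nonneg fun _ _ => Pr_nonneg (okQ h0 h1) _ _

theorem Mo_le (κ : ℝ) (hκ : 0 < κ) : ∃ C : ℝ, 0 < C ∧ ∀ (q : ℝ) (n : ℕ), Win q κ n →
    ∀ K : ℕ, 2 ^ (K + 2) ≤ n →
    Mo K q ≤ C * ((4:ℝ) ^ K * a4 q (2^K) * W1s q K) := by
  obtain ⟨C1, hC1, hout⟩ := outer_sum κ hκ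
  refine ⟨18 * (C1 * 4096), by positivity, ?_⟩
  intro q n hW K hn
  have h0 : 0 ≤ q := by linarith [hW.lo]
  have h1 : q ≤ 1 := by linarith [hW.hi]
  have hok := okQ h0 h1
  have hw0 := FPX.W1s_nonneg h0 h1 K
  have ha := FPX.a4_nonneg h0 h1 (2^K)
  have hp11 : 2 ^ (K + 11) = 2048 * 2 ^ K := by rw [pow_add]; ring
  have hp2 : 2 ^ (K + 2) = 4 * 2 ^ K := by rw [pow_add]; ring
  have hp11z : (2:ℤ) ^ (K + 11) = 2048 * 2 ^ K := by rw [pow_add]; ring
  have hpz : (1:ℤ) ≤ 2 ^ K := by exact_mod_cast (Nat.one_le_two_pow : 1 ≤ 2 ^ K)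
  have hedge : ∀ e ∈ cor (2^K), ∑ g ∈ out K e, PQ q (boxE (2^(K+11))) (Pf (Ae e) g) ≤
      a4 q (2^K) * (C1 * 4096 * W1s q K) := by
    intro e he
    rw [mem_cor, abs_le, abs_le] at he
    push_cast at he
    have hoe := out_edge hout hC1 hW (K := K) (Λ := 4096) (R := 2^(K+11)) (by norm_num)
      (by rw [← hp2]; exact hn) (by rw [hp11]; omega) (ρ := 2^K) Nat.one_le_two_pow (c := e)
      (by
        push_cast
        rw [hp11z]
        refine ⟨⟨?_, ?_⟩, ?_, ?_⟩ <;> linarith [he.1.1, he.1.2, he.2.1, he.2.2])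
    push_cast at hoe
    refine le_trans ?_ hoe
    have hs : ∑ g ∈ out K e, PQ q (boxE (2^(K+11))) (Pf (Ae e) g) =
        ∑ g ∈ (out K e).erase e, PQ q (boxE (2^(K+11))) (Pf (Ae e) g) := by
      by_cases hmem : e ∈ out K e
      · rw [← Finset.add_sum_erase _ _ hmem, PQ_false (Pf_self e), zero_add]
      · rw [Finset.erase_eq_of_notMem hmem]
    rw [hs]
    apply Finset.sum_le_sum_of_subset_of_nonneg
    · intro g hg
      rw [Finset.mem_erase] at hg
      unfold out at hg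
      rw [Finset.mem_filter] at hg
      rw [Finset.mem_sdiff]
      refine ⟨hg.2.1, notMem_ball ?_⟩
      have h2 := hg.2.2
      push Not at h2
      have h3 := h2 (fun h => hg.1 h.symm)
      push_cast
      linarith
    · intro g _ _
      exact Pr_nonneg hok _ _
  unfold Mo
  refine (Finset.sum_le_sum hedge).trans ?_
  rw [Finset.sum_const, nsmul_eq_mul]
  have hc := card_cor_le (N := 2^K) Nat.one_le_two_pow
  have h4 : (((2^K : ℕ) : ℝ)) ^ 2 = (4:ℝ) ^ K := by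
    push_cast
    rw [← pow_mul, mul_comm, pow_mul]
    norm_num
  rw [h4] at hc
  calc ((cor (2^K)).card : ℝ) * (a4 q (2^K) * (C1 * 4096 * W1s q K))
      ≤ (18 * (4:ℝ) ^ K) * (a4 q (2^K) * (C1 * 4096 * W1s q K)) :=
        mul_le_mul_of_nonneg_right hc (by positivity)
    _ = _ := by ring

/-- The derivative of the inner part. -/
theorem Mi_deriv (κ : ℝ) (hκ : 0 < κ) : ∃ C : ℝ, 0 < C ∧ ∀ (q : ℝ) (n : ℕ), Win q κ n →
    ∀ K : ℕ, 2 ^ (K + 10) ≤ n →
    ∃ D : ℝ, HasDerivAt (Mi K) D q ∧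
      |D| ≤ C * ((4:ℝ) ^ K * V3 q (K + 6) + W1s q K * W2s q K) := by
  classical
  obtain ⟨C1, hC1, htri⟩ := triple_sum κ hκ
  obtain ⟨C2, hC2, hbet⟩ := bet_sum κ hκ
  refine ⟨C1 * (18 * 96 ^ 2) + C2, by positivity, ?_⟩
  intro q n hW K hn
  have h0 : 0 ≤ q := by linarith [hW.lo]
  have h1 : q ≤ 1 := by linarith [hW.hi]
  have hok := okQ h0 h1
  have hw0 := FPX.W1s_nonneg h0 h1 K
  have hV := V3_nonneg h0 h1 (K + 6)
  have hp10 : 2 ^ (K + 10) = 1024 * 2 ^ K := by rw [pow_add]; ring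
  have hp6 : 2 ^ (K + 6) = 64 * 2 ^ K := by rw [pow_add]; ring
  have hp11 : 2 ^ (K + 11) = 2048 * 2 ^ K := by rw [pow_add]; ring
  have hp5 : 2 ^ (K + 5) = 32 * 2 ^ K := by rw [pow_add]; ring
  have hp11z : (2:ℤ) ^ (K + 11) = 2048 * 2 ^ K := by rw [pow_add]; ring
  have hp6z : (2:ℤ) ^ (K + 6) = 64 * 2 ^ K := by rw [pow_add]; ring
  have hp5z : (2:ℤ) ^ (K + 5) = 32 * 2 ^ K := by rw [pow_add]; ring
  have hpz : (1:ℤ) ≤ 2 ^ K := by exact_mod_cast (Nat.one_le_two_pow : 1 ≤ 2 ^ K)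
  set S := boxE (2^(K+11)) with hS
  set T : Edg → Edg → Edg → ℝ := fun e g f => PQ q S (SD (Ae e) g f) with hT
  have hT0 : ∀ a b c, 0 ≤ T a b c := fun a b c => Pr_nonneg hok _ _
  have hder : ∀ e ∈ cor (2^K), ∃ D : ℝ,
      HasDerivAt (fun q : ℝ => ∑ g ∈ inn K e, PQ q S (Pf (Ae e) g)) D q ∧
      |D| ≤ ∑ g ∈ inn K e, ∑ f ∈ S.erase g, T e g f := by
    intro e _
    exact deriv_T S (inn K e) (Finset.filter_subset _ _) (Ae e) (Ae_mono' e) q h0 h1
  choose! D hD1 hD2 using hder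
  refine ⟨∑ e ∈ cor (2^K), D e, ?_, ?_⟩
  · exact HasDerivAt.fun_sum (u := cor (2^K)) (x := q)
      (A := fun e => fun q : ℝ => ∑ g ∈ inn K e, PQ q S (Pf (Ae e) g)) (A' := D) hD1
  -- the bound
  set G := cor (96 * 2^K) with hG
  set N := 3 * 2 ^ (K+5) with hN
  have hcorG : ∀ e ∈ cor (2^K), e ∈ G := by
    intro e he
    rw [mem_cor] at he
    rw [hG, mem_cor]
    push_cast at he ⊢
    constructor <;> linarith [he.1, he.2]
  have hinnG : ∀ e ∈ cor (2^K), ∀ g ∈ inn K e, g ∈ G := by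
    intro e he g hg
    unfold inn at hg
    rw [Finset.mem_filter] at hg
    have hd := hg.2.2
    rw [mem_cor, abs_le, abs_le] at he
    rw [hG, mem_cor, abs_le, abs_le]
    unfold dst at hd
    have d1 := abs_le.1 ((le_max_left _ _).trans hd)
    have d2 := abs_le.1 ((le_max_right _ _).trans hd)
    push_cast at he ⊢
    refine ⟨⟨?_, ?_⟩, ?_, ?_⟩ <;>
      linarith [he.1.1, he.1.2, he.2.1, he.2.2, d1.1, d1.2, d2.1, d2.2]
  have hNG : ∀ f ∈ boxE N, f ∈ G := by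
    intro f hf
    unfold boxE at hf
    obtain ⟨⟨k1, k2⟩, k3, k4⟩ := NP.RE_weak hf
    rw [hN] at k1 k2 k3 k4
    push_cast at k1 k2 k3 k4
    rw [hp5z] at k1 k2 k3 k4
    rw [hG, mem_cor, abs_le, abs_le]
    push_cast
    refine ⟨⟨?_, ?_⟩, ?_, ?_⟩ <;> linarith
  have hNS : boxE N ⊆ S := by
    rw [hS]
    unfold boxE
    apply RE_subset <;> omega
  -- splitting of the third sum
  have hsplit : ∀ e ∈ cor (2^K), ∀ g ∈ inn K e, ∑ f ∈ S.erase g, T e g f ≤
      ∑ f ∈ G, ind (e ≠ g ∧ e ≠ f ∧ g ≠ f) * T e g f +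
        ∑ f ∈ S \ boxE N, T e g f := by
    intro e he g hg
    have hge : e ≠ g := by
      unfold inn at hg
      rw [Finset.mem_filter] at hg
      exact hg.2.1
    have hzero : T e g e = 0 := by
      rw [hT]
      simp only
      apply PQ_false
      intro F h
      rcases h.2.1 with h' | h'
      · exact Pf_self e _ h'
      · exact Pf_self e _ h'
    have e1 : ∑ f ∈ S.erase g, T e g f = ∑ f ∈ (S.erase g).filter (fun f => f ∈ boxE N), T e g f +
        ∑ f ∈ (S.erase g).filter (fun f => f ∉ boxE N), T e g f :=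
      (Finset.sum_filter_add_sum_filter_not _ _ _).symm
    rw [e1]
    apply add_le_add
    · have e2 : ∑ f ∈ G, ind (e ≠ g ∧ e ≠ f ∧ g ≠ f) * T e g f =
          ∑ f ∈ G.filter (fun f => e ≠ f ∧ g ≠ f), T e g f := by
        rw [Finset.sum_filter]
        apply Finset.sum_congr rfl
        intro f _
        by_cases h : e ≠ f ∧ g ≠ f
        · rw [if_pos h, ind_of ⟨hge, h⟩, one_mul]
        · rw [if_neg h, ind_not_of (fun h' => h h'.2), zero_mul]
      rw [e2]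
      have e3 : ∑ f ∈ (S.erase g).filter (fun f => f ∈ boxE N), T e g f =
          ∑ f ∈ ((S.erase g).filter (fun f => f ∈ boxE N)).erase e, T e g f := by
        by_cases hmem : e ∈ (S.erase g).filter (fun f => f ∈ boxE N)
        · rw [← Finset.add_sum_erase _ _ hmem, hzero, zero_add]
        · rw [Finset.erase_eq_of_notMem hmem]
      rw [e3]
      apply Finset.sum_le_sum_of_subset_of_nonneg
      · intro f hf
        rw [Finset.mem_erase, Finset.mem_filter, Finset.mem_erase] at hf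
        rw [Finset.mem_filter]
        exact ⟨hNG f hf.2.2, fun h => hf.1 h.symm, fun h => hf.2.1.1 h.symm⟩
      · intro f _ _
        exact hT0 _ _ _
    · apply Finset.sum_le_sum_of_subset_of_nonneg
      · intro f hf
        rw [Finset.mem_filter, Finset.mem_erase] at hf
        rw [Finset.mem_sdiff]
        exact ⟨hf.1.2, hf.2⟩
      · intro f _ _
        exact hT0 _ _ _
  -- the triples in the bulk
  have hbulk : ∑ e ∈ cor (2^K), ∑ g ∈ inn K e, ∑ f ∈ G, ind (e ≠ g ∧ e ≠ f ∧ g ≠ f) * T e g f ≤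
      C1 * (G.card * V3 q (K + 6)) := by
    have ht := htri q n hW (K + 6) (2^(K+11)) (by omega) (by omega) G ?_ ?_
    · refine le_trans ?_ ht
      have hn0 : ∀ a b c, 0 ≤ ind (a ≠ b ∧ a ≠ c ∧ b ≠ c) * T a b c := fun a b c =>
        mul_nonneg (ind_nonneg _) (hT0 a b c)
      calc ∑ e ∈ cor (2^K), ∑ g ∈ inn K e, ∑ f ∈ G, ind (e ≠ g ∧ e ≠ f ∧ g ≠ f) * T e g f
          ≤ ∑ e ∈ cor (2^K), ∑ g ∈ G, ∑ f ∈ G, ind (e ≠ g ∧ e ≠ f ∧ g ≠ f) * T e g f := by
            apply Finset.sum_le_sum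
            intro e he
            apply Finset.sum_le_sum_of_subset_of_nonneg (fun g hg => hinnG e he g hg)
            intro g _ _
            exact Finset.sum_nonneg fun f _ => hn0 e g f
        _ ≤ ∑ e ∈ G, ∑ g ∈ G, ∑ f ∈ G, ind (e ≠ g ∧ e ≠ f ∧ g ≠ f) * T e g f := by
            apply Finset.sum_le_sum_of_subset_of_nonneg (fun e he => hcorG e he)
            intro e _ _
            exact Finset.sum_nonneg fun g _ => Finset.sum_nonneg fun f _ => hn0 e g f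
    · intro a ha
      rw [hG, mem_cor] at ha
      push_cast at ha ⊢
      rw [hp6z, hp11z]
      constructor <;> linarith [ha.1, ha.2]
    · intro a ha b hb
      have := dst_cor ha hb
      push_cast at this
      rw [hp6z]
      linarith
  have hcardG : (G.card : ℝ) ≤ 18 * 96 ^ 2 * (4:ℝ) ^ K := by
    have := card_cor_le (N := 96 * 2^K) (by
      have : 1 ≤ 2 ^ K := Nat.one_le_two_pow
      omega)
    refine this.trans (le_of_eq ?_)
    push_cast
    have h4 : ((2:ℝ) ^ K) ^ 2 = (4:ℝ) ^ K := by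
      rw [← pow_mul, mul_comm, pow_mul]
      norm_num
    rw [mul_pow, h4]
    ring
  -- one far edge
  have hfar : ∑ e ∈ cor (2^K), ∑ g ∈ inn K e, ∑ f ∈ S \ boxE N, T e g f ≤
      C2 * (W1s q K * W2s q K) := by
    have hb := hbet q n hW K (by omega) S
    refine le_trans (le_of_eq ?_) hb
    apply Finset.sum_congr rfl
    intro e _
    unfold inn
    rw [Finset.sum_filter]
    apply Finset.sum_congr rfl
    intro g _
    by_cases h : e ≠ g ∧ dst e g ≤ 4 * 2 ^ K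
    · rw [if_pos h, ind_of h, one_mul]
    · rw [if_neg h, ind_not_of h, zero_mul]
  calc |∑ e ∈ cor (2^K), D e| ≤ ∑ e ∈ cor (2^K), |D e| := Finset.abs_sum_le_sum_abs _ _
    _ ≤ ∑ e ∈ cor (2^K), ∑ g ∈ inn K e, ∑ f ∈ S.erase g, T e g f :=
        Finset.sum_le_sum fun e he => hD2 e he
    _ ≤ ∑ e ∈ cor (2^K), ∑ g ∈ inn K e, (∑ f ∈ G, ind (e ≠ g ∧ e ≠ f ∧ g ≠ f) * T e g f +
        ∑ f ∈ S \ boxE N, T e g f) :=
        Finset.sum_le_sum fun e he => Finset.sum_le_sum fun g hg => hsplit e he g hg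
    _ = ∑ e ∈ cor (2^K), ∑ g ∈ inn K e, ∑ f ∈ G, ind (e ≠ g ∧ e ≠ f ∧ g ≠ f) * T e g f +
        ∑ e ∈ cor (2^K), ∑ g ∈ inn K e, ∑ f ∈ S \ boxE N, T e g f := by
        simp only [Finset.sum_add_distrib]
    _ ≤ C1 * (G.card * V3 q (K + 6)) + C2 * (W1s q K * W2s q K) := add_le_add hbulk hfar
    _ ≤ C1 * (18 * 96 ^ 2 * (4:ℝ) ^ K * V3 q (K + 6)) + C2 * (W1s q K * W2s q K) := by
        have := mul_le_mul_of_nonneg_left (mul_le_mul_of_nonneg_right hcardG hV) hC1.le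
        linarith
    _ ≤ (C1 * (18 * 96 ^ 2) + C2) * ((4:ℝ) ^ K * V3 q (K + 6) + W1s q K * W2s q K) := by
        have hw2 := W2s_nonneg (q := q) K
        have p1 : 0 ≤ C2 * ((4:ℝ) ^ K * V3 q (K + 6)) := by positivity
        have p2 : 0 ≤ C1 * (18 * 96 ^ 2) * (W1s q K * W2s q K) := by positivity
        nlinarith [p1, p2]

end Pool.Agent.TH992
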