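import Pool.Agent.TH992.K.EstS
import Pool.Agent.TH992.K.Kap

/-!
The sharp expansion of the connection probability at the critical point.
-/

set_option autoImplicit false

namespace Pool.Agent.TH992

open H974 H12S H973N Finset

/-- From one expansion per scale to one expansion. -/
theorem scale_exp0 {P : ℝ → ℝ} {E : ℕ → ℝ} {ε c C : ℝ} (hε0 : 0 ≤ ε) (hε : ε < 1 / 4)
    (hc : 0 < c) (hC : 0 < C)
    (h : ∀ (K : ℕ) (u : ℝ), |u - 1/2| ≤ c * ((2:ℝ)^K) ^ (-(3/4 : ℝ) - ε) →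
      |P u - P (1/2) - E K * (u - 1/2)| ≤ C * ((2:ℝ)^K) ^ (-(5/4 : ℝ) + ε)) :
    ∃ D C' : ℝ, Filter.Tendsto E Filter.atTop (nhds D) ∧ 0 < C' ∧ ∀ u : ℝ, |u - 1/2| ≤ c →
      |P u - P (1/2) - D * (u - 1/2)| ≤ C' * |u - 1/2| ^ ((5/3 : ℝ) - 32/9 * ε) := by
  obtain ⟨a, hadef⟩ : ∃ a : ℝ, a = (2:ℝ) ^ (-(3/4 : ℝ) - ε) := ⟨_, rfl⟩
  obtain ⟨b, hbdef⟩ : ∃ b : ℝ, b = (2:ℝ) ^ (-(5/4 : ℝ) + ε) := ⟨_, rfl⟩
  obtain ⟨r, hrdef⟩ : ∃ r : ℝ, r = (2:ℝ) ^ (-(1/2 : ℝ) + 2 * ε) := ⟨_, rfl⟩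
  have ha : 0 < a := by rw [hadef]; positivity
  have hb : 0 < b := by rw [hbdef]; positivity
  have hr : 0 < r := by rw [hrdef]; positivity
  have ha1 : a < 1 := by
    rw [hadef]
    exact Real.rpow_lt_one_of_one_lt_of_neg (by norm_num) (by linarith)
  have hr1 : r < 1 := by
    rw [hrdef]
    exact Real.rpow_lt_one_of_one_lt_of_neg (by norm_num) (by linarith)
  have hb1 : b < 1 := by
    rw [hbdef]
    exact Real.rpow_lt_one_of_one_lt_of_neg (by norm_num) (by linarith)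
  have hra : r * a = b := by
    rw [hadef, hbdef, hrdef, ← Real.rpow_add (by norm_num)]
    congr 1
    ring
  simp only [two_rpow_comm, ← hadef, ← hbdef] at h
  -- the slopes
  have hstep : ∀ K, dist (E K) (E (K + 1)) ≤ (2 * C / (c * a)) * r ^ K := by
    intro K
    have hδ : 0 < c * a ^ (K + 1) := by positivity
    have e1 : |(1/2 + c * a ^ (K + 1)) - 1/2| = c * a ^ (K + 1) := by
      rw [add_sub_cancel_left, abs_of_pos hδ]
    have k1 := h K (1/2 + c * a ^ (K + 1)) (by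
      rw [e1]
      apply mul_le_mul_of_nonneg_left _ hc.le
      exact pow_le_pow_of_le_one ha.le ha1.le (Nat.le_succ K))
    have k2 := h (K + 1) (1/2 + c * a ^ (K + 1)) (by rw [e1])
    rw [add_sub_cancel_left] at k1 k2
    have hbb : b ^ (K + 1) ≤ b ^ K := pow_le_pow_of_le_one hb.le hb1.le (Nat.le_succ K)
    have k3 : |(E K - E (K + 1)) * (c * a ^ (K + 1))| ≤ 2 * C * b ^ K := by
      have e2 : (E K - E (K + 1)) * (c * a ^ (K + 1)) =
          (P (1/2 + c * a ^ (K + 1)) - P (1/2) - E (K + 1) * (c * a ^ (K + 1))) -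
          (P (1/2 + c * a ^ (K + 1)) - P (1/2) - E K * (c * a ^ (K + 1))) := by ring
      rw [e2]
      refine (abs_sub _ _).trans ?_
      have := mul_le_mul_of_nonneg_left hbb hC.le
      linarith
    rw [abs_mul, abs_of_pos hδ] at k3
    rw [Real.dist_eq]
    have e3 : 2 * C / (c * a) * r ^ K * (c * a ^ (K + 1)) = 2 * C * b ^ K := by
      rw [← hra, mul_pow, pow_succ]
      field_simp
    rw [← e3] at k3
    exact le_of_mul_le_mul_right k3 hδ
  have hcau := cauchySeq_of_le_geometric r _ hr1 hstep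
  obtain ⟨D, hD⟩ := cauchySeq_tendsto_of_complete hcau
  have hdist := fun n => dist_le_of_le_geometric_of_tendsto r _ hr1 hstep hD n
  set B : ℝ := 2 * C / (c * a) with hB
  have hB0 : 0 < B := by positivity
  have h1r : 0 < 1 - r := by linarith
  have hmain : ∀ (K : ℕ) (u : ℝ), |u - 1/2| ≤ c * a ^ K →
      |P u - P (1/2) - D * (u - 1/2)| ≤ (C + B / (1 - r) * c) * b ^ K := by
    intro K u hu
    have k1 := h K u hu
    have k2 := hdist K
    rw [Real.dist_eq] at k2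
    have e1 : P u - P (1/2) - D * (u - 1/2) =
        (P u - P (1/2) - E K * (u - 1/2)) + (E K - D) * (u - 1/2) := by ring
    rw [e1]
    refine (abs_add_le _ _).trans ?_
    rw [abs_mul]
    have k3 : |E K - D| * |u - 1/2| ≤ (B * r ^ K / (1 - r)) * (c * a ^ K) :=
      mul_le_mul k2 hu (abs_nonneg _) (by positivity)
    have e2 : (B * r ^ K / (1 - r)) * (c * a ^ K) = B / (1 - r) * c * b ^ K := by
      rw [← hra, mul_pow]
      ring
    rw [e2] at k3
    linarith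
  set θ : ℝ := (5/3 : ℝ) - 32/9 * ε with hθ
  have hθ0 : 0 ≤ θ := by rw [hθ]; linarith
  refine ⟨D, (C + B / (1 - r) * c) * (c * a) ^ (-θ), hD, by positivity, ?_⟩
  intro u hu
  rcases (abs_nonneg (u - 1/2)).eq_or_lt with h0 | h0
  · have hu0 : u - 1/2 = 0 := abs_eq_zero.1 h0.symm
    have hu1 : u = 1/2 := by linarith
    rw [hu0, hu1]
    simp only [sub_self, mul_zero, abs_zero]
    positivity
  · obtain ⟨K, hK1, hK2⟩ := exists_nat_pow_near_of_lt_one (x := |u - 1/2| / c) (y := a)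
      (by positivity) (by rw [div_le_one hc]; exact hu) ha ha1
    rw [div_le_iff₀ hc, mul_comm] at hK2
    refine (hmain K u hK2).trans ?_
    have f1 : b ≤ a ^ θ := by
      rw [hadef, hbdef, ← Real.rpow_mul (by norm_num)]
      apply Real.rpow_le_rpow_of_exponent_le (by norm_num)
      rw [hθ]
      nlinarith
    have f2 : b ^ K ≤ (c * a) ^ (-θ) * |u - 1/2| ^ θ := by
      have g1 : b ^ K ≤ (a ^ θ) ^ K := pow_le_pow_left₀ hb.le f1 K
      have g2 : (a ^ θ) ^ K = (a ^ K) ^ θ := by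
        rw [← Real.rpow_natCast, ← Real.rpow_mul ha.le, mul_comm, Real.rpow_mul ha.le,
          Real.rpow_natCast]
      have g3 : (c * a) * a ^ K ≤ |u - 1/2| := by
        have g4 : a ^ (K + 1) * c < |u - 1/2| := by
          rwa [lt_div_iff₀ hc] at hK1
        rw [pow_succ] at g4
        nlinarith
      have g5 : ((c * a) * a ^ K) ^ θ ≤ |u - 1/2| ^ θ :=
        Real.rpow_le_rpow (by positivity) g3 hθ0
      rw [Real.mul_rpow (by positivity) (by positivity)] at g5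
      have g6 : (c * a) ^ (-θ) * ((c * a) ^ θ * (a ^ K) ^ θ) = (a ^ K) ^ θ := by
        rw [← mul_assoc, ← Real.rpow_add (by positivity), neg_add_cancel, Real.rpow_zero, one_mul]
      calc b ^ K ≤ (a ^ K) ^ θ := g1.trans (le_of_eq g2)
        _ = (c * a) ^ (-θ) * ((c * a) ^ θ * (a ^ K) ^ θ) := g6.symm
        _ ≤ _ := mul_le_mul_of_nonneg_left g5 (by positivity)
    calc (C + B / (1 - r) * c) * b ^ K ≤
          (C + B / (1 - r) * c) * ((c * a) ^ (-θ) * |u - 1/2| ^ θ) :=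
          mul_le_mul_of_nonneg_left f2 (by positivity)
      _ = _ := by ring

theorem sl_sharp : ∃ c C : ℝ, 0 < c ∧ 0 < C ∧
    ∀ (K : ℕ) (u : ℝ), |u - 1/2| ≤ c * ((2:ℝ)^K) ^ (-(3/4 : ℝ) - 0) →
      |Pit u - Pit (1/2) - sl K * (u - 1/2)| ≤ C * ((2:ℝ)^K) ^ (-(5/4 : ℝ) + 0) := by
  obtain ⟨c, C, hc, hC, h⟩ := key_sharp
  refine ⟨c, 5 * C, hc, by positivity, ?_⟩
  intro K u hu
  obtain ⟨a1, ⟨hu0, hu1⟩, a2⟩ := h K u hu
  have hx : (0:ℝ) < (2:ℝ)^K := by positivity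
  obtain ⟨b1, -, -⟩ := h K (1/2) (by
    rw [sub_self, abs_zero]
    positivity)
  have m1 := Mf_Pit (K := K) hu0 hu1
  have m2 := Mf_Pit (K := K) (u := 1/2) (by norm_num) (by norm_num)
  have hm := mK_pos K
  have e1 : mK K * (Pit u - Pit (1/2) - sl K * (u - 1/2)) =
      (Mf K u - Mf K (1/2) - Mi K (1/2) * (u - 1/2)) - (Mf K u - mK K * Pit u) +
        (Mf K (1/2) - mK K * Pit (1/2)) := by
    unfold sl
    field_simp
    ring
  have e2 : |mK K * (Pit u - Pit (1/2) - sl K * (u - 1/2))| ≤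
      C * ((2:ℝ)^K) ^ ((3/4 : ℝ) + 0) + 2 * mK K * (C * ((2:ℝ)^K) ^ (-(5/4 : ℝ) + 0)) +
        2 * mK K * (C * ((2:ℝ)^K) ^ (-(5/4 : ℝ) + 0)) := by
    rw [e1]
    refine (abs_add_le _ _).trans (add_le_add ((abs_sub _ _).trans (add_le_add a2 ?_)) ?_)
    · exact m1.trans (mul_le_mul_of_nonneg_left a1 (by positivity))
    · exact m2.trans (mul_le_mul_of_nonneg_left b1 (by positivity))
  have e3 : ((2:ℝ)^K) ^ ((3/4 : ℝ) + 0) ≤ mK K * ((2:ℝ)^K) ^ (-(5/4 : ℝ) + 0) := by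
    have : ((2:ℝ)^K) ^ ((3/4 : ℝ) + 0) = ((2:ℝ)^K) ^ (2:ℝ) * ((2:ℝ)^K) ^ (-(5/4 : ℝ) + 0) := by
      rw [← Real.rpow_add hx]
      congr 1
      ring
    rw [this]
    exact mul_le_mul_of_nonneg_right (mK_ge K) (by positivity)
  rw [abs_mul, abs_of_pos hm] at e2
  have e4 : mK K * |Pit u - Pit (1/2) - sl K * (u - 1/2)| ≤
      mK K * (5 * C * ((2:ℝ)^K) ^ (-(5/4 : ℝ) + 0)) := by
    have := mul_le_mul_of_nonneg_left e3 hC.le
    nlinarith
  exact le_of_mul_le_mul_left e4 hm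


/-- The sharp expansion of the connection probability at the critical point. -/
theorem Pit_sharp : ∃ D C : ℝ, 0 < C ∧ ∀ u : ℝ, 0 ≤ u → u ≤ 1 →
    |Pit u - Pit (1/2) - D * (u - 1/2)| ≤ C * |u - 1/2| ^ (5/3 : ℝ) := by
  obtain ⟨c, C, hc, hC, h⟩ := sl_sharp
  obtain ⟨D, C', -, hC', h'⟩ := scale_exp0 le_rfl (by norm_num) hc hC h
  simp only [mul_zero, sub_zero] at h'
  refine ⟨D, C' + (2 + |D|) * c ^ (-(5/3 : ℝ)), by positivity, ?_⟩
  intro u h0 h1
  have hp : 0 ≤ |u - 1/2| ^ (5/3 : ℝ) := by positivity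
  have hle1 : |u - 1/2| ≤ 1 := by
    rw [abs_le]
    constructor <;> linarith
  rcases le_or_gt |u - 1/2| c with hc' | hc'
  · refine (h' u hc').trans ?_
    apply mul_le_mul_of_nonneg_right _ hp
    have : 0 ≤ (2 + |D|) * c ^ (-(5/3 : ℝ)) := by positivity
    linarith
  · have k1 : |Pit u - Pit (1/2) - D * (u - 1/2)| ≤ 2 + |D| := by
      refine (abs_sub _ _).trans (add_le_add ?_ ?_)
      · rw [abs_le]
        have := Pit_nonneg h0 h1
        have := Pit_le h0 h1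
        have := Pit_nonneg (u := 1/2) (by norm_num) (by norm_num)
        have := Pit_le (u := 1/2) (by norm_num) (by norm_num)
        constructor <;> linarith
      · rw [abs_mul]
        exact mul_le_of_le_one_right (abs_nonneg _) hle1
    have k2 : 1 ≤ c ^ (-(5/3 : ℝ)) * |u - 1/2| ^ (5/3 : ℝ) := by
      have g1 : c ^ (5/3 : ℝ) ≤ |u - 1/2| ^ (5/3 : ℝ) :=
        Real.rpow_le_rpow hc.le hc'.le (by norm_num)
      have g2 : c ^ (-(5/3 : ℝ)) * c ^ (5/3 : ℝ) = 1 := by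
        rw [← Real.rpow_add hc, neg_add_cancel, Real.rpow_zero]
      exact g2.symm.le.trans (mul_le_mul_of_nonneg_left g1 (by positivity))
    have k3 : (0:ℝ) < 2 + |D| := by positivity
    have k4 : 0 ≤ C' * |u - 1/2| ^ (5/3 : ℝ) := by positivity
    nlinarith

end Pool.Agent.TH992
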