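import Pool.Agent.TH992.K.Cty

/-!
The expansion of the connection probability at the critical point.
-/

set_option autoImplicit false

namespace Pool.Agent.TH992

open H974 H12S H973N Finset

/-- From one expansion per scale to one expansion. -/
theorem scale_exp {P : ℝ → ℝ} {E : ℕ → ℝ} {ε c C : ℝ} (hε0 : 0 < ε) (hε : ε < 1 / 4)
    (hc : 0 < c) (hC : 0 < C)
    (h : ∀ (K : ℕ) (u : ℝ), |u - 1/2| ≤ c * ((2:ℝ)^K) ^ (-(3/4 : ℝ) - ε) →
      |P u - P (1/2) - E K * (u - 1/2)| ≤ C * ((2:ℝ)^K) ^ (-(5/4 : ℝ) + ε)) :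
    ∃ D C' : ℝ, Filter.Tendsto E Filter.atTop (nhds D) ∧ 0 < C' ∧ ∀ u : ℝ, |u - 1/2| ≤ c →
      |P u - P (1/2) - D * (u - 1/2)| ≤ C' * |u - 1/2| ^ ((5/3 : ℝ) - 32/9 * ε) := by
  obtain ⟨a, hadef⟩ : ∃ a : ℝ, a = (2:ℝ) ^ (-(3/4 : ℝ) - ε) := ⟨_, rfl⟩
  obtain ⟨b, hbdef⟩ : ∃ b : ℝ, b = (2:ℝ) ^ (-(5/4 : ℝ) + ε) := ⟨_, rfl⟩
  obtain ⟨r, hrdef⟩ : ∃ r : ℝ, r = (2:ℝ) ^ (-(1/2 : ℝ) + 2 * ε) := ⟨_, rfl⟩
  have ha : 0 < a := by rw [hadef]; positivity
  have hb : 0 < b := by rw [hbdef]; positivity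
  have hr : 0 < r := by rw [hrdef]; positivity
  have ha1 : a < 1 := by
    rw [hadef]
    exact Real.rpow_lt_one_of_one_lt_of_neg (by norm_num) (by linarith)
  have hr1 : r < 1 := by
    rw [hrdef]
    exact Real.rpow_lt_one_of_one_lt_of_neg (by norm_num) (by linarith)
  have hb1 : b < 1 := by
    rw [hbdef]
    exact Real.rpow_lt_one_of_one_lt_of_neg (by norm_num) (by linarith)
  have hra : r * a = b := by
    rw [hadef, hbdef, hrdef, ← Real.rpow_add (by norm_num)]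
    congr 1
    ring
  simp only [two_rpow_comm, ← hadef, ← hbdef] at h
  -- the slopes
  have hstep : ∀ K, dist (E K) (E (K + 1)) ≤ (2 * C / (c * a)) * r ^ K := by
    intro K
    have hδ : 0 < c * a ^ (K + 1) := by positivity
    have e1 : |(1/2 + c * a ^ (K + 1)) - 1/2| = c * a ^ (K + 1) := by
      rw [add_sub_cancel_left, abs_of_pos hδ]
    have k1 := h K (1/2 + c * a ^ (K + 1)) (by
      rw [e1]
      apply mul_le_mul_of_nonneg_left _ hc.le
      exact pow_le_pow_of_le_one ha.le ha1.le (Nat.le_succ K))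
    have k2 := h (K + 1) (1/2 + c * a ^ (K + 1)) (by rw [e1])
    rw [add_sub_cancel_left] at k1 k2
    have hbb : b ^ (K + 1) ≤ b ^ K := pow_le_pow_of_le_one hb.le hb1.le (Nat.le_succ K)
    have k3 : |(E K - E (K + 1)) * (c * a ^ (K + 1))| ≤ 2 * C * b ^ K := by
      have e2 : (E K - E (K + 1)) * (c * a ^ (K + 1)) =
          (P (1/2 + c * a ^ (K + 1)) - P (1/2) - E (K + 1) * (c * a ^ (K + 1))) -
          (P (1/2 + c * a ^ (K + 1)) - P (1/2) - E K * (c * a ^ (K + 1))) := by ring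
      rw [e2]
      refine (abs_sub _ _).trans ?_
      have := mul_le_mul_of_nonneg_left hbb hC.le
      linarith
    rw [abs_mul, abs_of_pos hδ] at k3
    rw [Real.dist_eq]
    have e3 : 2 * C / (c * a) * r ^ K * (c * a ^ (K + 1)) = 2 * C * b ^ K := by
      rw [← hra, mul_pow, pow_succ]
      field_simp
    rw [← e3] at k3
    exact le_of_mul_le_mul_right k3 hδ
  have hcau := cauchySeq_of_le_geometric r _ hr1 hstep
  obtain ⟨D, hD⟩ := cauchySeq_tendsto_of_complete hcau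
  have hdist := fun n => dist_le_of_le_geometric_of_tendsto r _ hr1 hstep hD n
  set B : ℝ := 2 * C / (c * a) with hB
  have hB0 : 0 < B := by positivity
  have h1r : 0 < 1 - r := by linarith
  have hmain : ∀ (K : ℕ) (u : ℝ), |u - 1/2| ≤ c * a ^ K →
      |P u - P (1/2) - D * (u - 1/2)| ≤ (C + B / (1 - r) * c) * b ^ K := by
    intro K u hu
    have k1 := h K u hu
    have k2 := hdist K
    rw [Real.dist_eq] at k2
    have e1 : P u - P (1/2) - D * (u - 1/2) =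
        (P u - P (1/2) - E K * (u - 1/2)) + (E K - D) * (u - 1/2) := by ring
    rw [e1]
    refine (abs_add_le _ _).trans ?_
    rw [abs_mul]
    have k3 : |E K - D| * |u - 1/2| ≤ (B * r ^ K / (1 - r)) * (c * a ^ K) :=
      mul_le_mul k2 hu (abs_nonneg _) (by positivity)
    have e2 : (B * r ^ K / (1 - r)) * (c * a ^ K) = B / (1 - r) * c * b ^ K := by
      rw [← hra, mul_pow]
      ring
    rw [e2] at k3
    linarith
  set θ : ℝ := (5/3 : ℝ) - 32/9 * ε with hθ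
  have hθ0 : 0 ≤ θ := by rw [hθ]; linarith
  refine ⟨D, (C + B / (1 - r) * c) * (c * a) ^ (-θ), hD, by positivity, ?_⟩
  intro u hu
  rcases (abs_nonneg (u - 1/2)).eq_or_lt with h0 | h0
  · have hu0 : u - 1/2 = 0 := abs_eq_zero.1 h0.symm
    have hu1 : u = 1/2 := by linarith
    rw [hu0, hu1]
    simp only [sub_self, mul_zero, abs_zero]
    positivity
  · obtain ⟨K, hK1, hK2⟩ := exists_nat_pow_near_of_lt_one (x := |u - 1/2| / c) (y := a)
      (by positivity) (by rw [div_le_one hc]; exact hu) ha ha1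
    rw [div_le_iff₀ hc, mul_comm] at hK2
    refine (hmain K u hK2).trans ?_
    have f1 : b ≤ a ^ θ := by
      rw [hadef, hbdef, ← Real.rpow_mul (by norm_num)]
      apply Real.rpow_le_rpow_of_exponent_le (by norm_num)
      rw [hθ]
      nlinarith
    have f2 : b ^ K ≤ (c * a) ^ (-θ) * |u - 1/2| ^ θ := by
      have g1 : b ^ K ≤ (a ^ θ) ^ K := pow_le_pow_left₀ hb.le f1 K
      have g2 : (a ^ θ) ^ K = (a ^ K) ^ θ := by
        rw [← Real.rpow_natCast, ← Real.rpow_mul ha.le, mul_comm, Real.rpow_mul ha.le,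
          Real.rpow_natCast]
      have g3 : (c * a) * a ^ K ≤ |u - 1/2| := by
        have g4 : a ^ (K + 1) * c < |u - 1/2| := by
          rwa [lt_div_iff₀ hc] at hK1
        rw [pow_succ] at g4
        nlinarith
      have g5 : ((c * a) * a ^ K) ^ θ ≤ |u - 1/2| ^ θ :=
        Real.rpow_le_rpow (by positivity) g3 hθ0
      rw [Real.mul_rpow (by positivity) (by positivity)] at g5
      have g6 : (c * a) ^ (-θ) * ((c * a) ^ θ * (a ^ K) ^ θ) = (a ^ K) ^ θ := by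
        rw [← mul_assoc, ← Real.rpow_add (by positivity), neg_add_cancel, Real.rpow_zero, one_mul]
      calc b ^ K ≤ (a ^ K) ^ θ := g1.trans (le_of_eq g2)
        _ = (c * a) ^ (-θ) * ((c * a) ^ θ * (a ^ K) ^ θ) := g6.symm
        _ ≤ _ := mul_le_mul_of_nonneg_left g5 (by positivity)
    calc (C + B / (1 - r) * c) * b ^ K ≤
          (C + B / (1 - r) * c) * ((c * a) ^ (-θ) * |u - 1/2| ^ θ) :=
          mul_le_mul_of_nonneg_left f2 (by positivity)
      _ = _ := by ring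

/-- The sum of the connection probabilities of the two edges at the origin. -/
noncomputable def Pit (u : ℝ) : ℝ := Pio true u + Pio false u

theorem Pit_nonneg {u : ℝ} (h0 : 0 ≤ u) (h1 : u ≤ 1) : 0 ≤ Pit u :=
  add_nonneg (Pio_nonneg h0 h1) (Pio_nonneg h0 h1)

theorem Pit_le {u : ℝ} (h0 : 0 ≤ u) (h1 : u ≤ 1) : Pit u ≤ 2 := by
  have a := Pio_le_one (o := true) h0 h1
  have b := Pio_le_one (o := false) h0 h1
  unfold Pit
  linarith

theorem Pit_cont : ContinuousOn Pit (Set.Icc 0 1) := (Pio_cont true).add (Pio_cont false)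

theorem sum_cor (N : ℕ) (f : Bool → ℝ) : ∑ e ∈ cor N, f e.2.2 =
    (2 * (N:ℝ) + 1) ^ 2 * (f true + f false) := by
  unfold cor
  rw [Finset.sum_product]
  simp only
  have e1 : ((N:ℤ) + 1 - -(N:ℤ)).toNat = 2 * N + 1 := by omega
  have e2 : ∀ x : ℤ, ∑ y ∈ Finset.Icc (-(N:ℤ)) N ×ˢ (Finset.univ : Finset Bool), f y.2 =
      (2 * (N:ℝ) + 1) * (f true + f false) := by
    intro x
    rw [Finset.sum_product]
    simp only [Fintype.sum_bool, Finset.sum_const, Int.card_Icc, e1, nsmul_eq_mul]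
    push_cast
    ring
  rw [Finset.sum_congr rfl (fun x _ => e2 x), Finset.sum_const, Int.card_Icc, e1, nsmul_eq_mul]
  push_cast
  ring

theorem cor_blk {K : ℕ} {e : Edg} (he : e ∈ cor (2^K)) :
    blk (bp e) (2^K) ⊆ boxE (2^(K+11)) := by
  rw [mem_cor, abs_le, abs_le] at he
  have hp11 : (2:ℤ) ^ (K + 11) = 2048 * 2 ^ K := by rw [pow_add]; ring
  have hpz : (1:ℤ) ≤ 2 ^ K := by exact_mod_cast (Nat.one_le_two_pow : 1 ≤ 2 ^ K)
  push_cast at he
  unfold blk bp boxE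
  simp only
  apply RE_subset <;> push_cast <;> rw [hp11] <;> linarith [he.1.1, he.1.2, he.2.1, he.2.2]

/-- Number of base points in the core. -/
noncomputable def mK (K : ℕ) : ℝ := (2 * (2:ℝ)^K + 1) ^ 2

theorem mK_pos (K : ℕ) : 0 < mK K := by unfold mK; positivity

theorem mK_ge (K : ℕ) : ((2:ℝ)^K) ^ (2:ℝ) ≤ mK K := by
  unfold mK
  rw [Real.rpow_two]
  have : (0:ℝ) < 2 ^ K := by positivity
  nlinarith

theorem Mf_Pit {K : ℕ} {u : ℝ} (h0 : 0 ≤ u) (h1 : u ≤ 1) :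
    |Mf K u - mK K * Pit u| ≤ 2 * mK K * a4 u (2^K) := by
  have e1 : mK K * Pit u = ∑ e ∈ cor (2^K), Pio e.2.2 u := by
    rw [sum_cor (2^K) (fun o => Pio o u)]
    unfold mK Pit
    push_cast
    ring
  rw [e1]
  unfold Mf
  rw [← Finset.sum_sub_distrib]
  refine (Finset.abs_sum_le_sum_abs _ _).trans ?_
  refine (Finset.sum_le_sum fun e he =>
    abs_PQ_Pio (e := e) Nat.one_le_two_pow h0 h1 (cor_blk he)).trans ?_
  rw [Finset.sum_const, card_cor, nsmul_eq_mul]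
  unfold mK
  push_cast
  linarith

/-- The slopes. -/
noncomputable def sl (K : ℕ) : ℝ := Mi K (1/2) / mK K

theorem sl_est {ε : ℝ} (hε0 : 0 < ε) (hε : ε < 1 / 4) : ∃ c C : ℝ, 0 < c ∧ 0 < C ∧
    ∀ (K : ℕ) (u : ℝ), |u - 1/2| ≤ c * ((2:ℝ)^K) ^ (-(3/4 : ℝ) - ε) →
      |Pit u - Pit (1/2) - sl K * (u - 1/2)| ≤ C * ((2:ℝ)^K) ^ (-(5/4 : ℝ) + ε) := by
  obtain ⟨c, C, hc, hC, h⟩ := key_est hε0 hε
  refine ⟨c, 5 * C, hc, by positivity, ?_⟩
  intro K u hu
  obtain ⟨a1, ⟨hu0, hu1⟩, a2⟩ := h K u hu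
  have hx : (0:ℝ) < (2:ℝ)^K := by positivity
  obtain ⟨b1, -, -⟩ := h K (1/2) (by
    rw [sub_self, abs_zero]
    positivity)
  have m1 := Mf_Pit (K := K) hu0 hu1
  have m2 := Mf_Pit (K := K) (u := 1/2) (by norm_num) (by norm_num)
  have hm := mK_pos K
  have e1 : mK K * (Pit u - Pit (1/2) - sl K * (u - 1/2)) =
      (Mf K u - Mf K (1/2) - Mi K (1/2) * (u - 1/2)) - (Mf K u - mK K * Pit u) +
        (Mf K (1/2) - mK K * Pit (1/2)) := by
    unfold sl
    field_simp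
    ring
  have e2 : |mK K * (Pit u - Pit (1/2) - sl K * (u - 1/2))| ≤
      C * ((2:ℝ)^K) ^ ((3/4 : ℝ) + ε) + 2 * mK K * (C * ((2:ℝ)^K) ^ (-(5/4 : ℝ) + ε)) +
        2 * mK K * (C * ((2:ℝ)^K) ^ (-(5/4 : ℝ) + ε)) := by
    rw [e1]
    refine (abs_add_le _ _).trans (add_le_add ((abs_sub _ _).trans (add_le_add a2 ?_)) ?_)
    · exact m1.trans (mul_le_mul_of_nonneg_left a1 (by positivity))
    · exact m2.trans (mul_le_mul_of_nonneg_left b1 (by positivity))
  have e3 : ((2:ℝ)^K) ^ ((3/4 : ℝ) + ε) ≤ mK K * ((2:ℝ)^K) ^ (-(5/4 : ℝ) + ε) := by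
    have : ((2:ℝ)^K) ^ ((3/4 : ℝ) + ε) = ((2:ℝ)^K) ^ (2:ℝ) * ((2:ℝ)^K) ^ (-(5/4 : ℝ) + ε) := by
      rw [← Real.rpow_add hx]
      congr 1
      ring
    rw [this]
    exact mul_le_mul_of_nonneg_right (mK_ge K) (by positivity)
  rw [abs_mul, abs_of_pos hm] at e2
  have e4 : mK K * |Pit u - Pit (1/2) - sl K * (u - 1/2)| ≤
      mK K * (5 * C * ((2:ℝ)^K) ^ (-(5/4 : ℝ) + ε)) := by
    have := mul_le_mul_of_nonneg_left e3 hC.le
    nlinarith
  exact le_of_mul_le_mul_left e4 hm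

/-- The expansion of the connection probability at the critical point. -/
theorem Pit_exp : ∃ D : ℝ, ∀ η : ℝ, 0 < η → ∃ C : ℝ, 0 < C ∧ ∀ u : ℝ, 0 ≤ u → u ≤ 1 →
    |Pit u - Pit (1/2) - D * (u - 1/2)| ≤ C * |u - 1/2| ^ ((5/3 : ℝ) - η) := by
  have hT : ∃ D : ℝ, Filter.Tendsto sl Filter.atTop (nhds D) := by
    obtain ⟨c, C, hc, hC, h⟩ := sl_est (ε := 1/8) (by norm_num) (by norm_num)
    obtain ⟨D, _, hD, _⟩ := scale_exp (by norm_num) (by norm_num) hc hC h
    exact ⟨D, hD⟩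
  obtain ⟨D, hD⟩ := hT
  refine ⟨D, ?_⟩
  intro η hη
  set ε : ℝ := min (9 / 32 * η) (1/8) with hεdef
  have hε0 : 0 < ε := lt_min (by positivity) (by norm_num)
  have hε1 : ε < 1/4 := (min_le_right _ _).trans_lt (by norm_num)
  have hεη : 32/9 * ε ≤ η := by
    have := min_le_left (9 / 32 * η) (1/8)
    rw [← hεdef] at this
    linarith
  obtain ⟨c, C, hc, hC, h⟩ := sl_est hε0 hε1
  obtain ⟨D', C', hD', hC', h'⟩ := scale_exp hε0 hε1 hc hC h
  have hDD : D' = D := tendsto_nhds_unique hD' hD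
  rw [hDD] at h'
  set θ : ℝ := (5/3 : ℝ) - 32/9 * ε with hθ
  have hθ0 : 0 ≤ θ := by rw [hθ]; linarith
  refine ⟨C' + (2 + |D|) * c ^ (-θ), by positivity, ?_⟩
  intro u h0 h1
  rcases (abs_nonneg (u - 1/2)).eq_or_lt with hz | hz
  · have hu0 : u - 1/2 = 0 := abs_eq_zero.1 hz.symm
    have hu1 : u = 1/2 := by linarith
    rw [hu0, hu1]
    simp only [sub_self, mul_zero, abs_zero]
    positivity
  have hle1 : |u - 1/2| ≤ 1 := by
    rw [abs_le]
    constructor <;> linarith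
  have hexp : |u - 1/2| ^ θ ≤ |u - 1/2| ^ ((5/3 : ℝ) - η) :=
    Real.rpow_le_rpow_of_exponent_ge hz hle1 (by rw [hθ]; linarith)
  refine le_trans ?_ (mul_le_mul_of_nonneg_left hexp (by positivity))
  have hp : 0 ≤ |u - 1/2| ^ θ := by positivity
  rcases le_or_gt |u - 1/2| c with hc' | hc'
  · refine (h' u hc').trans ?_
    apply mul_le_mul_of_nonneg_right _ hp
    have : 0 ≤ (2 + |D|) * c ^ (-θ) := by positivity
    linarith
  · have k1 : |Pit u - Pit (1/2) - D * (u - 1/2)| ≤ 2 + |D| := by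
      refine (abs_sub _ _).trans (add_le_add ?_ ?_)
      · rw [abs_le]
        have := Pit_nonneg h0 h1
        have := Pit_le h0 h1
        have := Pit_nonneg (u := 1/2) (by norm_num) (by norm_num)
        have := Pit_le (u := 1/2) (by norm_num) (by norm_num)
        constructor <;> linarith
      · rw [abs_mul]
        exact mul_le_of_le_one_right (abs_nonneg _) hle1
    have k2 : 1 ≤ c ^ (-θ) * |u - 1/2| ^ θ := by
      have g1 : c ^ θ ≤ |u - 1/2| ^ θ := Real.rpow_le_rpow hc.le hc'.le hθ0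
      have g2 : c ^ (-θ) * c ^ θ = 1 := by
        rw [← Real.rpow_add hc, neg_add_cancel, Real.rpow_zero]
      exact g2.symm.le.trans (mul_le_mul_of_nonneg_left g1 (by positivity))
    have k3 : (0:ℝ) < 2 + |D| := by positivity
    have k4 : 0 ≤ C' * |u - 1/2| ^ θ := by positivity
    nlinarith

end Pool.Agent.TH992
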