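import Pool.Agent.H973R3.NC.FP
import Pool.Agent.H973R3.NC.NP
import Pool.Agent.H973R3.NC.DV

/-!
Third differences of the number of clusters: the event that the end points of an edge are
connected off the edge, and the symmetries of its second differences.
-/

set_option autoImplicit false

namespace Pool.Agent.TH992

open H974 H12S H973N Finset

/-- The end points of `e` are connected off `e`. -/
def Ae (e : Edg) (F : Finset Edg) : Prop := Reach (↑(F.erase e) : Set Edg) (src e) (tgt e)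

theorem Ae_mono {e : Edg} {F G : Finset Edg} (h : F ⊆ G) (hF : Ae e F) : Ae e G :=
  Reach.mono (by exact_mod_cast erase_subset_erase e h) hF

theorem Ae_mono' (e : Edg) : ∀ F G : Finset Edg, F ⊆ G → Ae e F → Ae e G := fun _ _ => Ae_mono

/-- Connection after adding an edge. -/
theorem reach_insert {G : Set Edg} {f : Edg} {x y : Vtx} : Reach (insert f G) x y ↔
    Reach G x y ∨ (Reach G x (src f) ∧ Reach G (tgt f) y) ∨
      (Reach G x (tgt f) ∧ Reach G (src f) y) :=
  GR_insert (s := src) (t := tgt) (F := G) (e := f) (x := x) (y := y)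

/-- Pivotality in terms of the configuration off the two edges. -/
theorem Pf_iff {e f : Edg} (hef : e ≠ f) {F : Finset Edg} : Pf (Ae e) f F ↔
    ¬ Reach (↑((F.erase e).erase f) : Set Edg) (src e) (tgt e) ∧
      ((Reach (↑((F.erase e).erase f) : Set Edg) (src e) (src f) ∧
          Reach (↑((F.erase e).erase f) : Set Edg) (tgt f) (tgt e)) ∨
        (Reach (↑((F.erase e).erase f) : Set Edg) (src e) (tgt f) ∧
          Reach (↑((F.erase e).erase f) : Set Edg) (src f) (tgt e))) := by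
  have h1 : (↑((insert f F).erase e) : Set Edg) = insert f (↑((F.erase e).erase f) : Set Edg) := by
    ext x
    simp only [coe_erase, coe_insert, Set.mem_sdiff, Set.mem_insert_iff, Finset.mem_coe,
      Set.mem_singleton_iff]
    constructor
    · rintro ⟨h | h, h'⟩
      · exact Or.inl h
      · by_cases hx : x = f
        · exact Or.inl hx
        · exact Or.inr ⟨⟨h, h'⟩, hx⟩
    · rintro (h | ⟨⟨h, h'⟩, _⟩)
      · exact ⟨Or.inl h, fun h'' => hef (h''.symm.trans h)⟩
      · exact ⟨Or.inr h, h'⟩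
  have h2 : (F.erase f).erase e = (F.erase e).erase f := erase_right_comm
  unfold Pf Ae
  rw [h1, h2, reach_insert]
  tauto

/-- The symmetry of the pivotality. -/
theorem Pf_symm {e f : Edg} (hef : e ≠ f) {F : Finset Edg} : Pf (Ae e) f F ↔ Pf (Ae f) e F := by
  rw [Pf_iff hef, Pf_iff hef.symm, erase_right_comm]
  constructor
  · rintro ⟨h, h'⟩
    rcases h' with ⟨h1, h2⟩ | ⟨h1, h2⟩
    · exact ⟨fun h3 => h ((h1.trans h3).trans h2), Or.inl ⟨h1.symm, h2.symm⟩⟩
    · exact ⟨fun h3 => h ((h1.trans h3.symm).trans h2), Or.inr ⟨h2, h1⟩⟩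
  · rintro ⟨h, h'⟩
    rcases h' with ⟨h1, h2⟩ | ⟨h1, h2⟩
    · exact ⟨fun h3 => h ((h1.trans h3).trans h2), Or.inl ⟨h1.symm, h2.symm⟩⟩
    · exact ⟨fun h3 => h ((h1.trans h3.symm).trans h2), Or.inr ⟨h2, h1⟩⟩

theorem SD_iff {f : Finset Edg → Prop} (hf : ∀ F G : Finset Edg, F ⊆ G → f F → f G) {a b : Edg}
    (hab : a ≠ b) {F : Finset Edg} :
    SD f a b F ↔ ¬ (Pf f a (F.erase b) ↔ Pf f a (insert b F)) := by
  have e1 : (insert b F).erase a = insert b (F.erase a) := erase_insert_of_ne hab.symm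
  have e2 : (insert a F).erase b = insert a (F.erase b) := erase_insert_of_ne hab
  have e3 : insert b (insert a F) = insert a (insert b F) := Finset.insert_comm _ _ _
  have e4 : (F.erase b).erase a = (F.erase a).erase b := erase_right_comm
  have m1 : f ((F.erase a).erase b) → f (insert a (F.erase b)) := by
    apply hf
    rw [← e4]
    exact (erase_subset _ _).trans (subset_insert _ _)
  have m2 : f ((F.erase a).erase b) → f (insert b (F.erase a)) :=
    hf _ _ ((erase_subset _ _).trans (subset_insert _ _))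
  have m3 : f (insert a (F.erase b)) → f (insert a (insert b F)) :=
    hf _ _ (insert_subset_insert _ ((erase_subset _ _).trans (subset_insert _ _)))
  have m4 : f (insert b (F.erase a)) → f (insert a (insert b F)) := by
    apply hf
    rw [← e3]
    exact insert_subset_insert _ ((erase_subset _ _).trans (subset_insert _ _))
  unfold SD Pf
  rw [e1, e2, e3, e4]
  tauto

theorem SD_comm {f : Finset Edg → Prop} {a b : Edg} {F : Finset Edg} :
    SD f a b F ↔ SD f b a F := by
  have e3 : insert b (insert a F) = insert a (insert b F) := Finset.insert_comm _ _ _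
  have e4 : (F.erase b).erase a = (F.erase a).erase b := erase_right_comm
  unfold SD
  rw [e3, e4]
  tauto

/-- The third differences are symmetric. -/
theorem SD_swap {a b c : Edg} (hab : a ≠ b) (hac : a ≠ c) (hbc : b ≠ c) {F : Finset Edg} :
    SD (Ae a) b c F ↔ SD (Ae b) a c F := by
  rw [SD_iff (Ae_mono' a) hbc, SD_iff (Ae_mono' b) hac, Pf_symm hab, Pf_symm hab]

/-- A path either visits the boundary of a box or stays inside. -/
theorem exit_or {G : Set Edg} {a b c d : ℤ} {u v : Vtx} (hu : inR a b c d u) (h : Reach G u v) :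
    (∃ w ∈ bdR a b c d, Reach (G ∩ ↑(RE a b c d)) u w) ∨
      (inR a b c d v ∧ Reach (G ∩ ↑(RE a b c d)) u v) := by
  induction h with
  | refl => exact Or.inr ⟨hu, Reach.refl _ _⟩
  | @tail y z _ hs ih =>
    rcases ih with ih | ⟨h1, h2⟩
    · exact Or.inl ih
    · by_cases hb : y ∈ bdR a b c d
      · exact Or.inl ⟨y, hb, h2⟩
      · have hb' : ¬ (y.1 = a ∨ y.1 = b ∨ y.2 = c ∨ y.2 = d) := fun h => hb ⟨h1, h⟩
        obtain ⟨g, hg, hc⟩ := hs
        right
        obtain ⟨⟨p1, p2⟩, p3, p4⟩ := h1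
        obtain ⟨x0, y0, _ | _⟩ := g
        · simp only [src_mk, tgt_false] at hc
          rcases hc with ⟨k1, k2⟩ | ⟨k1, k2⟩
          · subst k1 k2
            simp only at p1 p2 p3 p4 hb'
            refine ⟨⟨⟨p1, p2⟩, by omega, by omega⟩, h2.trans (Adj.reach
              ⟨(x0, y0, false), ⟨hg, ?_⟩, Or.inl ⟨rfl, rfl⟩⟩)⟩
            rw [Finset.mem_coe, mem_RE_false]
            omega
          · subst k1 k2
            simp only at p1 p2 p3 p4 hb'
            refine ⟨⟨⟨p1, p2⟩, by omega, by omega⟩, h2.trans (Adj.reach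
              ⟨(x0, y0, false), ⟨hg, ?_⟩, Or.inr ⟨rfl, rfl⟩⟩)⟩
            rw [Finset.mem_coe, mem_RE_false]
            omega
        · simp only [src_mk, tgt_true] at hc
          rcases hc with ⟨k1, k2⟩ | ⟨k1, k2⟩
          · subst k1 k2
            simp only at p1 p2 p3 p4 hb'
            refine ⟨⟨⟨by omega, by omega⟩, p3, p4⟩, h2.trans (Adj.reach
              ⟨(x0, y0, true), ⟨hg, ?_⟩, Or.inl ⟨rfl, rfl⟩⟩)⟩
            rw [Finset.mem_coe, mem_RE_true]
            omega
          · subst k1 k2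
            simp only at p1 p2 p3 p4 hb'
            refine ⟨⟨⟨by omega, by omega⟩, p3, p4⟩, h2.trans (Adj.reach
              ⟨(x0, y0, true), ⟨hg, ?_⟩, Or.inr ⟨rfl, rfl⟩⟩)⟩
            rw [Finset.mem_coe, mem_RE_true]
            omega

/-- Last visit of a vertex set. -/
theorem last_exit {G b : Set Edg} {Q : Vtx → Prop} (hb : ∀ e ∈ b, Q (src e) ∧ Q (tgt e))
    {x y : Vtx} (hx : Q x) (h : Reach G x y) :
    ∃ u, Q u ∧ Reach G x u ∧ Reach (G \ b) u y := by
  induction h with
  | refl => exact ⟨x, hx, Reach.refl _ _, Reach.refl _ _⟩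
  | @tail y z hy hs ih =>
    obtain ⟨u, h1, h2, h3⟩ := ih
    obtain ⟨g, hg, hc⟩ := hs
    by_cases hgb : g ∈ b
    · have := hb g hgb
      refine ⟨z, ?_, Reach.trans hy (Adj.reach ⟨g, hg, hc⟩), Reach.refl _ _⟩
      rcases hc with ⟨_, k⟩ | ⟨k, _⟩
      · rw [← k]; exact this.2
      · rw [← k]; exact this.1
    · exact ⟨u, h1, h2, h3.trans (Adj.reach ⟨g, ⟨hg, hgb⟩, hc⟩)⟩

theorem src_in_ball {c : Edg} {ρ : ℕ} (hρ : 1 ≤ ρ) :
    inR (c.1 - ρ) (c.1 + ρ) (c.2.1 - ρ) (c.2.1 + ρ) (src c) ∧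
      inR (c.1 - ρ) (c.1 + ρ) (c.2.1 - ρ) (c.2.1 + ρ) (tgt c) := by
  obtain ⟨x, y, _ | _⟩ := c
  · unfold inR
    simp only [src_mk, tgt_false]
    omega
  · unfold inR
    simp only [src_mk, tgt_true]
    omega

/-- The local four-arm event around an edge whose end points are connected through the outside
only. -/
theorem L4_of {c : Edg} {ρ : ℕ} (hρ : 1 ≤ ρ) {w : Finset Edg} {G1 G0 : Set Edg}
    (h1 : ∀ x ∈ G1, x ∉ blk (bp c) ρ)
    (hr1 : Reach ((↑(w.erase c) : Set Edg) ∪ G1) (src c) (tgt c))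
    (hr0 : ¬ Reach ((↑(w.erase c) : Set Edg) ∪ G0) (src c) (tgt c)) : L4 ρ c (↑w : Set Edg) := by
  obtain ⟨k1, k2⟩ := src_in_ball (c := c) hρ
  have hsub : ((↑(w.erase c) : Set Edg) ∪ G1) ∩
      ↑(RE (c.1 - ρ) (c.1 + ρ) (c.2.1 - ρ) (c.2.1 + ρ)) ⊆
      ((↑w : Set Edg) ∩ ↑(RE (c.1 - ρ) (c.1 + ρ) (c.2.1 - ρ) (c.2.1 + ρ))) \ {c} := by
    rintro x ⟨hx | hx, hx'⟩
    · rw [Finset.mem_coe, Finset.mem_erase] at hx
      exact ⟨⟨hx.2, hx'⟩, hx.1⟩
    · exact absurd (Finset.mem_coe.1 hx') (h1 x hx)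
  have hno : ¬ Reach (((↑w : Set Edg) ∩ ↑(RE (c.1 - ρ) (c.1 + ρ) (c.2.1 - ρ) (c.2.1 + ρ))) \ {c})
      (src c) (tgt c) := by
    intro h
    apply hr0
    refine h.mono ?_
    rintro x ⟨⟨hx, _⟩, hx'⟩
    left
    rw [Finset.mem_coe, Finset.mem_erase]
    exact ⟨hx', hx⟩
  refine ⟨?_, ?_, hno⟩
  · rcases exit_or k1 hr1 with ⟨z, hz, hz'⟩ | ⟨_, h⟩
    · exact ⟨z, hz, hz'.mono hsub⟩
    · exact absurd (h.mono hsub) hno
  · rcases exit_or k2 hr1.symm with ⟨z, hz, hz'⟩ | ⟨_, h⟩
    · exact ⟨z, hz, hz'.mono hsub⟩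
    · exact absurd (h.mono hsub).symm hno

/-- The isolated edge of a third difference has a local four-arm event. -/
theorem SD_L4 {c a b : Edg} {ρ : ℕ} (hρ : 1 ≤ ρ)
    (ha : a ∉ blk (bp c) ρ) (hb : b ∉ blk (bp c) ρ) {F : Finset Edg} (h : SD (Ae c) a b F) :
    L4 ρ c (↑F : Set Edg) := by
  obtain ⟨_, _, h1, h0⟩ := h
  have key : L4 ρ c (↑(F.filter (fun x => x ∈ blk (bp c) ρ)) : Set Edg) := by
    refine L4_of hρ (G1 := {x | x ∈ insert a (insert b F) ∧ x ∉ blk (bp c) ρ})
      (G0 := {x | x ∈ (F.erase a).erase b ∧ x ∉ blk (bp c) ρ ∧ x ≠ c}) (fun x hx => hx.2) ?_ ?_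
    · refine Reach.mono ?_ h1
      intro x hx
      rw [Finset.mem_coe, Finset.mem_erase, Finset.mem_insert, Finset.mem_insert] at hx
      by_cases hxb : x ∈ blk (bp c) ρ
      · left
        rw [Finset.mem_coe, Finset.mem_erase, Finset.mem_filter]
        refine ⟨hx.1, ?_, hxb⟩
        rcases hx.2 with h | h | h
        · exact absurd hxb (h ▸ ha)
        · exact absurd hxb (h ▸ hb)
        · exact h
      · right
        exact ⟨by rw [Finset.mem_insert, Finset.mem_insert]; exact hx.2, hxb⟩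
    · intro h
      apply h0
      refine Reach.mono ?_ h
      rintro x (hx | hx)
      · rw [Finset.mem_coe, Finset.mem_erase, Finset.mem_filter] at hx
        rw [Finset.mem_coe, Finset.mem_erase, Finset.mem_erase, Finset.mem_erase]
        exact ⟨hx.1, fun h => hb (h ▸ hx.2.2), fun h => ha (h ▸ hx.2.2), hx.2.1⟩
      · rw [Finset.mem_coe, Finset.mem_erase]
        exact ⟨hx.2.2, hx.1⟩
  unfold L4 at key ⊢
  refine (A4_congr ?_).1 key
  intro g hg _
  rw [Finset.mem_coe, Finset.mem_coe, Finset.mem_filter]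
  exact ⟨fun h => h.1, fun h => ⟨h, hg⟩⟩

end Pool.Agent.TH992
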