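import Pool.Agent.TH992.K.Tri

/-!
Conditioning on the ball around an edge, and the sum of the influences outside a box.
-/

set_option autoImplicit false

namespace Pool.Agent.TH992

open H974 H12S H973N Finset

theorem okQ {q : ℝ} (h0 : 0 ≤ q) (h1 : q ≤ 1) : Ok (fun _ : Edg => q) := fun _ => ⟨h0, h1⟩

/-- Sum of the influences of the edges outside a box. -/
theorem outer_sum (κ : ℝ) (hκ : 0 < κ) : ∃ C : ℝ, 0 < C ∧ ∀ (q : ℝ) (n : ℕ), Win q κ n →
    ∀ (K Λ R : ℕ), 1 ≤ Λ → 4 * 2^K ≤ n → 2 * R ≤ Λ * 2^K → ∀ (a b c d : ℤ), -(R:ℤ) ≤ a →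
    a ≤ b → b ≤ R → -(R:ℤ) ≤ c → c ≤ d → d ≤ R →
    ∀ (I J : Set Vtx) (O : Set Edg), Disjoint O ↑(boxE R \ RE a b c d) →
    (∀ v ∈ I ∪ J, inR a b c d v) →
    ∑ g ∈ boxE R \ RE a b c d, PQ q (boxE R \ RE a b c d) (Pf (CO I J O) g) ≤
      C * Λ * W1s q K := by
  classical
  obtain ⟨C, hC, hW⟩ := whitney_sum κ hκ
  refine ⟨4 * C, by positivity, ?_⟩
  intro q n h K Λ R hΛ hn hR a b c d ha hab hb hc hcd hd I J O hO hIJ
  have h0 : 0 ≤ q := by linarith [h.lo]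
  have h1 : q ≤ 1 := by linarith [h.hi]
  have hok := okQ h0 h1
  have hRz : 2 * (R:ℤ) ≤ Λ * 2^K := by exact_mod_cast hR
  set S' := boxE R \ RE a b c d with hS'
  set X : Edg → ℝ := fun g => PQ q S' (Pf (CO I J O) g) with hX
  have hX0 : ∀ g, 0 ≤ X g := fun g => Pr_nonneg hok _ _
  -- one box
  have one : ∀ a' b' c' d' : ℤ, -(R:ℤ) ≤ a' → b' ≤ R → -(R:ℤ) ≤ c' → d' ≤ R →
      (b ≤ a' ∨ b' ≤ a ∨ d ≤ c' ∨ d' ≤ c) →
      ∑ g ∈ S'.filter (fun g => g ∈ RE a' b' c' d'), X g ≤ C * Λ * W1s q K := by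
    intro a' b' c' d' h1' h2' h3' h4' hsep
    refine hW q n h a' b' c' d' K Λ hΛ hn (by linarith) (by linarith) S' I J O hO ?_ _
      (Finset.filter_subset _ _) (fun g hg => (Finset.mem_filter.1 hg).2) ?_
    · intro v hv hv'
      have := hIJ v hv
      unfold inR at this
      omega
    · intro g hg e he _
      rw [hS', Finset.mem_sdiff]
      constructor
      · unfold boxE
        refine RE_subset ?_ ?_ ?_ ?_ he <;> omega
      · intro he'
        obtain ⟨x, y, _ | _⟩ := e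
        · rw [mem_RE_false] at he he'
          omega
        · rw [mem_RE_true] at he he'
          omega
  have k1 := one b R (-R) R (by omega) le_rfl le_rfl le_rfl (Or.inl le_rfl)
  have k2 := one (-R) a (-R) R le_rfl (by omega) le_rfl le_rfl (Or.inr (Or.inl le_rfl))
  have k3 := one (-R) R d R le_rfl le_rfl (by omega) le_rfl (Or.inr (Or.inr (Or.inl le_rfl)))
  have k4 := one (-R) R (-R) c le_rfl le_rfl le_rfl (by omega)
    (Or.inr (Or.inr (Or.inr le_rfl)))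
  have hcov : ∀ g ∈ S', X g ≤ (if g ∈ RE b R (-R) R then X g else 0) +
      (if g ∈ RE (-R) a (-R) R then X g else 0) + (if g ∈ RE (-R) R d R then X g else 0) +
      (if g ∈ RE (-R) R (-R) c then X g else 0) := by
    intro g hg
    have hx := hX0 g
    have n1 : 0 ≤ (if g ∈ RE b R (-R) R then X g else 0) := by split_ifs <;> simp [hx]
    have n2 : 0 ≤ (if g ∈ RE (-R) a (-R) R then X g else 0) := by split_ifs <;> simp [hx]
    have n3 : 0 ≤ (if g ∈ RE (-R) R d R then X g else 0) := by split_ifs <;> simp [hx]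
    have n4 : 0 ≤ (if g ∈ RE (-R) R (-R) c then X g else 0) := by split_ifs <;> simp [hx]
    have hor : g ∈ RE b R (-R) R ∨ g ∈ RE (-R) a (-R) R ∨ g ∈ RE (-R) R d R ∨
        g ∈ RE (-R) R (-R) c := by
      rw [hS', Finset.mem_sdiff] at hg
      obtain ⟨hg1, hg2⟩ := hg
      unfold boxE at hg1
      obtain ⟨x, y, _ | _⟩ := g
      · simp only [mem_RE_false] at hg1 hg2 ⊢
        omega
      · simp only [mem_RE_true] at hg1 hg2 ⊢
        omega
    rcases hor with h' | h' | h' | h'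
    · rw [if_pos h'] at n1 ⊢; linarith
    · rw [if_pos h'] at n2 ⊢; linarith
    · rw [if_pos h'] at n3 ⊢; linarith
    · rw [if_pos h'] at n4 ⊢; linarith
  calc ∑ g ∈ S', X g ≤ ∑ g ∈ S', ((if g ∈ RE b R (-R) R then X g else 0) +
      (if g ∈ RE (-R) a (-R) R then X g else 0) + (if g ∈ RE (-R) R d R then X g else 0) +
      (if g ∈ RE (-R) R (-R) c then X g else 0)) := Finset.sum_le_sum hcov
    _ = ∑ g ∈ S'.filter (fun g => g ∈ RE b R (-R) R), X g +
        ∑ g ∈ S'.filter (fun g => g ∈ RE (-R) a (-R) R), X g +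
        ∑ g ∈ S'.filter (fun g => g ∈ RE (-R) R d R), X g +
        ∑ g ∈ S'.filter (fun g => g ∈ RE (-R) R (-R) c), X g := by
      rw [Finset.sum_add_distrib, Finset.sum_add_distrib, Finset.sum_add_distrib]
      simp only [Finset.sum_filter]
    _ ≤ 4 * C * Λ * W1s q K := by linarith

/-- The connection event after fixing the configuration of a set which contains the edge. -/
theorem Ae_union {c : Edg} {w G : Finset Edg} (hc : c ∉ G) :
    Ae c (w ∪ G) ↔ CO {src c} {tgt c} (↑(w.erase c) : Set Edg) G := by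
  have e1 : (↑((w ∪ G).erase c) : Set Edg) = ↑G ∪ ↑(w.erase c) := by
    rw [Finset.erase_union_distrib, Finset.erase_eq_of_notMem hc, Finset.coe_union, Set.union_comm]
  unfold Ae CO Cn
  rw [e1]
  constructor
  · intro h
    exact ⟨src c, rfl, tgt c, rfl, h⟩
  · rintro ⟨u, hu, v, hv, h⟩
    rw [Set.mem_singleton_iff] at hu hv
    rwa [hu, hv] at h

/-- Pivotality in the ball decomposition. -/
theorem Pf_van {q : ℝ} (h0 : 0 ≤ q) (h1 : q ≤ 1) {U : Finset Edg} {ρ : ℕ} (hρ : 1 ≤ ρ) {c g : Edg}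
    (hB : blk (bp c) ρ ⊆ U) (hg : g ∉ blk (bp c) ρ) :
    PQ q U (Pf (Ae c) g) ≤ Ex (fun _ => q) (blk (bp c) ρ) (fun w => ind (L4 ρ c (↑w : Set Edg)) *
      PQ q (U \ blk (bp c) ρ) (Pf (CO {src c} {tgt c} ↑(w.erase c)) g)) := by
  have hok := okQ h0 h1
  set B := blk (bp c) ρ with hBdef
  have hcB : c ∈ B := FPX.self_mem_blk hρ
  have hgc : g ≠ c := fun h => hg (h ▸ hcB)
  have hU : U = B ∪ (U \ B) := by rw [Finset.union_sdiff_of_subset hB]
  have hd : Disjoint B (U \ B) := Finset.disjoint_sdiff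
  unfold PQ Pr
  conv_lhs => rw [hU, Ex_union hd]
  apply Ex_mono hok
  intro w hw
  rw [← Ex_mul_left]
  apply Ex_mono hok
  intro F hF
  have hgw : g ∉ w := fun h => hg (hw h)
  have hcF : c ∉ F := fun h => (Finset.mem_sdiff.mp (hF h)).2 hcB
  rw [← ind_and]
  apply ind_mono
  rintro ⟨k1, k2⟩
  have s1 : insert g (w ∪ F) = w ∪ insert g F := by rw [Finset.union_insert]
  have s2 : (w ∪ F).erase g = w ∪ F.erase g := by
    rw [Finset.erase_union_distrib, Finset.erase_eq_of_notMem hgw]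
  have c1 : c ∉ insert g F := by
    rw [Finset.mem_insert]; push Not; exact ⟨hgc.symm, hcF⟩
  have c2 : c ∉ F.erase g := fun h => hcF (Finset.erase_subset _ _ h)
  rw [s1] at k1
  rw [s2] at k2
  rw [Ae_union c1] at k1
  rw [Ae_union c2] at k2
  refine ⟨?_, k1, k2⟩
  obtain ⟨u, hu, v, hv, hr⟩ := k1
  rw [Set.mem_singleton_iff] at hu hv
  subst hu hv
  refine L4_of hρ (G1 := ↑(insert g F)) (G0 := ↑(F.erase g)) ?_ ?_ ?_
  · intro x hx hxB
    rw [Finset.mem_coe, Finset.mem_insert] at hx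
    rcases hx with rfl | hx
    · exact hg hxB
    · exact (Finset.mem_sdiff.mp (hF hx)).2 hxB
  · rwa [Set.union_comm] at hr
  · intro h
    exact k2 ⟨src c, rfl, tgt c, rfl, by rwa [Set.union_comm] at h⟩

/-- Block pivotality in the ball decomposition. -/
theorem Bf_van {q : ℝ} (h0 : 0 ≤ q) (h1 : q ≤ 1) {U : Finset Edg} {ρ : ℕ} (hρ : 1 ≤ ρ) {c : Edg}
    {b : Finset Edg} (hB : blk (bp c) ρ ⊆ U) (hb : ∀ x ∈ b, x ∉ blk (bp c) ρ) :
    PQ q U (fun F => L4 ρ c (↑F : Set Edg) ∧ Bf (Ae c) b F) ≤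
      Ex (fun _ => q) (blk (bp c) ρ) (fun w => ind (L4 ρ c (↑w : Set Edg)) *
      PQ q (U \ blk (bp c) ρ) (Bf (CO {src c} {tgt c} ↑(w.erase c)) b)) := by
  have hok := okQ h0 h1
  set B := blk (bp c) ρ with hBdef
  have hcB : c ∈ B := FPX.self_mem_blk hρ
  have hU : U = B ∪ (U \ B) := by rw [Finset.union_sdiff_of_subset hB]
  have hd : Disjoint B (U \ B) := Finset.disjoint_sdiff
  unfold PQ Pr
  conv_lhs => rw [hU, Ex_union hd]
  apply Ex_mono hok
  intro w hw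
  rw [← Ex_mul_left]
  apply Ex_mono hok
  intro F hF
  have hcF : c ∉ F := fun h => (Finset.mem_sdiff.mp (hF h)).2 hcB
  have hcb : c ∉ b := fun h => hb c h hcB
  rw [← ind_and]
  apply ind_mono
  rintro ⟨k0, k1, k2⟩
  have s1 : (w ∪ F) ∪ b = w ∪ (F ∪ b) := Finset.union_assoc _ _ _
  have s2 : (w ∪ F) \ b = w ∪ (F \ b) := by
    rw [Finset.union_sdiff_distrib]
    congr 1
    rw [Finset.sdiff_eq_self_iff_disjoint, Finset.disjoint_left]
    intro x hx hx'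
    exact hb x hx' (hw hx)
  have c1 : c ∉ F ∪ b := by
    rw [Finset.mem_union]; push Not; exact ⟨hcF, hcb⟩
  have c2 : c ∉ F \ b := fun h => hcF (Finset.mem_sdiff.mp h).1
  rw [s1] at k1
  rw [s2] at k2
  rw [Ae_union c1] at k1
  rw [Ae_union c2] at k2
  refine ⟨?_, k1, k2⟩
  unfold L4 at k0 ⊢
  refine (A4_congr ?_).1 k0
  intro x hx _
  rw [Finset.mem_coe, Finset.mem_coe, Finset.mem_union]
  constructor
  · rintro (h | h)
    · exact h
    · exact absurd hx (Finset.mem_sdiff.mp (hF h)).2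
  · exact fun h => Or.inl h

/-- Sum over the edges outside the ball. -/
theorem out_edge {κ C : ℝ} (hC : ∀ (q : ℝ) (n : ℕ), Win q κ n →
    ∀ (K Λ R : ℕ), 1 ≤ Λ → 4 * 2^K ≤ n → 2 * R ≤ Λ * 2^K → ∀ (a b c d : ℤ), -(R:ℤ) ≤ a →
    a ≤ b → b ≤ R → -(R:ℤ) ≤ c → c ≤ d → d ≤ R →
    ∀ (I J : Set Vtx) (O : Set Edg), Disjoint O ↑(boxE R \ RE a b c d) →
    (∀ v ∈ I ∪ J, inR a b c d v) →
    ∑ g ∈ boxE R \ RE a b c d, PQ q (boxE R \ RE a b c d) (Pf (CO I J O) g) ≤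
      C * Λ * W1s q K) (hC0 : 0 < C)
    {q : ℝ} {n : ℕ} (h : Win q κ n) {K Λ R : ℕ} (hΛ : 1 ≤ Λ) (hn : 4 * 2^K ≤ n)
    (hR : 2 * R ≤ Λ * 2^K) {ρ : ℕ} (hρ : 1 ≤ ρ) {c : Edg}
    (hc : (-(R:ℤ) + ρ ≤ c.1 ∧ c.1 + ρ ≤ R) ∧ (-(R:ℤ) + ρ ≤ c.2.1 ∧ c.2.1 + ρ ≤ R)) :
    ∑ g ∈ boxE R \ blk (bp c) ρ, PQ q (boxE R) (Pf (Ae c) g) ≤
      a4 q ρ * (C * Λ * W1s q K) := by
  have h0 : 0 ≤ q := by linarith [h.lo]
  have h1 : q ≤ 1 := by linarith [h.hi]
  have hok := okQ h0 h1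
  set B := blk (bp c) ρ with hBdef
  have hcB : c ∈ B := FPX.self_mem_blk hρ
  have hBR : B ⊆ boxE R := by
    rw [hBdef]
    unfold blk bp boxE
    apply RE_subset <;> simp only <;> omega
  have hw0 := FPX.W1s_nonneg h0 h1 K
  have hin : ∀ w, w ⊆ B → ∑ g ∈ boxE R \ B,
      PQ q (boxE R \ B) (Pf (CO {src c} {tgt c} ↑(w.erase c)) g) ≤ C * Λ * W1s q K := by
    intro w hw
    have := hC q n h K Λ R hΛ hn hR (c.1 - ρ) (c.1 + ρ) (c.2.1 - ρ) (c.2.1 + ρ) (by omega)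
      (by omega) (by omega) (by omega) (by omega) (by omega) {src c} {tgt c} (↑(w.erase c)) ?_ ?_
    · exact this
    · rw [Finset.disjoint_coe, Finset.disjoint_left]
      intro x hx hx'
      exact (Finset.mem_sdiff.mp hx').2 (hw (Finset.erase_subset _ _ hx))
    · obtain ⟨s1, s2⟩ := src_in_ball (c := c) hρ
      rintro v (hv | hv)
      · rw [Set.mem_singleton_iff] at hv
        rw [hv]; exact s1
      · rw [Set.mem_singleton_iff] at hv
        rw [hv]; exact s2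
  calc ∑ g ∈ boxE R \ B, PQ q (boxE R) (Pf (Ae c) g)
      ≤ ∑ g ∈ boxE R \ B, Ex (fun _ => q) B (fun w => ind (L4 ρ c (↑w : Set Edg)) *
        PQ q (boxE R \ B) (Pf (CO {src c} {tgt c} ↑(w.erase c)) g)) :=
        Finset.sum_le_sum (fun g hg => Pf_van h0 h1 hρ hBR (Finset.mem_sdiff.mp hg).2)
    _ = Ex (fun _ => q) B (fun w => ind (L4 ρ c (↑w : Set Edg)) * ∑ g ∈ boxE R \ B,
        PQ q (boxE R \ B) (Pf (CO {src c} {tgt c} ↑(w.erase c)) g)) := by
        rw [← Ex_sum]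
        apply Ex_congr
        intro w _
        rw [← Finset.mul_sum]
    _ ≤ Ex (fun _ => q) B (fun w => ind (L4 ρ c (↑w : Set Edg)) * (C * Λ * W1s q K)) := by
        apply Ex_mono hok
        intro w hw
        exact mul_le_mul_of_nonneg_left (hin w hw) (ind_nonneg _)
    _ = PQ q B (fun w => L4 ρ c (↑w : Set Edg)) * (C * Λ * W1s q K) := by
        rw [Ex_mul_right]
        rfl
    _ ≤ a4 q ρ * (C * Λ * W1s q K) := by
        apply mul_le_mul_of_nonneg_right (pr_L4 h0 h1 (Finset.Subset.refl _))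
        positivity

end Pool.Agent.TH992
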