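import Pool.Agent.TH992.K.Cls

/-!
Sum over the blocks of the probabilities that two distinct clusters join the block to the
boundary of a box.
-/

set_option autoImplicit false

namespace Pool.Agent.TH992

open H974 H12S H973N Finset

/-- Two distinct clusters off the block join it to the boundary of the box `[-N, N]²`. -/
def Ve (t : ℤ × ℤ) (r N : ℕ) (F : Set Edg) : Prop :=
  ∃ u v : Vtx, inR (t.1 - r) (t.1 + r) (t.2 - r) (t.2 + r) u ∧
    inR (t.1 - r) (t.1 + r) (t.2 - r) (t.2 + r) v ∧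
    (∃ w ∈ bdR (-(N:ℤ)) N (-(N:ℤ)) N, Reach (F \ ↑(blk t r)) u w) ∧
    (∃ w ∈ bdR (-(N:ℤ)) N (-(N:ℤ)) N, Reach (F \ ↑(blk t r)) v w) ∧
    ¬ Reach (F \ ↑(blk t r)) u v

theorem row_conn {a b c d : ℤ} (n : ℕ) : ∀ {x y : ℤ}, a ≤ x → x + n ≤ b → c ≤ y → y ≤ d →
    Reach (↑(RE a b c d) : Set Edg) (x, y) (x + n, y) := by
  induction n with
  | zero => intro x y _ _ _ _; simpa using Reach.refl _ _
  | succ n ih =>
    intro x y h1 h2 h3 h4
    push_cast at h2
    refine (ih h1 (by omega) h3 h4).trans (Adj.reach ⟨(x + n, y, true), ?_, Or.inl ⟨rfl, ?_⟩⟩)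
    · rw [Finset.mem_coe, mem_RE_true]
      omega
    · rw [tgt_true]
      push_cast
      congr 1
      ring

theorem col_conn {a b c d : ℤ} (n : ℕ) : ∀ {x y : ℤ}, a ≤ x → x ≤ b → c ≤ y → y + n ≤ d →
    Reach (↑(RE a b c d) : Set Edg) (x, y) (x, y + n) := by
  induction n with
  | zero => intro x y _ _ _ _; simpa using Reach.refl _ _
  | succ n ih =>
    intro x y h1 h2 h3 h4
    push_cast at h4
    refine (ih h1 h2 h3 (by omega)).trans (Adj.reach ⟨(x, y + n, false), ?_, Or.inl ⟨rfl, ?_⟩⟩)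
    · rw [Finset.mem_coe, mem_RE_false]
      omega
    · rw [tgt_false]
      push_cast
      congr 1
      ring

theorem box_conn {a b c d : ℤ} {u v : Vtx} (hu : inR a b c d u) (hv : inR a b c d v) :
    Reach (↑(RE a b c d) : Set Edg) u v := by
  obtain ⟨x, y⟩ := u
  obtain ⟨x', y'⟩ := v
  unfold inR at hu hv
  simp only at hu hv
  have h1 : Reach (↑(RE a b c d) : Set Edg) (x, y) (x', y) := by
    rcases le_total x x' with h | h
    · have := row_conn (a := a) (b := b) (c := c) (d := d) (x' - x).toNat (x := x) (y := y)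
        (by omega) (by omega) (by omega) (by omega)
      rwa [show x + ((x' - x).toNat : ℤ) = x' by omega] at this
    · have := row_conn (a := a) (b := b) (c := c) (d := d) (x - x').toNat (x := x') (y := y)
        (by omega) (by omega) (by omega) (by omega)
      rw [show x' + ((x - x').toNat : ℤ) = x by omega] at this
      exact this.symm
  have h2 : Reach (↑(RE a b c d) : Set Edg) (x', y) (x', y') := by
    rcases le_total y y' with h | h
    · have := col_conn (a := a) (b := b) (c := c) (d := d) (y' - y).toNat (x := x') (y := y)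
        (by omega) (by omega) (by omega) (by omega)
      rwa [show y + ((y' - y).toNat : ℤ) = y' by omega] at this
    · have := col_conn (a := a) (b := b) (c := c) (d := d) (y - y').toNat (x := x') (y := y')
        (by omega) (by omega) (by omega) (by omega)
      rw [show y' + ((y - y').toNat : ℤ) = y by omega] at this
      exact this.symm
  exact h1.trans h2

/-- A vertex of the box joined to the outside off the box is on its boundary. -/
theorem not_int {w : Set Edg} {M : ℕ} (hw : ∀ e ∈ w, e ∉ boxE M) {r y : Vtx} (hne : r ≠ y)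
    (h : Reach w r y) : ¬ ((-(M:ℤ) < r.1 ∧ r.1 < M) ∧ (-(M:ℤ) < r.2 ∧ r.2 < M)) := by
  rcases Relation.ReflTransGen.cases_head h with h' | ⟨z, hz, _⟩
  · exact absurd h' hne
  · obtain ⟨e, he, hc⟩ := hz
    intro hin
    apply hw e he
    obtain ⟨x0, y0, _ | _⟩ := e
    · unfold boxE
      rw [mem_RE_false]
      simp only [src_mk, tgt_false] at hc
      rcases hc with ⟨k1, _⟩ | ⟨_, k1⟩
      · subst k1; simp only at hin; omega
      · subst k1; simp only at hin; omega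
    · unfold boxE
      rw [mem_RE_true]
      simp only [src_mk, tgt_true] at hc
      rcases hc with ⟨k1, _⟩ | ⟨_, k1⟩
      · subst k1; simp only at hin; omega
      · subst k1; simp only at hin; omega

/-- The vertices of the box `[-M, M]²` joined in `w` to the boundary of the box `[-N, N]²`. -/
def Xv (M N : ℕ) (w : Set Edg) (r : Vtx) : Prop :=
  inR (-(M:ℤ)) M (-(M:ℤ)) M r ∧ ∃ y ∈ bdR (-(N:ℤ)) N (-(N:ℤ)) N, Reach w r y

theorem boxE_ends {M : ℕ} {e : Edg} (he : e ∈ (↑(boxE M) : Set Edg)) :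
    inR (-(M:ℤ)) M (-(M:ℤ)) M (src e) ∧ inR (-(M:ℤ)) M (-(M:ℤ)) M (tgt e) := by
  unfold boxE inR at *
  rw [Finset.mem_coe] at he
  obtain ⟨x0, y0, _ | _⟩ := e
  · rw [mem_RE_false] at he
    simp only [src_mk, tgt_false]
    omega
  · rw [mem_RE_true] at he
    simp only [src_mk, tgt_true]
    omega

theorem Ve_split {t : ℤ × ℤ} {r M N : ℕ} (ht1 : |t.1| + r ≤ M) (ht2 : |t.2| + r ≤ M)
    {F1 w : Finset Edg} (hw : ∀ e ∈ w, e ∉ boxE M) {R : Finset Vtx}
    (hF1 : F1 ⊆ boxE M)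
    (hR : ∀ x : Vtx, Xv M N (↑w : Set Edg) x → ∃ ρ ∈ R, Reach (↑w : Set Edg) x ρ)
    (h : Ve t r N (↑(w ∪ F1) : Set Edg)) :
    ∃ r1 ∈ R, ∃ r2 ∈ R, Bf (CO {r1} {r2} (↑w : Set Edg)) (blk t r) F1 := by
  have hb : blk t r ⊆ boxE M := by
    have k1 := abs_le.1 (show |t.1| ≤ (M:ℤ) - r by linarith)
    have k2 := abs_le.1 (show |t.2| ≤ (M:ℤ) - r by linarith)
    unfold blk boxE
    apply RE_subset <;> linarith [k1.1, k1.2, k2.1, k2.2]
  have hwb : ∀ e ∈ w, e ∉ blk t r := fun e he h' => hw e he (hb h')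
  obtain ⟨u, v, hu, hv, ⟨y1, hy1, hr1⟩, ⟨y2, hy2, hr2⟩, hno⟩ := h
  have hinM : ∀ z : Vtx, inR (t.1 - r) (t.1 + r) (t.2 - r) (t.2 + r) z →
      inR (-(M:ℤ)) M (-(M:ℤ)) M z := by
    intro z hz
    have k1 := abs_le.1 (show |t.1| ≤ (M:ℤ) - r by linarith)
    have k2 := abs_le.1 (show |t.2| ≤ (M:ℤ) - r by linarith)
    unfold inR at hz ⊢
    refine ⟨⟨?_, ?_⟩, ?_, ?_⟩ <;> linarith [k1.1, k1.2, k2.1, k2.2, hz.1.1, hz.1.2, hz.2.1, hz.2.2]
  set G : Set Edg := (↑(w ∪ F1) : Set Edg) \ ↑(blk t r) with hG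
  have hwG : (↑w : Set Edg) ⊆ G := by
    intro e he
    rw [hG]
    refine ⟨?_, fun h' => hwb e (Finset.mem_coe.1 he) (Finset.mem_coe.1 h')⟩
    rw [Finset.mem_coe, Finset.mem_union]
    exact Or.inl (Finset.mem_coe.1 he)
  have hGw : G \ ↑(boxE M) ⊆ (↑w : Set Edg) := by
    rintro e ⟨⟨he, _⟩, he'⟩
    rw [Finset.mem_coe, Finset.mem_union] at he
    rcases he with he | he
    · exact Finset.mem_coe.2 he
    · exact absurd (Finset.mem_coe.2 (hF1 he)) he'
  have arm : ∀ z y : Vtx, inR (t.1 - r) (t.1 + r) (t.2 - r) (t.2 + r) z →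
      y ∈ bdR (-(N:ℤ)) N (-(N:ℤ)) N → Reach G z y → ∃ ρ ∈ R, Reach G z ρ := by
    intro z y hz hy hzy
    obtain ⟨x, k1, k2, k3⟩ := last_exit (G := G) (b := (↑(boxE M) : Set Edg))
      (Q := inR (-(M:ℤ)) M (-(M:ℤ)) M) (fun e he => boxE_ends he) (hinM z hz) hzy
    obtain ⟨ρ, hρ, hxρ⟩ := hR x ⟨k1, y, hy, k3.mono hGw⟩
    exact ⟨ρ, hρ, k2.trans (hxρ.mono hwG)⟩
  obtain ⟨ρ1, hρ1, g1⟩ := arm u y1 hu hy1 hr1
  obtain ⟨ρ2, hρ2, g2⟩ := arm v y2 hv hy2 hr2
  refine ⟨ρ1, hρ1, ρ2, hρ2, ?_, ?_⟩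
  · refine ⟨ρ1, rfl, ρ2, rfl, ?_⟩
    have m1 : G ⊆ (↑(F1 ∪ blk t r) : Set Edg) ∪ ↑w := by
      rintro e ⟨he, _⟩
      rw [Finset.mem_coe, Finset.mem_union] at he
      rcases he with he | he
      · exact Or.inr he
      · left
        rw [Finset.mem_coe, Finset.mem_union]
        exact Or.inl he
    have m2 : (↑(blk t r) : Set Edg) ⊆ (↑(F1 ∪ blk t r) : Set Edg) ∪ ↑w := by
      intro e he
      left
      rw [Finset.mem_coe, Finset.mem_union]
      exact Or.inr he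
    have huv : Reach (↑(blk t r) : Set Edg) u v := box_conn hu hv
    exact ((g1.symm.mono m1).trans (huv.mono m2)).trans (g2.mono m1)
  · rintro ⟨a, ha, b, hb', hab⟩
    rw [Set.mem_singleton_iff] at ha hb'
    subst ha hb'
    apply hno
    refine (g1.trans (hab.mono ?_)).trans g2.symm
    rintro e (he | he)
    · rw [Finset.mem_coe, Finset.mem_sdiff] at he
      refine ⟨?_, fun h' => he.2 (Finset.mem_coe.1 h')⟩
      rw [Finset.mem_coe, Finset.mem_union]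
      exact Or.inr he.1
    · exact hwG he

/-- The sum over the blocks. -/
theorem Ve_sum (κ : ℝ) (hκ : 0 < κ) : ∃ C : ℝ, 0 < C ∧ ∀ (q : ℝ) (n : ℕ), Win q κ n →
    ∀ (M ρ : ℕ), 1 ≤ ρ → 1 ≤ M → 2 * M ≤ n → 12 * ρ ≤ n → ∀ T : Finset (ℤ × ℤ),
    (∀ t ∈ T, 2 * (ρ:ℤ) * |t.1| + 18 * ρ ≤ M ∧ 2 * (ρ:ℤ) * |t.2| + 18 * ρ ≤ M) →
    ∑ t ∈ T, PQ q (boxE (3 * M)) (fun F => Ve (((2 * ρ : ℕ) : ℤ) * t.1, ((2 * ρ : ℕ) : ℤ) * t.2)
      (6 * ρ) (3 * M) (↑F : Set Edg)) ≤ C * Real.sqrt T.card := by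
  classical
  by_cases hk : κ ≤ 1 / 2
  swap
  · refine ⟨1, one_pos, ?_⟩
    intro q n hW
    exact absurd hW.kle hk
  have hk4 : κ ^ 4 ≤ (1 / 2) ^ 4 := pow_le_pow_left₀ hκ.le hk 4
  have hk40 : 0 < κ ^ 4 := by positivity
  obtain ⟨C0, hC0, hmom⟩ := sq_moment (lam := 1 - κ ^ 4) (by norm_num at hk4; linarith)
    (by linarith)
  refine ⟨C0 * (722 * κ⁻¹ ^ 4), by positivity, ?_⟩
  intro q n hW M ρ hρ hM hMn hρn T hT
  have h0 : 0 ≤ q := by linarith [hW.lo]
  have h1 : q ≤ 1 := by linarith [hW.hi]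
  have hok := okQ h0 h1
  have hρz : (1:ℤ) ≤ ρ := by exact_mod_cast hρ
  set ann : Finset Edg := boxE (3 * M) \ boxE M with hann
  have hsub : boxE M ⊆ boxE (3 * M) := by
    unfold boxE
    apply RE_subset <;> push_cast <;> omega
  have hU : boxE (3 * M) = ann ∪ boxE M := by
    rw [hann, Finset.sdiff_union_of_subset hsub]
  have hd : Disjoint ann (boxE M) := Finset.sdiff_disjoint
  set V : Finset Vtx := Finset.Icc (-(M:ℤ)) M ×ˢ Finset.Icc (-(M:ℤ)) M with hV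
  choose Rep hRep using fun w : Finset Edg => exists_rep (↑w : Set Edg) V (Xv M (3 * M) ↑w)
  have hrepcov : ∀ w : Finset Edg, ∀ x : Vtx, Xv M (3 * M) (↑w : Set Edg) x →
      ∃ r ∈ Rep w, Reach (↑w : Set Edg) x r := by
    intro w x hx
    refine (hRep w).2.2.2 x ?_ hx
    rw [hV, Finset.mem_product, Finset.mem_Icc, Finset.mem_Icc]
    exact hx.1
  -- moment of the number of classes
  have hcard : Ex (fun _ => q) ann (fun w => (((Rep w).card : ℕ) : ℝ) ^ 2) ≤ C0 := by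
    apply hmom (fun _ => q) hok ann (fun w => (Rep w).card)
    intro k
    have hA : IncrE ann (fun F : Finset Edg => Crs 0 0 M (3 * M) (↑F : Set Edg)) :=
      fun F G hFG _ hF => BS_crs_mono (by exact_mod_cast hFG) hF
    have s1 : Pr (fun _ => q) ann (fun w => k ≤ (Rep w).card) ≤
        Pr (fun _ => q) ann (Dk (fun F : Finset Edg => Crs 0 0 M (3 * M) (↑F : Set Edg)) k) := by
      apply Pr_mono hok
      intro w _ hkw
      obtain ⟨R', hR', hcR⟩ := Finset.exists_subset_card_eq hkw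
      rw [← hcR]
      apply Dk_of
      · intro r hr
        obtain ⟨hr1, y, hy, hry⟩ := (hRep w).2.1 r (hR' hr)
        refine ⟨r, y, ?_, ?_, reach_clE hry⟩
        · simpa using hr1
        · have := hy.2
          simp only [zero_sub, zero_add]
          omega
      · intro r hr r' hr' hne
        exact (hRep w).2.2.1 r (hR' hr) r' (hR' hr') hne
    refine s1.trans ((Dk_pr hok hA k).trans ?_)
    apply pow_le_pow_left₀ (Pr_nonneg hok _ _)
    have s2 := (win_blk hW hM hMn 0 0 ann).1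
    unfold PQ at s2
    rw [Pr_not] at s2
    linarith
  -- one block
  have hblock : ∀ t ∈ T, PQ q (boxE (3 * M)) (fun F => Ve (((2 * ρ : ℕ) : ℤ) * t.1,
      ((2 * ρ : ℕ) : ℤ) * t.2) (6 * ρ) (3 * M) (↑F : Set Edg)) ≤
      Ex (fun _ => q) ann (fun w => ∑ r1 ∈ Rep w, ∑ r2 ∈ Rep w,
        PQ q (boxE M) (Bf (CO {r1} {r2} (↑w : Set Edg))
          (blk (((2 * ρ : ℕ) : ℤ) * t.1, ((2 * ρ : ℕ) : ℤ) * t.2) (6 * ρ)))) := by
    intro t ht
    obtain ⟨ht1, ht2⟩ := hT t ht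
    unfold PQ Pr
    conv_lhs => rw [hU, Ex_union hd]
    apply Ex_mono hok
    intro w hw
    have e1 : ∀ r1 r2 : Vtx, Ex (fun _ => q) (boxE M) (fun F => ind (Bf (CO {r1} {r2}
        (↑w : Set Edg)) (blk (((2 * ρ : ℕ) : ℤ) * t.1, ((2 * ρ : ℕ) : ℤ) * t.2) (6 * ρ)) F)) =
        Ex (fun _ => q) (boxE M) (fun F => ind (Bf (CO {r1} {r2}
        (↑w : Set Edg)) (blk (((2 * ρ : ℕ) : ℤ) * t.1, ((2 * ρ : ℕ) : ℤ) * t.2) (6 * ρ)) F)) :=
      fun _ _ => rfl
    simp only [← Ex_sum]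
    apply Ex_mono hok
    intro F hF
    by_cases hVe : Ve (((2 * ρ : ℕ) : ℤ) * t.1, ((2 * ρ : ℕ) : ℤ) * t.2) (6 * ρ) (3 * M)
        (↑(w ∪ F) : Set Edg)
    · have g := Ve_split (M := M) (N := 3 * M) ?_ ?_ (w := w) (F1 := F) ?_ hF
        (hrepcov w) hVe
      · obtain ⟨r1, hr1, r2, hr2, hB⟩ := g
        rw [ind_of hVe]
        have i1 : (1:ℝ) ≤ ∑ r2 ∈ Rep w, ind (Bf (CO {r1} {r2} (↑w : Set Edg))
            (blk (((2 * ρ : ℕ) : ℤ) * t.1, ((2 * ρ : ℕ) : ℤ) * t.2) (6 * ρ)) F) := by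
          have := Finset.single_le_sum (f := fun r2 => ind (Bf (CO {r1} {r2} (↑w : Set Edg))
            (blk (((2 * ρ : ℕ) : ℤ) * t.1, ((2 * ρ : ℕ) : ℤ) * t.2) (6 * ρ)) F))
            (fun _ _ => ind_nonneg _) hr2
          rw [ind_of hB] at this
          exact this
        refine i1.trans ?_
        exact Finset.single_le_sum (f := fun r1 => ∑ r2 ∈ Rep w, ind (Bf (CO {r1} {r2}
          (↑w : Set Edg)) (blk (((2 * ρ : ℕ) : ℤ) * t.1, ((2 * ρ : ℕ) : ℤ) * t.2) (6 * ρ)) F))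
          (fun _ _ => Finset.sum_nonneg (fun _ _ => ind_nonneg _)) hr1
      · simp only
        rw [abs_mul]
        push_cast
        rw [abs_of_nonneg (by positivity : (0:ℤ) ≤ 2 * ρ)]
        linarith
      · simp only
        rw [abs_mul]
        push_cast
        rw [abs_of_nonneg (by positivity : (0:ℤ) ≤ 2 * ρ)]
        linarith
      · intro e he
        exact (Finset.mem_sdiff.1 (hw he)).2
    · rw [ind_not_of hVe]
      exact Finset.sum_nonneg (fun _ _ => Finset.sum_nonneg (fun _ _ => ind_nonneg _))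
  -- the tiles, for a fixed pair of classes
  have htile : ∀ w, w ⊆ ann → ∀ r1 ∈ Rep w, ∀ r2 ∈ Rep w,
      ∑ t ∈ T, PQ q (boxE M) (Bf (CO {r1} {r2} (↑w : Set Edg))
        (blk (((2 * ρ : ℕ) : ℤ) * t.1, ((2 * ρ : ℕ) : ℤ) * t.2) (6 * ρ))) ≤
        722 * κ⁻¹ ^ 4 * Real.sqrt T.card := by
    intro w hw r1 hr1 r2 hr2
    have hwo : ∀ e ∈ (↑w : Set Edg), e ∉ boxE M := fun e he =>
      (Finset.mem_sdiff.1 (hw (Finset.mem_coe.1 he))).2
    have hnint : ∀ r ∈ Rep w, ¬ ((-(M:ℤ) < r.1 ∧ r.1 < M) ∧ (-(M:ℤ) < r.2 ∧ r.2 < M)) := by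
      intro r hr
      obtain ⟨hr1, y, hy, hry⟩ := (hRep w).2.1 r hr
      refine not_int hwo ?_ hry
      rintro rfl
      have h2 := hy.2
      unfold inR at hr1
      push_cast at h2
      omega
    have hts := tile_sum hW (S := boxE M) (I := {r1}) (J := {r2}) (O := (↑w : Set Edg)) ?_
      (s := 2 * ρ) (R := 6 * ρ) (K := 19) (by omega) (by omega) (by omega) (by norm_num)
      (by omega) T ?_ ?_
    · refine hts.trans (le_of_eq ?_)
      push_cast
      ring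
    · rw [Set.disjoint_left]
      intro e he he'
      exact hwo e he (Finset.mem_coe.1 he')
    · intro t ht
      obtain ⟨ht1, ht2⟩ := hT t ht
      have k1 := le_abs_self t.1
      have k2 := neg_abs_le t.1
      have k3 := le_abs_self t.2
      have k4 := neg_abs_le t.2
      unfold blk boxE
      push_cast
      apply RE_subset <;> nlinarith
    · intro t ht v hv hv'
      obtain ⟨ht1, ht2⟩ := hT t ht
      have k1 := le_abs_self t.1
      have k2 := neg_abs_le t.1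
      have k3 := le_abs_self t.2
      have k4 := neg_abs_le t.2
      push_cast at hv'
      have hvint : (-(M:ℤ) < v.1 ∧ v.1 < M) ∧ (-(M:ℤ) < v.2 ∧ v.2 < M) := by
        refine ⟨⟨?_, ?_⟩, ?_, ?_⟩ <;> nlinarith [hv'.1.1, hv'.1.2, hv'.2.1, hv'.2.2]
      rcases hv with hv | hv
      · rw [Set.mem_singleton_iff] at hv
        exact hnint r1 hr1 (hv ▸ hvint)
      · rw [Set.mem_singleton_iff] at hv
        exact hnint r2 hr2 (hv ▸ hvint)
  calc ∑ t ∈ T, PQ q (boxE (3 * M)) (fun F => Ve (((2 * ρ : ℕ) : ℤ) * t.1,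
      ((2 * ρ : ℕ) : ℤ) * t.2) (6 * ρ) (3 * M) (↑F : Set Edg))
      ≤ ∑ t ∈ T, Ex (fun _ => q) ann (fun w => ∑ r1 ∈ Rep w, ∑ r2 ∈ Rep w,
        PQ q (boxE M) (Bf (CO {r1} {r2} (↑w : Set Edg))
          (blk (((2 * ρ : ℕ) : ℤ) * t.1, ((2 * ρ : ℕ) : ℤ) * t.2) (6 * ρ)))) :=
        Finset.sum_le_sum hblock
    _ = Ex (fun _ => q) ann (fun w => ∑ t ∈ T, ∑ r1 ∈ Rep w, ∑ r2 ∈ Rep w,
        PQ q (boxE M) (Bf (CO {r1} {r2} (↑w : Set Edg))
          (blk (((2 * ρ : ℕ) : ℤ) * t.1, ((2 * ρ : ℕ) : ℤ) * t.2) (6 * ρ)))) := by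
        rw [Ex_sum]
    _ ≤ Ex (fun _ => q) ann (fun w => (((Rep w).card : ℕ) : ℝ) ^ 2 *
        (722 * κ⁻¹ ^ 4 * Real.sqrt T.card)) := by
        apply Ex_mono hok
        intro w hw
        rw [Finset.sum_comm]
        have i1 : ∀ r1 ∈ Rep w, ∑ t ∈ T, ∑ r2 ∈ Rep w, PQ q (boxE M) (Bf (CO {r1} {r2}
            (↑w : Set Edg)) (blk (((2 * ρ : ℕ) : ℤ) * t.1, ((2 * ρ : ℕ) : ℤ) * t.2) (6 * ρ))) ≤
            (Rep w).card * (722 * κ⁻¹ ^ 4 * Real.sqrt T.card) := by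
          intro r1 hr1
          rw [Finset.sum_comm]
          refine (Finset.sum_le_sum fun r2 hr2 => htile w hw r1 hr1 r2 hr2).trans (le_of_eq ?_)
          rw [Finset.sum_const, nsmul_eq_mul]
        refine (Finset.sum_le_sum i1).trans (le_of_eq ?_)
        rw [Finset.sum_const, nsmul_eq_mul]
        ring
    _ = Ex (fun _ => q) ann (fun w => (((Rep w).card : ℕ) : ℝ) ^ 2) *
        (722 * κ⁻¹ ^ 4 * Real.sqrt T.card) := Ex_mul_right _ _ _ _
    _ ≤ C0 * (722 * κ⁻¹ ^ 4 * Real.sqrt T.card) := by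
        have hs : 0 ≤ 722 * κ⁻¹ ^ 4 * Real.sqrt T.card :=
          mul_nonneg (mul_nonneg (by norm_num) (by positivity)) (Real.sqrt_nonneg _)
        exact mul_le_mul_of_nonneg_right hcard hs
    _ = C0 * (722 * κ⁻¹ ^ 4) * Real.sqrt T.card := by ring

end Pool.Agent.TH992
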